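import Mathlib

set_option autoImplicit false
set_option linter.unusedSectionVars false
set_option linter.unusedVariables false

namespace Pool.Agent.Results.MP_0e1b7e_an.FullRange

section partM1a

open Finset Matrix

section mat

variable {ι : Type} [Fintype ι] [DecidableEq ι]

/-- squared euclidean length -/
noncomputable def nsq (v : ι → ℂ) : ℝ := ∑ i, Complex.normSq (v i)

/-- the matrix `1 - (1 - s) v v^*` -/
noncomputable def RR (s : ℝ) (v : ι → ℂ) : Matrix ι ι ℂ :=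
  1 - (((1 - s : ℝ)) : ℂ) • vecMulVec v (star v)

/-- squared Frobenius norm -/
noncomputable def fro (A : Matrix ι ι ℂ) : ℝ := ∑ i, ∑ j, Complex.normSq (A i j)

theorem nsq_nonneg (v : ι → ℂ) : 0 ≤ nsq v :=
  Finset.sum_nonneg fun _ _ => Complex.normSq_nonneg _

theorem fro_nonneg (A : Matrix ι ι ℂ) : 0 ≤ fro A :=
  Finset.sum_nonneg fun _ _ => Finset.sum_nonneg fun _ _ => Complex.normSq_nonneg _

theorem nsq_eq (v : ι → ℂ) : (nsq v : ℂ) = v ⬝ᵥ star v := by
  rw [nsq, dotProduct]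
  push_cast
  apply Finset.sum_congr rfl
  intro i _
  rw [Pi.star_apply, Complex.star_def, Complex.mul_conj]

theorem nsq_eq' (v : ι → ℂ) : (nsq v : ℂ) = star v ⬝ᵥ v := by
  rw [nsq_eq, dotProduct_comm]

theorem fro_eq (A : Matrix ι ι ℂ) : (fro A : ℂ) = (A * Aᴴ).trace := by
  rw [fro, Matrix.trace]
  push_cast
  apply Finset.sum_congr rfl
  intro i _
  rw [Matrix.diag_apply, Matrix.mul_apply]
  apply Finset.sum_congr rfl
  intro j _
  rw [conjTranspose_apply, Complex.star_def, Complex.mul_conj]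

theorem RR_herm (s : ℝ) (v : ι → ℂ) : (RR s v)ᴴ = RR s v := by
  rw [RR, conjTranspose_sub, conjTranspose_one, conjTranspose_smul, conjTranspose_vecMulVec,
    star_star, Complex.star_def, Complex.conj_ofReal]

theorem RR_one (v : ι → ℂ) : RR 1 v = 1 := by
  rw [RR]
  simp

theorem P_sq (v : ι → ℂ) (hv : star v ⬝ᵥ v = 1) :
    vecMulVec v (star v) * vecMulVec v (star v) = vecMulVec v (star v) := by
  rw [vecMulVec_mul_vecMulVec, hv, one_smul]

theorem RR_mul (s t : ℝ) (v : ι → ℂ) (hv : star v ⬝ᵥ v = 1) :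
    RR s v * RR t v = RR (s * t) v := by
  simp only [RR]
  rw [sub_mul, mul_sub, mul_sub, one_mul, mul_one, one_mul, smul_mul_smul_comm, P_sq v hv]
  push_cast
  module

theorem fro_mul_RR (s : ℝ) (v : ι → ℂ) (hv : star v ⬝ᵥ v = 1) (A : Matrix ι ι ℂ) :
    fro (A * RR s v) = fro A - (1 - s ^ 2) * nsq (A *ᵥ v) := by
  have h : (fro (A * RR s v) : ℂ) = fro A - (1 - s ^ 2) * nsq (A *ᵥ v) := by
    rw [fro_eq, fro_eq, nsq_eq, conjTranspose_mul, RR_herm, Matrix.mul_assoc,
      ← Matrix.mul_assoc (RR s v), RR_mul s s v hv, RR, sub_mul, one_mul, mul_sub,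
      Matrix.trace_sub, Matrix.smul_mul, Matrix.mul_smul, Matrix.trace_smul,
      ← Matrix.mul_assoc, mul_vecMulVec, vecMulVec_mul, ← star_mulVec, trace_vecMulVec]
    push_cast
    simp only [smul_eq_mul]
    ring
  exact_mod_cast h

theorem nsq_mulVec_le (v : ι → ℂ) (hv : star v ⬝ᵥ v = 1) (A : Matrix ι ι ℂ) :
    nsq (A *ᵥ v) ≤ fro A := by
  have h1 := fro_mul_RR 0 v hv A
  have h2 := fro_nonneg (A * RR 0 v)
  rw [h1] at h2
  linarith

theorem fro_mul_RR_le (s : ℝ) (hs : s ^ 2 ≤ 1) (v : ι → ℂ) (hv : star v ⬝ᵥ v = 1)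
    (A : Matrix ι ι ℂ) : fro (A * RR s v) ≤ fro A := by
  rw [fro_mul_RR s v hv A]
  have := nsq_nonneg (A *ᵥ v)
  nlinarith

theorem fro_conjTranspose (A : Matrix ι ι ℂ) : fro Aᴴ = fro A := by
  rw [fro, fro, Finset.sum_comm]
  apply Finset.sum_congr rfl
  intro i _
  apply Finset.sum_congr rfl
  intro j _
  rw [conjTranspose_apply, Complex.star_def, Complex.normSq_conj]

theorem two_re_trace (A : Matrix ι ι ℂ) :
    2 * (1 - A).trace.re = fro (1 - A) + (Fintype.card ι - fro A) := by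
  have h : (fro (1 - A) : ℂ) = Fintype.card ι - A.trace - star A.trace + fro A := by
    rw [fro_eq, fro_eq, conjTranspose_sub, conjTranspose_one, sub_mul, mul_sub, mul_sub, one_mul,
      mul_one, one_mul, trace_sub, trace_sub, trace_sub, trace_one, trace_conjTranspose]
    ring
  have h2 := congrArg Complex.re h
  simp only [Complex.ofReal_re, Complex.sub_re, Complex.add_re, Complex.natCast_re,
    Complex.star_def, Complex.conj_re] at h2
  rw [trace_sub, trace_one, Complex.sub_re, Complex.natCast_re, h2]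
  ring

/-- the product of `m` consecutive factors `RR s (e i)`, starting at `i = 0` -/
noncomputable def PP (s : ℝ) : ℕ → (ℕ → ι → ℂ) → Matrix ι ι ℂ
  | 0, _ => 1
  | (m + 1), e => RR s (e 0) * PP s m (fun j => e (j + 1))

theorem PP_zero (s : ℝ) (e : ℕ → ι → ℂ) : PP s 0 e = 1 := rfl

theorem PP_succ (s : ℝ) (m : ℕ) (e : ℕ → ι → ℂ) :
    PP s (m + 1) e = RR s (e 0) * PP s m (fun j => e (j + 1)) := rfl

theorem PP_succ' (s : ℝ) (m : ℕ) (e : ℕ → ι → ℂ) :
    PP s (m + 1) e = PP s m e * RR s (e m) := by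
  induction m generalizing e with
  | zero => rw [PP_succ, PP_zero, PP_zero, one_mul, mul_one]
  | succ m ih => rw [PP_succ, ih, ← Matrix.mul_assoc, ← PP_succ]

theorem PP_one (m : ℕ) (e : ℕ → ι → ℂ) : PP 1 m e = 1 := by
  induction m generalizing e with
  | zero => rfl
  | succ m ih => rw [PP_succ, ih, RR_one, one_mul]

end mat

end partM1a

section partM1b

open Finset Matrix

section mat

variable {ι : Type} [Fintype ι] [DecidableEq ι]

theorem RR_split (q r : ℝ) (v : ι → ℂ) :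
    RR (q * r) v = (((1 - q : ℝ)) : ℂ) • RR 0 v + ((q : ℝ) : ℂ) • RR r v := by
  simp only [RR]
  push_cast
  module

theorem PP_mulVec (s : ℝ) (m : ℕ) (e : ℕ → ι → ℂ) (v : ι → ℂ) :
    PP s m e *ᵥ v = ((s ^ m : ℝ) : ℂ) • v + (((1 - s : ℝ)) : ℂ) •
      ∑ i ∈ range m, ((s ^ i : ℝ) : ℂ) •
        ((RR 0 (e i) * PP s (m - 1 - i) (fun j => e (j + (i + 1)))) *ᵥ v) := by
  induction m generalizing e with
  | zero => simp [PP_zero]
  | succ m ih =>
    have hR : RR s (e 0) = (((1 - s : ℝ)) : ℂ) • RR 0 (e 0) + ((s : ℝ) : ℂ) • 1 := by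
      have := RR_split s 1 (e 0)
      rwa [mul_one, RR_one] at this
    have h1 : PP s (m + 1) e *ᵥ v
        = (((1 - s : ℝ)) : ℂ) • ((RR 0 (e 0) * PP s m (fun j => e (j + 1))) *ᵥ v)
          + ((s : ℝ) : ℂ) • (PP s m (fun j => e (j + 1)) *ᵥ v) := by
      rw [PP_succ, hR, add_mul, add_mulVec, Matrix.smul_mul, Matrix.smul_mul, one_mul,
        smul_mulVec, smul_mulVec]
    rw [h1, ih, Finset.sum_range_succ']
    have h2 : ∀ i ∈ range m, ((s ^ (i + 1) : ℝ) : ℂ) •
        ((RR 0 (e (i + 1)) * PP s (m + 1 - 1 - (i + 1)) (fun j => e (j + (i + 1 + 1)))) *ᵥ v)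
        = ((s : ℝ) : ℂ) • (((s ^ i : ℝ) : ℂ) •
        ((RR 0 (e (i + 1)) * PP s (m - 1 - i) (fun j => e (j + (i + 1) + 1))) *ᵥ v)) := by
      intro i _
      have e1 : m + 1 - 1 - (i + 1) = m - 1 - i := by omega
      rw [e1, smul_smul]
      congr 1
      push_cast
      ring
    rw [Finset.sum_congr rfl h2, ← Finset.smul_sum]
    simp only [Nat.add_sub_cancel, Nat.sub_zero, pow_zero, zero_add]
    push_cast
    module

theorem fro_mul_PP (s : ℝ) (m : ℕ) (e : ℕ → ι → ℂ) (he : ∀ k, star (e k) ⬝ᵥ e k = 1)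
    (A : Matrix ι ι ℂ) :
    fro (A * PP s m e) = fro A - (1 - s ^ 2) * ∑ k ∈ range m, nsq ((A * PP s k e) *ᵥ e k) := by
  induction m with
  | zero => simp [PP_zero]
  | succ m ih =>
    rw [PP_succ', ← Matrix.mul_assoc, fro_mul_RR s (e m) (he m), ih, Finset.sum_range_succ]
    ring

theorem fro_mul_PP_le (s : ℝ) (hs : s ^ 2 ≤ 1) (m : ℕ) (e : ℕ → ι → ℂ)
    (he : ∀ k, star (e k) ⬝ᵥ e k = 1) (A : Matrix ι ι ℂ) : fro (A * PP s m e) ≤ fro A := by
  rw [fro_mul_PP s m e he]
  have : 0 ≤ ∑ k ∈ range m, nsq ((A * PP s k e) *ᵥ e k) :=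
    Finset.sum_nonneg fun _ _ => nsq_nonneg _
  nlinarith

theorem fro_one : fro (1 : Matrix ι ι ℂ) = Fintype.card ι := by
  have h : (fro (1 : Matrix ι ι ℂ) : ℂ) = Fintype.card ι := by
    rw [fro_eq, conjTranspose_one, mul_one, trace_one]
  exact_mod_cast h

theorem nsq_unit (v : ι → ℂ) (hv : star v ⬝ᵥ v = 1) : nsq v = 1 := by
  have h := nsq_eq' v
  rw [hv] at h
  exact_mod_cast h

theorem fro_RR_zero (u : ι → ℂ) (hu : star u ⬝ᵥ u = 1) :
    fro (RR 0 u) = Fintype.card ι - 1 := by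
  have h := fro_mul_RR 0 u hu 1
  rw [one_mul, fro_one, one_mulVec, nsq_unit u hu] at h
  rw [h]
  ring

theorem RR_zero_mulVec (u : ι → ℂ) (hu : star u ⬝ᵥ u = 1) : RR 0 u *ᵥ u = 0 := by
  rw [RR, sub_mulVec, smul_mulVec, one_mulVec, vecMulVec_mulVec, hu]
  simp

/-- the basic trace inequality for a product that contains a projection -/
theorem trace_bound (s r : ℝ) (hr : r ^ 2 ≤ 1) (u : ι → ℂ) (hu : star u ⬝ᵥ u = 1)
    (m m' : ℕ) (e e' : ℕ → ι → ℂ) (he : ∀ k, star (e k) ⬝ᵥ e k = 1)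
    (he' : ∀ k, star (e' k) ⬝ᵥ e' k = 1) :
    1 + (1 - s ^ 2) / 2 * ∑ k ∈ range m, nsq ((RR 0 u * PP s k e) *ᵥ e k)
      ≤ (1 - PP r m' e' * (RR 0 u * PP s m e)).trace.re := by
  have h1 : (1 - PP r m' e' * (RR 0 u * PP s m e)).trace
      = (1 - RR 0 u * PP s m e * PP r m' e').trace := by
    rw [trace_sub, trace_sub, trace_mul_comm]
  rw [h1]
  have h2 := two_re_trace (RR 0 u * PP s m e * PP r m' e')
  have h3 := fro_mul_PP_le r hr m' e' he' (RR 0 u * PP s m e)
  rw [fro_mul_PP s m e he, fro_RR_zero u hu] at h3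
  have h4 := nsq_mulVec_le u hu (1 - RR 0 u * PP s m e * PP r m' e')ᴴ
  rw [fro_conjTranspose] at h4
  have h5 : (1 - RR 0 u * PP s m e * PP r m' e')ᴴ *ᵥ u = u := by
    rw [conjTranspose_sub, conjTranspose_one, Matrix.mul_assoc, conjTranspose_mul, RR_herm,
      sub_mulVec, one_mulVec, ← mulVec_mulVec, RR_zero_mulVec u hu, mulVec_zero, sub_zero]
  rw [h5, nsq_unit u hu] at h4
  linarith

theorem PP_add (s : ℝ) (j m : ℕ) (e : ℕ → ι → ℂ) :
    PP s (j + m) e = PP s j e * PP s m (fun k => e (k + j)) := by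
  induction j generalizing e with
  | zero => simp [PP_zero]
  | succ j ih =>
    rw [show j + 1 + m = (j + m) + 1 by omega, PP_succ, ih, PP_succ, Matrix.mul_assoc]
    rfl

/-- telescoping -/
theorem trace_telescope (q r : ℝ) (N : ℕ) (e : ℕ → ι → ℂ) (j : ℕ) (hj : j ≤ N) :
    (1 - PP (q * r) N e).trace.re
      = ∑ i ∈ range j, q ^ i * (1 - q) *
          (1 - PP r i e * (RR 0 (e i) * PP (q * r) (N - 1 - i) (fun k => e (k + (i + 1))))).trace.re
        + q ^ j * (1 - PP r j e * PP (q * r) (N - j) (fun k => e (k + j))).trace.re := by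
  induction j with
  | zero => simp [PP_zero]
  | succ j ih =>
    rw [ih (by omega), Finset.sum_range_succ, add_assoc]
    congr 1
    have e1 : N - j = (N - 1 - j) + 1 := by omega
    have e2 : N - (j + 1) = N - 1 - j := by omega
    have h1 : PP r j e * PP (q * r) (N - j) (fun k => e (k + j))
        = (((1 - q : ℝ)) : ℂ) •
          (PP r j e * (RR 0 (e j) * PP (q * r) (N - 1 - j) (fun k => e (k + (j + 1)))))
        + ((q : ℝ) : ℂ) • (PP r (j + 1) e *
          PP (q * r) (N - (j + 1)) (fun k => e (k + (j + 1)))) := by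
      have e3 : (fun i => (fun k => e (k + j)) (i + 1)) = (fun k => e (k + (j + 1))) := by
        funext i
        show e (i + 1 + j) = e (i + (j + 1))
        congr 1
        omega
      rw [e1, PP_succ, e2, e3]
      simp only [zero_add]
      rw [RR_split, PP_succ', add_mul, mul_add, Matrix.smul_mul, Matrix.smul_mul,
        Matrix.mul_smul, Matrix.mul_smul, Matrix.mul_assoc (PP r j e) (RR r (e j))]
    rw [h1]
    simp only [trace_sub, trace_add, trace_smul, Complex.sub_re, Complex.add_re, smul_eq_mul,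
      Complex.re_ofReal_mul]
    ring

end mat

end partM1b

section partM1c

open Finset Matrix

section mat

variable {ι : Type} [Fintype ι] [DecidableEq ι]

/-- the squared norms appearing in the telescoping argument -/
noncomputable def Psi (s : ℝ) (e : ℕ → ι → ℂ) (i k : ℕ) : ℝ :=
  nsq ((RR 0 (e i) * PP s (k - 1 - i) (fun j => e (j + (i + 1)))) *ᵥ e k)

theorem trace_lower (q r : ℝ) (hq0 : 0 ≤ q) (hq1 : q ≤ 1) (hr : r ^ 2 ≤ 1) (N : ℕ)
    (e : ℕ → ι → ℂ) (he : ∀ k, star (e k) ⬝ᵥ e k = 1)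
    (hF : 1 - r ^ N ≤ (1 - PP r N e).trace.re) :
    1 - (q * r) ^ N + (1 - q) * (1 - (q * r) ^ 2) / 2 *
        ∑ k ∈ range N, ∑ i ∈ range k, q ^ i * Psi (q * r) e i k
      ≤ (1 - PP (q * r) N e).trace.re := by
  rw [trace_telescope q r N e N le_rfl, Nat.sub_self, PP_zero, mul_one]
  set s : ℝ := q * r with hs
  have h1 : ∀ i ∈ range N, q ^ i * (1 - q) * (1 + (1 - s ^ 2) / 2 * ∑ k ∈ Ico (i + 1) N,
        Psi s e i k)
      ≤ q ^ i * (1 - q) *
          (1 - PP r i e * (RR 0 (e i) * PP s (N - 1 - i) (fun k => e (k + (i + 1))))).trace.re := by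
    intro i hi
    have hi' : i < N := Finset.mem_range.mp hi
    apply mul_le_mul_of_nonneg_left _ (mul_nonneg (pow_nonneg hq0 _) (by linarith))
    have h2 := trace_bound s r hr (e i) (he i) (N - 1 - i) i (fun k => e (k + (i + 1))) e
      (fun k => he _) he
    refine le_trans (le_of_eq ?_) h2
    congr 2
    rw [Finset.sum_Ico_eq_sum_range, show N - (i + 1) = N - 1 - i by omega]
    apply Finset.sum_congr rfl
    intro k _
    rw [Psi, show i + 1 + k - 1 - i = k by omega, show i + 1 + k = k + (i + 1) by omega]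
  have h2 := Finset.sum_le_sum h1
  have h3 : ∑ i ∈ range N, q ^ i * (1 - q) * (1 + (1 - s ^ 2) / 2 * ∑ k ∈ Ico (i + 1) N,
        Psi s e i k)
      = (1 - q ^ N) + (1 - q) * (1 - s ^ 2) / 2 *
        ∑ k ∈ range N, ∑ i ∈ range k, q ^ i * Psi s e i k := by
    have e1 : ∑ k ∈ range N, ∑ i ∈ range k, q ^ i * Psi s e i k
        = ∑ i ∈ range N, ∑ k ∈ Ico (i + 1) N, q ^ i * Psi s e i k := by
      apply Finset.sum_comm'
      intro x y
      simp only [Finset.mem_range, Finset.mem_Ico]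
      omega
    have e2 : (1 - q ^ N) = ∑ i ∈ range N, q ^ i * (1 - q) := by
      rw [← Finset.sum_mul, mul_comm, mul_neg_geom_sum]
    rw [e1, e2, Finset.mul_sum, ← Finset.sum_add_distrib]
    apply Finset.sum_congr rfl
    intro i _
    rw [← Finset.mul_sum]
    ring
  rw [h3] at h2
  have h4 : q ^ N * (1 - r ^ N) ≤ q ^ N * (1 - PP r N e).trace.re :=
    mul_le_mul_of_nonneg_left hF (pow_nonneg hq0 _)
  have h5 : s ^ N = q ^ N * r ^ N := by rw [hs, mul_pow]
  rw [h5]
  linarith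

theorem nsq_sum_le (k : ℕ) (φ : ℕ → ι → ℂ) (s q ρ : ℝ) (hq : 0 ≤ q) (hρ : 0 ≤ ρ)
    (h : s ^ 2 = q * ρ) :
    nsq (∑ i ∈ range k, ((s ^ i : ℝ) : ℂ) • φ i)
      ≤ (∑ i ∈ range k, ρ ^ i) * ∑ i ∈ range k, q ^ i * nsq (φ i) := by
  have h1 : ∀ a : ι, Complex.normSq ((∑ i ∈ range k, ((s ^ i : ℝ) : ℂ) • φ i) a)
      ≤ (∑ i ∈ range k, ρ ^ i) * ∑ i ∈ range k, q ^ i * Complex.normSq (φ i a) := by
    intro a
    have e1 : ‖(∑ i ∈ range k, ((s ^ i : ℝ) : ℂ) • φ i) a‖ ≤ ∑ i ∈ range k, |s| ^ i * ‖φ i a‖ := by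
      rw [Finset.sum_apply]
      refine (norm_sum_le _ _).trans (le_of_eq ?_)
      apply Finset.sum_congr rfl
      intro i _
      rw [Pi.smul_apply, norm_smul, Complex.norm_real, Real.norm_eq_abs, abs_pow]
    have e2 : (∑ i ∈ range k, |s| ^ i * ‖φ i a‖) ^ 2
        ≤ (∑ i ∈ range k, ρ ^ i) * ∑ i ∈ range k, q ^ i * Complex.normSq (φ i a) := by
      apply Finset.sum_sq_le_sum_mul_sum_of_sq_le_mul
      · intro i _
        exact pow_nonneg hρ _
      · intro i _
        exact mul_nonneg (pow_nonneg hq _) (Complex.normSq_nonneg _)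
      · intro i _
        apply le_of_eq
        rw [Complex.normSq_eq_norm_sq, mul_pow, ← pow_mul, mul_comm i 2, pow_mul, sq_abs, h,
          mul_pow]
        ring
    rw [Complex.normSq_eq_norm_sq]
    exact (pow_le_pow_left₀ (norm_nonneg _) e1 2).trans e2
  calc nsq (∑ i ∈ range k, ((s ^ i : ℝ) : ℂ) • φ i)
      ≤ ∑ a, (∑ i ∈ range k, ρ ^ i) * ∑ i ∈ range k, q ^ i * Complex.normSq (φ i a) :=
        Finset.sum_le_sum fun a _ => h1 a
    _ = _ := by
        rw [← Finset.mul_sum, Finset.sum_comm]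
        congr 1
        apply Finset.sum_congr rfl
        intro i _
        rw [nsq, Finset.mul_sum]

theorem re_dot_le (u v : ι → ℂ) (a : ℝ) (ha : 0 < a) :
    (star u ⬝ᵥ v).re ≤ a / 2 * nsq u + nsq v / (2 * a) := by
  rw [dotProduct, Complex.re_sum, nsq, nsq, Finset.mul_sum, Finset.sum_div,
    ← Finset.sum_add_distrib]
  apply Finset.sum_le_sum
  intro i _
  rw [Pi.star_apply, Complex.star_def, Complex.mul_re, Complex.conj_re, Complex.conj_im,
    Complex.normSq_apply, Complex.normSq_apply]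
  have h1 : a / 2 * ((u i).re * (u i).re + (u i).im * (u i).im)
      + ((v i).re * (v i).re + (v i).im * (v i).im) / (2 * a)
      - ((u i).re * (v i).re - -(u i).im * (v i).im)
      = ((a * (u i).re - (v i).re) ^ 2 + (a * (u i).im - (v i).im) ^ 2) / (2 * a) := by
    field_simp
    ring
  have h2 : 0 ≤ ((a * (u i).re - (v i).re) ^ 2 + (a * (u i).im - (v i).im) ^ 2) / (2 * a) := by
    positivity
  linarith

theorem one_sub_PP (s : ℝ) (N : ℕ) (e : ℕ → ι → ℂ) :
    1 - PP s N e = (((1 - s : ℝ)) : ℂ) •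
      ∑ k ∈ range N, PP s k e * vecMulVec (e k) (star (e k)) := by
  induction N with
  | zero => simp [PP_zero]
  | succ N ih =>
    have h1 : 1 - PP s (N + 1) e = (1 - PP s N e)
        + (((1 - s : ℝ)) : ℂ) • (PP s N e * vecMulVec (e N) (star (e N))) := by
      have hR : RR s (e N) = 1 - (((1 - s : ℝ)) : ℂ) • vecMulVec (e N) (star (e N)) := rfl
      rw [PP_succ', hR, mul_sub, mul_one, Matrix.mul_smul]
      abel
    rw [h1, ih, Finset.sum_range_succ, smul_add]

theorem trace_one_sub_PP_mul (s : ℝ) (N : ℕ) (e : ℕ → ι → ℂ) (X : Matrix ι ι ℂ) :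
    ((1 - PP s N e) * X).trace = (((1 - s : ℝ)) : ℂ) *
      ∑ k ∈ range N, star (e k) ⬝ᵥ (X *ᵥ (PP s k e *ᵥ e k)) := by
  rw [one_sub_PP, Matrix.smul_mul, trace_smul, smul_eq_mul, Finset.sum_mul, trace_sum]
  congr 1
  apply Finset.sum_congr rfl
  intro k _
  rw [mul_vecMulVec, vecMulVec_mul, trace_vecMulVec, dotProduct_comm, ← dotProduct_mulVec]

theorem word_ineq_aux (q r ρ K : ℝ) (hq0 : 0 ≤ q) (hq1 : q ≤ 1) (hr : r ^ 2 ≤ 1) (hρ : 0 ≤ ρ)
    (hqρ : (q * r) ^ 2 = q * ρ) (hs : q * r < 1) (hs' : -1 < q * r)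
    (N : ℕ) (e : ℕ → ι → ℂ) (he : ∀ k, star (e k) ⬝ᵥ e k = 1)
    (hF : 1 - r ^ N ≤ (1 - PP r N e).trace.re)
    (hK : ∀ k : ℕ, 0 < K - (q * r) ^ k)
    (hcond : ∀ k : ℕ, (1 - q * r) ^ 2 * ∑ i ∈ range k, ρ ^ i
      ≤ (1 - q) * (1 + q * r) * (K - (q * r) ^ k))
    (X : Matrix ι ι ℂ) (hX : X * Xᴴ = 1) (ε : ℝ)
    (hε : ∀ k, (star (e k) ⬝ᵥ (X *ᵥ e k)).re = 1 - ε) :
    1 - (q * r) ^ N - N * ((1 - q * r) * K) * ε ≤ ((1 - PP (q * r) N e) * X).trace.re := by
  have hlow := trace_lower q r hq0 hq1 hr N e he hF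
  set s : ℝ := q * r with hsdef
  set φ : ℕ → ℕ → ι → ℂ := fun k i =>
    (RR 0 (e i) * PP s (k - 1 - i) (fun j => e (j + (i + 1)))) *ᵥ e k with hφ
  obtain ⟨h, hh⟩ : ∃ h : ℕ → ι → ℂ, h = fun k => (((1 - s : ℝ)) : ℂ) •
      ∑ i ∈ range k, ((s ^ i : ℝ) : ℂ) • φ k i := ⟨_, rfl⟩
  have hg : ∀ k, PP s k e *ᵥ e k = ((s ^ k : ℝ) : ℂ) • e k + h k := by
    intro k
    rw [PP_mulVec, hh]
  -- bound of `nsq (h k)`
  have hnh : ∀ k, nsq (h k) ≤ (1 - s) ^ 2 * ((∑ i ∈ range k, ρ ^ i) *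
      ∑ i ∈ range k, q ^ i * Psi s e i k) := by
    intro k
    have e1 : nsq (h k) = (1 - s) ^ 2 * nsq (∑ i ∈ range k, ((s ^ i : ℝ) : ℂ) • φ k i) := by
      rw [nsq, nsq, Finset.mul_sum]
      apply Finset.sum_congr rfl
      intro a _
      simp only [hh]
      rw [Pi.smul_apply, smul_eq_mul, Complex.normSq_mul, Complex.normSq_ofReal]
      ring
    rw [e1]
    apply mul_le_mul_of_nonneg_left _ (sq_nonneg _)
    exact nsq_sum_le k (φ k) s q ρ hq0 hρ hqρ
  -- first trace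
  have ht1 : (1 - PP s N e).trace.re = (1 - s) * ∑ k ∈ range N,
      (s ^ k + (star (e k) ⬝ᵥ h k).re) := by
    have e1 := trace_one_sub_PP_mul s N e 1
    rw [mul_one] at e1
    rw [e1, Complex.re_ofReal_mul, Complex.re_sum]
    congr 1
    apply Finset.sum_congr rfl
    intro k _
    rw [one_mulVec, hg, dotProduct_add, dotProduct_smul, he k, smul_eq_mul, mul_one,
      Complex.add_re, Complex.ofReal_re]
  have ht2 : (1 - s) * ∑ k ∈ range N, (s ^ k * (1 - ε) + (star (e k) ⬝ᵥ h k).re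
      - (K - s ^ k) * ε - nsq (h k) / (2 * (K - s ^ k)))
      ≤ ((1 - PP s N e) * X).trace.re := by
    rw [trace_one_sub_PP_mul, Complex.re_ofReal_mul, Complex.re_sum]
    apply mul_le_mul_of_nonneg_left _ (by linarith)
    apply Finset.sum_le_sum
    intro k _
    rw [hg, mulVec_add, dotProduct_add, mulVec_smul, dotProduct_smul, smul_eq_mul,
      Complex.add_re, Complex.re_ofReal_mul, hε k]
    have e2 : star (e k - Xᴴ *ᵥ e k) ⬝ᵥ h k
        = star (e k) ⬝ᵥ h k - star (e k) ⬝ᵥ (X *ᵥ h k) := by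
      rw [star_sub, sub_dotProduct, star_mulVec, conjTranspose_conjTranspose,
        dotProduct_mulVec (star (e k)) X (h k)]
    have e3 : nsq (e k - Xᴴ *ᵥ e k) = 2 * ε := by
      have e4 : (nsq (e k - Xᴴ *ᵥ e k) : ℂ) = 2 - star (e k) ⬝ᵥ (X *ᵥ e k)
          - star (star (e k) ⬝ᵥ (X *ᵥ e k)) := by
        have e5 : star (star (e k) ⬝ᵥ (X *ᵥ e k)) = star (e k) ⬝ᵥ (Xᴴ *ᵥ e k) := by
          rw [star_dotProduct, star_star, star_mulVec, dotProduct_comm, dotProduct_mulVec]
          exact dotProduct_comm _ _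
        have e6 : star (e k) ⬝ᵥ (X *ᵥ (Xᴴ *ᵥ e k)) = 1 := by
          rw [mulVec_mulVec, hX, one_mulVec, he k]
        rw [nsq_eq', star_sub, sub_dotProduct, dotProduct_sub, dotProduct_sub, he k, star_mulVec,
          conjTranspose_conjTranspose, ← dotProduct_mulVec, ← dotProduct_mulVec, e6, e5]
        ring
      have e7 := congrArg Complex.re e4
      rw [Complex.ofReal_re, Complex.sub_re, Complex.sub_re, Complex.star_def, Complex.conj_re,
        hε k] at e7
      rw [e7]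
      norm_num
      ring
    have e8 := re_dot_le (e k - Xᴴ *ᵥ e k) (h k) (K - s ^ k) (hK k)
    rw [e2, Complex.sub_re, e3] at e8
    linarith
  refine le_trans ?_ ht2
  have h5 : (1 - s) * ∑ k ∈ range N, (s ^ k * (1 - ε) + (star (e k) ⬝ᵥ h k).re
      - (K - s ^ k) * ε - nsq (h k) / (2 * (K - s ^ k)))
      = (1 - PP s N e).trace.re - N * ((1 - s) * K) * ε
        - ∑ k ∈ range N, (1 - s) * (nsq (h k) / (2 * (K - s ^ k))) := by
    have e9 : (N : ℝ) * ((1 - s) * K) * ε = ∑ k ∈ range N, (1 - s) * K * ε := by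
      rw [Finset.sum_const, Finset.card_range, nsmul_eq_mul]
      ring
    rw [ht1, e9, Finset.mul_sum, Finset.mul_sum, ← Finset.sum_sub_distrib,
      ← Finset.sum_sub_distrib]
    apply Finset.sum_congr rfl
    intro k _
    ring
  rw [h5]
  have h6 : ∑ k ∈ range N, (1 - s) * (nsq (h k) / (2 * (K - s ^ k)))
      ≤ (1 - q) * (1 - s ^ 2) / 2 * ∑ k ∈ range N, ∑ i ∈ range k, q ^ i * Psi s e i k := by
    rw [Finset.mul_sum]
    apply Finset.sum_le_sum
    intro k _
    have hT : 0 ≤ ∑ i ∈ range k, q ^ i * Psi s e i k :=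
      Finset.sum_nonneg fun i _ => mul_nonneg (pow_nonneg hq0 _) (nsq_nonneg _)
    set T : ℝ := ∑ i ∈ range k, q ^ i * Psi s e i k with hTdef
    set S : ℝ := ∑ i ∈ range k, ρ ^ i with hSdef
    have e1 := hnh k
    have e2 := hcond k
    have e3 := hK k
    rw [← mul_div_assoc, div_le_iff₀ (by positivity)]
    have e4 : (1 - s) * nsq (h k) ≤ (1 - s) * ((1 - s) ^ 2 * (S * T)) :=
      mul_le_mul_of_nonneg_left e1 (by linarith)
    have e5 : (1 - s) * T * ((1 - s) ^ 2 * S) ≤ (1 - s) * T * ((1 - q) * (1 + s) * (K - s ^ k)) :=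
      mul_le_mul_of_nonneg_left e2 (mul_nonneg (by linarith) hT)
    calc (1 - s) * nsq (h k) ≤ (1 - s) * ((1 - s) ^ 2 * (S * T)) := e4
      _ = (1 - s) * T * ((1 - s) ^ 2 * S) := by ring
      _ ≤ (1 - s) * T * ((1 - q) * (1 + s) * (K - s ^ k)) := e5
      _ = (1 - q) * (1 - s ^ 2) / 2 * T * (2 * (K - s ^ k)) := by ring
  linarith

end mat

end partM1c

section partM1d

open Finset Matrix

/-! ### A finite set of numbers in the unit disk with given product -/

theorem ms_norm_prod (S : Multiset ℂ) (hS : ∀ z ∈ S, ‖z‖ ≤ 1) : ‖S.prod‖ ≤ 1 := by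
  induction S using Multiset.induction_on with
  | empty => simp
  | cons z S ih =>
    have h1 : ‖z‖ ≤ 1 := hS z (Multiset.mem_cons_self z S)
    have h2 := ih (fun w hw => hS w (Multiset.mem_cons_of_mem hw))
    rw [Multiset.prod_cons, norm_mul]
    nlinarith [norm_nonneg z, norm_nonneg S.prod]

theorem ms_a (S : Multiset ℂ) (hS : ∀ z ∈ S, ‖z‖ ≤ 1) :
    1 - ‖S.prod‖ ≤ (S.map fun z => 1 - z.re).sum := by
  induction S using Multiset.induction_on with
  | empty => simp
  | cons z S ih =>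
    have h1 : ‖z‖ ≤ 1 := hS z (Multiset.mem_cons_self z S)
    have hS' : ∀ w ∈ S, ‖w‖ ≤ 1 := fun w hw => hS w (Multiset.mem_cons_of_mem hw)
    have h2 := ih hS'
    have h3 := ms_norm_prod S hS'
    have h4 := Complex.re_le_norm z
    rw [Multiset.prod_cons, norm_mul, Multiset.map_cons, Multiset.sum_cons]
    nlinarith [mul_nonneg (sub_nonneg.mpr h1) (sub_nonneg.mpr h3)]

theorem ms_c (S : Multiset ℂ) (hS : ∀ z ∈ S, ‖z‖ ≤ 1) :
    1 - ‖S.prod‖ ^ 2 ≤ (S.map fun z => 1 - ‖z‖ ^ 2).sum := by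
  induction S using Multiset.induction_on with
  | empty => simp
  | cons z S ih =>
    have h1 : ‖z‖ ≤ 1 := hS z (Multiset.mem_cons_self z S)
    have hS' : ∀ w ∈ S, ‖w‖ ≤ 1 := fun w hw => hS w (Multiset.mem_cons_of_mem hw)
    have h2 := ih hS'
    have h3 := ms_norm_prod S hS'
    rw [Multiset.prod_cons, norm_mul, Multiset.map_cons, Multiset.sum_cons, mul_pow]
    have h5 : ‖z‖ ^ 2 ≤ 1 := by nlinarith [norm_nonneg z]
    have h6 : ‖S.prod‖ ^ 2 ≤ 1 := by nlinarith [norm_nonneg S.prod]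
    nlinarith [mul_nonneg (sub_nonneg.mpr h5) (sub_nonneg.mpr h6)]

theorem ms_b (S : Multiset ℂ) (hS : ∀ z ∈ S, ‖z‖ ≤ 1) :
    ‖1 - S.prod‖ ^ 2 ≤ (S.card : ℝ) * (S.map fun z => ‖1 - z‖ ^ 2).sum := by
  induction S using Multiset.induction_on with
  | empty => simp
  | cons z S ih =>
    have h1 : ‖z‖ ≤ 1 := hS z (Multiset.mem_cons_self z S)
    have hS' : ∀ w ∈ S, ‖w‖ ≤ 1 := fun w hw => hS w (Multiset.mem_cons_of_mem hw)
    have h2 := ih hS'
    rw [Multiset.prod_cons, Multiset.map_cons, Multiset.sum_cons, Multiset.card_cons]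
    set Q : ℝ := (S.map fun z => ‖1 - z‖ ^ 2).sum with hQ
    set b : ℝ := ‖1 - S.prod‖ with hb
    set a : ℝ := ‖1 - z‖ with ha
    have h3 : ‖1 - z * S.prod‖ ≤ a + b := by
      have e1 : 1 - z * S.prod = (1 - z) + z * (1 - S.prod) := by ring
      rw [e1]
      refine (norm_add_le _ _).trans ?_
      rw [norm_mul]
      have : ‖z‖ * ‖1 - S.prod‖ ≤ 1 * ‖1 - S.prod‖ :=
        mul_le_mul_of_nonneg_right h1 (norm_nonneg _)
      rw [← ha, ← hb] at *
      linarith
    have ha0 : 0 ≤ a := norm_nonneg _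
    have hb0 : 0 ≤ b := norm_nonneg _
    have h4 : ‖1 - z * S.prod‖ ^ 2 ≤ (a + b) ^ 2 := pow_le_pow_left₀ (norm_nonneg _) h3 2
    refine h4.trans ?_
    push_cast
    rcases Nat.eq_zero_or_pos S.card with h0 | h0
    · rw [h0]
      have hS0 : S = 0 := Multiset.card_eq_zero.mp h0
      have hb1 : b = 0 := by
        rw [hb, hS0]
        simp
      have hQ1 : Q = 0 := by
        rw [hQ, hS0]
        simp
      rw [hb1, hQ1]
      simp
    · have hm : (1:ℝ) ≤ S.card := by exact_mod_cast h0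
      set m : ℝ := (S.card : ℝ) with hmdef
      have h5 : b ^ 2 / m ≤ Q := by
        rw [div_le_iff₀ (by linarith)]
        linarith
      have h6 : (a + b) ^ 2 ≤ (m + 1) * (a ^ 2 + b ^ 2 / m) := by
        have e2 : (m + 1) * (a ^ 2 + b ^ 2 / m) - (a + b) ^ 2 = (m * a - b) ^ 2 / m := by
          field_simp
          ring
        have e3 : 0 ≤ (m * a - b) ^ 2 / m := by positivity
        linarith
      refine h6.trans ?_
      apply mul_le_mul_of_nonneg_left _ (by linarith)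
      linarith

theorem ms_d (S : Multiset ℂ) (hS : ∀ z ∈ S, ‖z‖ ≤ 1) :
    ‖1 - S.prod‖ ^ 2 + (S.card : ℝ) * (1 - ‖S.prod‖ ^ 2)
      ≤ (S.card : ℝ) * (2 * (S.map fun z => 1 - z.re).sum) := by
  have h1 := ms_b S hS
  have h2 := ms_c S hS
  have h3 : 2 * (S.map fun z => 1 - z.re).sum
      = (S.map fun z => ‖1 - z‖ ^ 2).sum + (S.map fun z => 1 - ‖z‖ ^ 2).sum := by
    rw [← Multiset.sum_map_add, ← Multiset.sum_map_mul_left]
    congr 1
    apply Multiset.map_congr rfl
    intro z _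
    rw [← Complex.normSq_eq_norm_sq, ← Complex.normSq_eq_norm_sq, Complex.normSq_apply,
      Complex.normSq_apply, Complex.sub_re, Complex.sub_im, Complex.one_re, Complex.one_im]
    ring
  rw [h3]
  have h4 : (0:ℝ) ≤ S.card := Nat.cast_nonneg _
  nlinarith [mul_le_mul_of_nonneg_left h2 h4]

theorem ms_lower (S : Multiset ℂ) (c : ℝ) (hc : 0 < c) (hS : ∀ z ∈ S, c < ‖z‖) :
    c ^ S.card ≤ ‖S.prod‖ := by
  induction S using Multiset.induction_on with
  | empty => simp
  | cons z S ih =>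
    have h1 : c < ‖z‖ := hS z (Multiset.mem_cons_self z S)
    have h2 := ih (fun w hw => hS w (Multiset.mem_cons_of_mem hw))
    rw [Multiset.prod_cons, norm_mul, Multiset.card_cons, pow_succ, mul_comm]
    exact mul_le_mul h1.le h2 (pow_nonneg hc.le _) (norm_nonneg _)

theorem pow_small (m : ℕ) (hm : 4 ≤ m) : (m:ℝ) * (3 / 5) ^ (m + 1) ≤ 4 * (3 / 5) ^ 5 := by
  induction m, hm using Nat.le_induction with
  | base => norm_num
  | succ m hm ih =>
    have h1 : (4:ℝ) ≤ m := by exact_mod_cast hm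
    have h2 : (0:ℝ) < (3 / 5) ^ (m + 1) := by positivity
    push_cast
    rw [pow_succ (3 / 5 : ℝ) (m + 1)]
    nlinarith

theorem ms_main (S : Multiset ℂ) (hS : ∀ z ∈ S, ‖z‖ ≤ 1)
    (hprod : S.prod = (((-(3 / 5)) ^ S.card : ℝ) : ℂ)) :
    1 - (-(3 / 5) : ℝ) ^ S.card ≤ (S.map fun z => 1 - z.re).sum := by
  have hnorm : ‖S.prod‖ = (3 / 5 : ℝ) ^ S.card := by
    rw [hprod, Complex.norm_real, norm_pow, norm_neg]
    norm_num
  rcases Nat.even_or_odd S.card with hev | hodd
  · have h1 := ms_a S hS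
    rw [hnorm] at h1
    rw [hev.neg_pow]
    exact h1
  rw [hodd.neg_pow]
  rw [hodd.neg_pow] at hprod
  -- an element of small modulus
  have hex : ∃ z ∈ S, ‖z‖ ≤ 3 / 5 := by
    by_contra hcon
    push Not at hcon
    have hne : S ≠ 0 := by
      intro h0
      rw [h0] at hodd
      simp at hodd
    obtain ⟨z, hz⟩ := Multiset.exists_mem_of_ne_zero hne
    obtain ⟨S', rfl⟩ := Multiset.exists_cons_of_mem hz
    have h1 : 3 / 5 < ‖z‖ := hcon z hz
    have h2 := ms_lower S' (3 / 5) (by norm_num)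
      (fun w hw => hcon w (Multiset.mem_cons_of_mem hw))
    rw [Multiset.prod_cons, norm_mul, Multiset.card_cons, pow_succ] at hnorm
    have h3 : (0:ℝ) < (3 / 5) ^ S'.card := by positivity
    nlinarith
  obtain ⟨z, hz, hz35⟩ := hex
  obtain ⟨S', rfl⟩ := Multiset.exists_cons_of_mem hz
  rw [Multiset.card_cons] at hodd hprod hnorm ⊢
  rw [Multiset.map_cons, Multiset.sum_cons]
  rw [Multiset.prod_cons] at hprod hnorm
  have hS' : ∀ w ∈ S', ‖w‖ ≤ 1 := fun w hw => hS w (Multiset.mem_cons_of_mem hw)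
  have ha := ms_a S' hS'
  have hd := ms_d S' hS'
  have hr1 := ms_norm_prod S' hS'
  set P : ℝ := (S'.map fun z => 1 - z.re).sum with hP
  set y : ℂ := S'.prod with hy
  set m : ℕ := S'.card with hm
  set δ : ℝ := (3 / 5) ^ (m + 1) with hδ
  have hδ0 : 0 < δ := by positivity
  rw [norm_mul] at hnorm
  set r : ℝ := ‖y‖ with hr
  have hr0 : 0 < r := by
    rcases lt_or_eq_of_le (norm_nonneg y) with h | h
    · exact h
    · exfalso
      rw [← hr] at h
      rw [← h, mul_zero] at hnorm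
      linarith
  have hδr : δ ≤ 3 / 5 * r := by
    rw [← hnorm]
    exact mul_le_mul_of_nonneg_right hz35 hr0.le
  -- `z.re`
  have hzre : z.re * r ^ 2 = -(δ * y.re) := by
    have e1 : z * y * (starRingEnd ℂ y) = ((-δ : ℝ) : ℂ) * starRingEnd ℂ y := by
      rw [hprod]
    rw [mul_assoc, Complex.mul_conj, Complex.normSq_eq_norm_sq, ← hr] at e1
    have e2 := congrArg Complex.re e1
    rw [Complex.re_ofReal_mul, Complex.conj_re, Complex.re_mul_ofReal] at e2
    rw [e2]
    ring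
  have hD : ‖1 - y‖ ^ 2 = 1 - 2 * y.re + r ^ 2 := by
    rw [hr, ← Complex.normSq_eq_norm_sq, ← Complex.normSq_eq_norm_sq, Complex.normSq_apply,
      Complex.normSq_apply, Complex.sub_re, Complex.sub_im, Complex.one_re, Complex.one_im]
    ring
  have hx1 : -r ≤ y.re := by
    have := Complex.abs_re_le_norm y
    exact (abs_le.mp this).1
  have hD0 : 0 ≤ 1 - 2 * y.re + r ^ 2 := by
    rw [← hD]
    positivity
  rw [hD] at hd
  set x : ℝ := y.re with hx
  -- it suffices
  suffices hgoal : δ * (r ^ 2 - x) ≤ P * r ^ 2 by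
    have h1 : 0 ≤ (P - δ - z.re) * r ^ 2 := by
      have : (P - δ - z.re) * r ^ 2 = P * r ^ 2 - δ * (r ^ 2 - x) := by
        linear_combination -hzre
      rw [this]
      linarith
    have h2 : 0 ≤ P - δ - z.re := by
      by_contra hneg
      push Not at hneg
      have : (P - δ - z.re) * r ^ 2 < 0 := mul_neg_of_neg_of_pos hneg (by positivity)
      linarith
    linarith
  have hr2 : 0 < r ^ 2 := by positivity
  have hr2' : r ^ 2 ≤ 1 := by nlinarith
  rcases Nat.eq_zero_or_pos m with hm0 | hm0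
  · have hS0 : S' = 0 := Multiset.card_eq_zero.mp (by rw [← hm, hm0])
    have hy1 : y = 1 := by
      rw [hy, hS0]
      simp
    have hP0 : P = 0 := by
      rw [hP, hS0]
      simp
    have hx2 : x = 1 := by
      rw [hx, hy1]
      simp
    have hr3 : r = 1 := by
      rw [hr, hy1]
      simp
    rw [hP0, hx2, hr3]
    norm_num
  have hmR : (1:ℝ) ≤ (m:ℝ) := by exact_mod_cast hm0
  by_cases hcase : (m:ℝ) * δ ≤ r ^ 2
  · -- large `r`
    have h1 : (m:ℝ) * δ * (1 - 2 * x + r ^ 2) ≤ r ^ 2 * (1 - 2 * x + r ^ 2) :=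
      mul_le_mul_of_nonneg_right hcase hD0
    have h2 : r ^ 2 * (1 - 2 * x + r ^ 2 + (m:ℝ) * (1 - r ^ 2)) ≤ r ^ 2 * ((m:ℝ) * (2 * P)) :=
      mul_le_mul_of_nonneg_left hd hr2.le
    have h3 : 0 ≤ r ^ 2 * ((m:ℝ) * (1 - r ^ 2)) :=
      mul_nonneg hr2.le (mul_nonneg (by linarith) (by linarith))
    have h4 : (m:ℝ) * (δ * (1 - 2 * x + r ^ 2)) ≤ (m:ℝ) * (2 * (P * r ^ 2)) := by nlinarith
    have h5 : δ * (1 - 2 * x + r ^ 2) ≤ 2 * (P * r ^ 2) :=
      le_of_mul_le_mul_left h4 (by linarith)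
    have h6 : 0 ≤ δ * (1 - r ^ 2) := mul_nonneg hδ0.le (by linarith)
    nlinarith
  · push Not at hcase
    have hmne : m ≠ 1 := by
      intro h1
      rw [h1] at hodd
      exact absurd hodd (by decide)
    have hmne3 : m ≠ 3 := by
      intro h1
      rw [h1] at hodd
      exact absurd hodd (by decide)
    rcases Nat.lt_or_ge m 4 with hm4 | hm4
    · -- `m = 2`
      have hm2 : m = 2 := by omega
      rw [hm2] at hcase hd
      have hδv : δ = 27 / 125 := by
        rw [hδ, hm2]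
        norm_num
      rw [hδv] at hcase hδr ⊢
      push_cast at hcase hd
      have h1 : 9 / 25 ≤ r := by linarith
      have h2 : r ≤ 2 / 3 := by nlinarith
      have h3 : 1 - 2 * x + r ^ 2 ≤ (1 + r) ^ 2 := by nlinarith
      -- (1 - r^2)(r^2 + δ) ≥ D (δ - r^2/2)
      have h4 : 0 ≤ 27 / 125 - r ^ 2 / 2 := by linarith
      have h5 : (1 - 2 * x + r ^ 2) * (27 / 125 - r ^ 2 / 2)
          ≤ (1 + r) ^ 2 * (27 / 125 - r ^ 2 / 2) := mul_le_mul_of_nonneg_right h3 h4
      have h6 : (1 + r) * (27 / 125 - r ^ 2 / 2) ≤ (1 - r) * (r ^ 2 + 27 / 125) := by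
        have : (1 - r) * (r ^ 2 + 27 / 125) - (1 + r) * (27 / 125 - r ^ 2 / 2)
            = r * (r * (3 / 2 - r / 2) - 54 / 125) := by ring
        have h7 : 0 ≤ r * (3 / 2 - r / 2) - 54 / 125 := by nlinarith
        have h8 : 0 ≤ r * (r * (3 / 2 - r / 2) - 54 / 125) := mul_nonneg hr0.le h7
        linarith
      have h9 : (1 + r) ^ 2 * (27 / 125 - r ^ 2 / 2) ≤ (1 - r ^ 2) * (r ^ 2 + 27 / 125) := by
        have := mul_le_mul_of_nonneg_left h6 (show (0:ℝ) ≤ 1 + r by linarith)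
        nlinarith
      have h10 : r ^ 2 * (1 - 2 * x + r ^ 2 + 2 * (1 - r ^ 2)) ≤ r ^ 2 * (2 * (2 * P)) :=
        mul_le_mul_of_nonneg_left hd hr2.le
      nlinarith
    · -- `m ≥ 4`
      have hsm := pow_small m hm4
      have hδs : δ ≤ (3 / 5) ^ 5 := by
        rw [hδ]
        exact pow_le_pow_of_le_one (by norm_num) (by norm_num) (by omega)
      rw [← hδ] at hsm
      norm_num at hδs hsm
      have hrr : r ^ 2 < 972 / 3125 := by linarith
      have hr56 : r ≤ 14 / 25 := by nlinarith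
      have h1 : δ * (1 + r) ≤ r * (1 - r) := by
        rcases le_or_gt r (1 / 4) with h | h
        · nlinarith
        · nlinarith [mul_nonneg (sub_nonneg.mpr h.le) (sub_nonneg.mpr hr56)]
      have h2 : δ * (r ^ 2 - x) ≤ δ * (r ^ 2 + r) := by
        apply mul_le_mul_of_nonneg_left _ hδ0.le
        linarith
      have h3 : (1 - r) * r ^ 2 ≤ P * r ^ 2 := mul_le_mul_of_nonneg_right ha hr2.le
      nlinarith [mul_le_mul_of_nonneg_left h1 hr0.le]

end partM1d

section partM1e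

open Finset Matrix

section mat

variable {ι : Type} [Fintype ι] [DecidableEq ι]

theorem nsq_RR_mulVec_le (s : ℝ) (hs : s ^ 2 ≤ 1) (v : ι → ℂ) (hv : star v ⬝ᵥ v = 1)
    (w : ι → ℂ) : nsq (RR s v *ᵥ w) ≤ nsq w := by
  have h : (nsq (RR s v *ᵥ w) : ℂ)
      = nsq w - (1 - s ^ 2) * (Complex.normSq (star v ⬝ᵥ w) : ℝ) := by
    have e1 : star (star v ⬝ᵥ w) = star w ⬝ᵥ v := by
      rw [star_dotProduct, star_star, dotProduct_comm]
    rw [nsq_eq', nsq_eq', star_mulVec, RR_herm, ← dotProduct_mulVec, mulVec_mulVec,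
      RR_mul s s v hv, RR, sub_mulVec, one_mulVec, dotProduct_sub, smul_mulVec,
      vecMulVec_mulVec, dotProduct_smul, ← Complex.mul_conj, ← Complex.star_def, e1]
    simp only [op_smul_eq_smul, dotProduct_smul, smul_eq_mul]
    push_cast
    ring
  have h2 : nsq (RR s v *ᵥ w) = nsq w - (1 - s ^ 2) * Complex.normSq (star v ⬝ᵥ w) := by
    exact_mod_cast h
  rw [h2]
  have := Complex.normSq_nonneg (star v ⬝ᵥ w)
  nlinarith

theorem nsq_PP_mulVec_le (s : ℝ) (hs : s ^ 2 ≤ 1) (N : ℕ) (e : ℕ → ι → ℂ)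
    (he : ∀ k, star (e k) ⬝ᵥ e k = 1) (w : ι → ℂ) : nsq (PP s N e *ᵥ w) ≤ nsq w := by
  induction N generalizing e with
  | zero => rw [PP_zero, one_mulVec]
  | succ N ih =>
    rw [PP_succ, ← mulVec_mulVec]
    exact (nsq_RR_mulVec_le s hs (e 0) (he 0) _).trans (ih _ (fun k => he _))

theorem det_RR (s : ℝ) (v : ι → ℂ) (hv : star v ⬝ᵥ v = 1) : (RR s v).det = s := by
  have h1 : RR s v = 1 + replicateCol Unit (-(((1 - s : ℝ)) : ℂ) • v)
      * replicateRow Unit (star v) := by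
    rw [← vecMulVec_eq Unit, RR, smul_vecMulVec]
    module
  rw [h1, det_one_add_replicateCol_mul_replicateRow, dotProduct_smul, hv]
  simp

theorem det_PP (s : ℝ) (N : ℕ) (e : ℕ → ι → ℂ) (he : ∀ k, star (e k) ⬝ᵥ e k = 1) :
    (PP s N e).det = ((s ^ N : ℝ) : ℂ) := by
  induction N generalizing e with
  | zero => simp [PP_zero]
  | succ N ih =>
    rw [PP_succ, det_mul, ih _ (fun k => he _), det_RR s (e 0) (he 0)]
    push_cast
    ring

theorem ref_bound (N : ℕ) (e : ℕ → ι → ℂ) (he : ∀ k, star (e k) ⬝ᵥ e k = 1) :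
    1 - (-(3 / 5) : ℝ) ^ N ≤ (1 - PP (-(3 / 5)) N e).trace.re := by
  set s : ℝ := -(3 / 5) with hs
  set E : Matrix ι (Fin N) ℂ := Matrix.of fun i k => e k i with hE
  set G : Matrix ι (Fin N) ℂ := Matrix.of fun i k =>
    (((1 - s : ℝ)) : ℂ) * (PP s k e *ᵥ e k) i with hG
  have hGE : G * Eᴴ = 1 - PP s N e := by
    rw [one_sub_PP, Finset.sum_range fun k => PP s k e * vecMulVec (e k) (star (e k))]
    ext i j
    rw [Matrix.mul_apply, Matrix.smul_apply, Matrix.sum_apply, smul_eq_mul, Finset.mul_sum]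
    apply Finset.sum_congr rfl
    intro k _
    rw [mul_vecMulVec, vecMulVec_apply, conjTranspose_apply, hE, hG]
    simp only [Matrix.of_apply, Pi.star_apply]
    ring
  set M : Matrix (Fin N) (Fin N) ℂ := 1 - Eᴴ * G with hM
  have htr : M.trace = (N : ℂ) - (1 - PP s N e).trace := by
    rw [hM, trace_sub, trace_one, trace_mul_comm, hGE, Fintype.card_fin]
  have hdet : M.det = ((s ^ N : ℝ) : ℂ) := by
    rw [hM, det_one_sub_mul_comm, hGE, sub_sub_cancel, det_PP s N e he]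
  set S : Multiset ℂ := M.charpoly.roots with hS
  have hcard : S.card = N := by
    have h1 : M.charpoly.roots.card = M.charpoly.natDegree :=
      (Polynomial.splits_iff_card_roots).mp (IsAlgClosed.splits M.charpoly)
    rw [hS, h1, charpoly_natDegree_eq_dim, Fintype.card_fin]
  have hsum : S.sum = (N : ℂ) - (1 - PP s N e).trace := by
    rw [← htr, trace_eq_sum_roots_charpoly]
  have hprod : S.prod = (((-(3 / 5)) ^ S.card : ℝ) : ℂ) := by
    rw [hcard, ← hs, ← hdet, det_eq_prod_roots_charpoly]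
  have hle : ∀ z ∈ S, ‖z‖ ≤ 1 := by
    intro z hz
    have h1 : M.charpoly.eval z = 0 := by
      have := (Polynomial.mem_roots'.mp hz).2
      exact this
    rw [eval_charpoly] at h1
    obtain ⟨v, hv0, hv⟩ := exists_mulVec_eq_zero_iff.mpr h1
    have h2 : M *ᵥ v = z • v := by
      rw [sub_mulVec, sub_eq_zero] at hv
      rw [← hv, Matrix.scalar_apply, ← smul_one_eq_diagonal, smul_mulVec, one_mulVec]
    have h3 : Eᴴ *ᵥ (G *ᵥ v) = (1 - z) • v := by
      rw [hM, sub_mulVec, one_mulVec, ← mulVec_mulVec] at h2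
      rw [sub_smul, one_smul, ← h2]
      abel
    set w : ι → ℂ := G *ᵥ v with hw
    have h4 : PP s N e *ᵥ w = z • w := by
      have e1 : PP s N e = 1 - G * Eᴴ := by
        rw [hGE, sub_sub_cancel]
      rw [e1, sub_mulVec, one_mulVec, ← mulVec_mulVec, h3, mulVec_smul, ← hw, sub_smul, one_smul]
      abel
    by_cases hw0 : w = 0
    · rw [hw0, mulVec_zero] at h3
      have h5 : 1 - z = 0 := by
        rcases smul_eq_zero.mp h3.symm with h | h
        · exact h
        · exact absurd h hv0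
      have h6 : z = 1 := (sub_eq_zero.mp h5).symm
      rw [h6, norm_one]
    · have h5 := nsq_PP_mulVec_le s (by rw [hs]; norm_num) N e he w
      rw [h4] at h5
      have h6 : nsq (z • w) = ‖z‖ ^ 2 * nsq w := by
        rw [nsq, nsq, Finset.mul_sum]
        apply Finset.sum_congr rfl
        intro i _
        rw [Pi.smul_apply, smul_eq_mul, Complex.normSq_mul, Complex.normSq_eq_norm_sq z]
      rw [h6] at h5
      have h7 : 0 < nsq w := by
        obtain ⟨i, hi⟩ := Function.ne_iff.mp hw0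
        apply lt_of_lt_of_le (Complex.normSq_pos.mpr hi)
        exact Finset.single_le_sum (f := fun i => Complex.normSq (w i))
          (fun _ _ => Complex.normSq_nonneg _) (Finset.mem_univ i)
      by_contra h8
      push Not at h8
      have h9 : 1 < ‖z‖ ^ 2 := by nlinarith
      nlinarith
  have hmain := ms_main S hle hprod
  rw [hcard] at hmain
  have hre : (S.map fun z => 1 - z.re).sum = (1 - PP s N e).trace.re := by
    have e1 : (S.map fun z => 1 - z.re).sum = (S.card : ℝ) - S.sum.re := by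
      clear_value S
      clear hmain hprod hsum hcard hle hS
      induction S using Multiset.induction_on with
      | empty => simp
      | cons z S ih =>
        rw [Multiset.map_cons, Multiset.sum_cons, ih, Multiset.card_cons, Multiset.sum_cons,
          Complex.add_re]
        push_cast
        ring
    rw [e1, hcard, hsum, Complex.sub_re, Complex.natCast_re]
    ring
  rw [hre] at hmain
  exact hmain

/-- the word inequality -/
theorem word_ineq (s : ℝ) (hs : s < 1) (hs' : -(1 / 2) < s)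
    (N : ℕ) (e : ℕ → ι → ℂ) (he : ∀ k, star (e k) ⬝ᵥ e k = 1)
    (X : Matrix ι ι ℂ) (hX : X * Xᴴ = 1) (ε : ℝ)
    (hε : ∀ k, (star (e k) ⬝ᵥ (X *ᵥ e k)).re = 1 - ε) :
    1 - s ^ N - N * ((1 - s) * (3 / (1 + 2 * s))) * ε ≤ ((1 - PP s N e) * X).trace.re := by
  have hpos : 0 < 1 + 2 * s := by linarith
  have hK1 : 1 < 3 / (1 + 2 * s) := by
    rw [lt_div_iff₀ hpos]
    linarith
  have hK : ∀ k : ℕ, 0 < 3 / (1 + 2 * s) - s ^ k := by
    intro k
    have : s ^ k ≤ 1 := by
      calc s ^ k ≤ |s ^ k| := le_abs_self _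
        _ = |s| ^ k := abs_pow _ _
        _ ≤ 1 := pow_le_one₀ (abs_nonneg _) (abs_le.mpr ⟨by linarith, hs.le⟩)
    linarith
  rcases le_or_gt 0 s with h0 | h0
  · -- `s ≥ 0`
    have := word_ineq_aux s 1 s (3 / (1 + 2 * s)) h0 hs.le (by norm_num) h0 (by ring)
      (by linarith) (by linarith) N e he (by rw [PP_one]; simp)
      (by simpa using hK) ?_ X hX ε hε
    · simpa using this
    · intro k
      rw [mul_one]
      have h1 : (1 - s) * ∑ i ∈ range k, s ^ i = 1 - s ^ k := mul_neg_geom_sum s k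
      have h2 : s ^ k ≤ 1 := pow_le_one₀ h0 hs.le
      calc (1 - s) ^ 2 * ∑ i ∈ range k, s ^ i = (1 - s) * ((1 - s) * ∑ i ∈ range k, s ^ i) := by
            ring
        _ = (1 - s) * (1 - s ^ k) := by rw [h1]
        _ ≤ (1 - s) * ((1 + s) * (3 / (1 + 2 * s) - s ^ k)) := by
            apply mul_le_mul_of_nonneg_left _ (by linarith)
            have h3 : 1 - s ^ k ≤ 3 / (1 + 2 * s) - s ^ k := by linarith
            have h4 : 0 ≤ s * (3 / (1 + 2 * s) - s ^ k) := mul_nonneg h0 (hK k).le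
            linarith
        _ = (1 - s) * (1 + s) * (3 / (1 + 2 * s) - s ^ k) := by ring
  · -- `s < 0`
    obtain ⟨t, rfl⟩ : ∃ t : ℝ, s = -t := ⟨-s, by ring⟩
    have ht0 : 0 < t := by linarith
    have ht1 : t < 1 / 2 := by linarith
    have hst : 5 * t / 3 * (-(3 / 5)) = -t := by ring
    have := word_ineq_aux (5 * t / 3) (-(3 / 5)) (3 * t / 5) (3 / (1 + 2 * -t))
      (by positivity) (by linarith) (by norm_num) (by positivity) (by ring)
      (by linarith) (by linarith) N e he (ref_bound N e he)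
      (by simpa only [hst] using hK) ?_ X hX ε hε
    · simpa only [hst] using this
    · intro k
      rw [hst]
      rcases Nat.eq_zero_or_pos k with hk | hk
      · subst hk
        have := hK 0
        rw [Finset.sum_range_zero, mul_zero]
        apply mul_nonneg _ this.le
        exact mul_nonneg (by linarith) (by linarith)
      have hS : ∑ i ∈ range k, (3 * t / 5) ^ i ≤ 1 / (1 - 3 * t / 5) := by
        have h1 : (1 - 3 * t / 5) * ∑ i ∈ range k, (3 * t / 5) ^ i = 1 - (3 * t / 5) ^ k :=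
          mul_neg_geom_sum (3 * t / 5) k
        rw [le_div_iff₀ (by linarith), mul_comm, h1]
        have : 0 ≤ (3 * t / 5) ^ k := by positivity
        linarith
      have hpow : (-t) ^ k ≤ t ^ 2 := by
        rcases Nat.even_or_odd k with hev | hodd
        · rw [hev.neg_pow]
          obtain ⟨j, hj⟩ := hev
          exact pow_le_pow_of_le_one ht0.le (by linarith) (by omega)
        · rw [hodd.neg_pow]
          have : 0 ≤ t ^ k := by positivity
          nlinarith [sq_nonneg t]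
      have hden : 0 < 1 - 3 * t / 5 := by linarith
      have hkey : (1 + t) ^ 2 * (1 - 2 * t)
          ≤ (3 - t ^ 2 * (1 - 2 * t)) * (1 - 3 * t / 5) * (1 - t) * (1 - 5 * t / 3) := by
        have e0 : (3 - t ^ 2 * (1 - 2 * t)) * (1 - 3 * t / 5) * (1 - t) * (1 - 5 * t / 3)
            - (1 + t) ^ 2 * (1 - 2 * t)
            = 2 - 49 / 5 * t + 59 / 5 * t ^ 2 + 64 / 15 * t ^ 3 - 49 / 5 * t ^ 4
              + 113 / 15 * t ^ 5 - 2 * t ^ 6 := by ring
        rcases le_or_gt t (1 / 4) with h | h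
        · obtain ⟨y, hy⟩ : ∃ y : ℝ, y = 1 / 4 - t := ⟨_, rfl⟩
          have hy0 : 0 ≤ y := by linarith
          have e1 : 2 - 49 / 5 * t + 59 / 5 * t ^ 2 + 64 / 15 * t ^ 3 - 49 / 5 * t ^ 4
              + 113 / 15 * t ^ 5 - 2 * t ^ 6
              = (8192 / 1) * (t) ^ 0 * (y) ^ 6 +
                (195584 / 5) * (t) ^ 1 * (y) ^ 5 +
                (378624 / 5) * (t) ^ 2 * (y) ^ 4 +
                (1137664 / 15) * (t) ^ 3 * (y) ^ 3 +
                (206576 / 5) * (t) ^ 4 * (y) ^ 2 +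
                (173924 / 15) * (t) ^ 5 * (y) ^ 1 +
                (1322 / 1) * (t) ^ 6 * (y) ^ 0 := by
            rw [hy]
            ring
          have e2 : 0 ≤ (8192 / 1) * (t) ^ 0 * (y) ^ 6 +
                (195584 / 5) * (t) ^ 1 * (y) ^ 5 +
                (378624 / 5) * (t) ^ 2 * (y) ^ 4 +
                (1137664 / 15) * (t) ^ 3 * (y) ^ 3 +
                (206576 / 5) * (t) ^ 4 * (y) ^ 2 +
                (173924 / 15) * (t) ^ 5 * (y) ^ 1 +
                (1322 / 1) * (t) ^ 6 * (y) ^ 0 := by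
            positivity
          linarith
        · obtain ⟨x, hx⟩ : ∃ x : ℝ, x = t - 1 / 4 := ⟨_, rfl⟩
          obtain ⟨y, hy⟩ : ∃ y : ℝ, y = 1 / 2 - t := ⟨_, rfl⟩
          have hx0 : 0 ≤ x := by linarith
          have hy0 : 0 ≤ y := by linarith
          have e1 : 2 - 49 / 5 * t + 59 / 5 * t ^ 2 + 64 / 15 * t ^ 3 - 49 / 5 * t ^ 4
              + 113 / 15 * t ^ 5 - 2 * t ^ 6
              = (1322 / 1) * (x) ^ 0 * (y) ^ 6 +
                (64036 / 15) * (x) ^ 1 * (y) ^ 5 +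
                (70288 / 15) * (x) ^ 2 * (y) ^ 4 +
                (2400 / 1) * (x) ^ 3 * (y) ^ 3 +
                (5728 / 3) * (x) ^ 4 * (y) ^ 2 +
                (29504 / 15) * (x) ^ 5 * (y) ^ 1 +
                (3584 / 5) * (x) ^ 6 * (y) ^ 0 := by
            rw [hx, hy]
            ring
          have e2 : 0 ≤ (1322 / 1) * (x) ^ 0 * (y) ^ 6 +
                (64036 / 15) * (x) ^ 1 * (y) ^ 5 +
                (70288 / 15) * (x) ^ 2 * (y) ^ 4 +
                (2400 / 1) * (x) ^ 3 * (y) ^ 3 +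
                (5728 / 3) * (x) ^ 4 * (y) ^ 2 +
                (29504 / 15) * (x) ^ 5 * (y) ^ 1 +
                (3584 / 5) * (x) ^ 6 * (y) ^ 0 := by
            positivity
          linarith
      have hlast : (1 + t) ^ 2 * (1 / (1 - 3 * t / 5))
          ≤ (1 - 5 * t / 3) * (1 - t) * (3 / (1 + 2 * -t) - t ^ 2) := by
        have e1 : 0 < 1 - 2 * t := by linarith
        have e2 : 3 / (1 + 2 * -t) - t ^ 2 = (3 - t ^ 2 * (1 - 2 * t)) / (1 - 2 * t) := by
          rw [show 1 + 2 * -t = 1 - 2 * t by ring]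
          field_simp
        rw [e2, mul_one_div, ← mul_div_assoc, div_le_div_iff₀ hden e1]
        linarith
      calc (1 - -t) ^ 2 * ∑ i ∈ range k, (3 * t / 5) ^ i
          ≤ (1 - -t) ^ 2 * (1 / (1 - 3 * t / 5)) :=
            mul_le_mul_of_nonneg_left hS (sq_nonneg _)
        _ = (1 + t) ^ 2 * (1 / (1 - 3 * t / 5)) := by ring
        _ ≤ (1 - 5 * t / 3) * (1 - t) * (3 / (1 + 2 * -t) - t ^ 2) := hlast
        _ ≤ (1 - 5 * t / 3) * (1 + -t) * (3 / (1 + 2 * -t) - (-t) ^ k) := by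
            have e3 : 0 ≤ (1 - 5 * t / 3) * (1 + -t) := mul_nonneg (by linarith) (by linarith)
            have e4 : (1 - 5 * t / 3) * (1 - t) = (1 - 5 * t / 3) * (1 + -t) := by ring
            rw [e4]
            apply mul_le_mul_of_nonneg_left _ e3
            linarith

end mat

end partM1e

section partM2a

open Finset Matrix

/-! ### Weighted sums over words -/

section words

variable {M : Type} [AddCommMonoid M] [Module ℝ M]
variable {N : Type} [AddCommMonoid N] [Module ℝ N]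

/-- weighted sum over all words in positive letters with sum `n` -/
noncomputable def W (b : ℕ → ℝ) : ℕ → (List ℕ → M) → M
  | 0, φ => φ []
  | (n + 1), φ => ∑ k : Fin (n + 1), b (k.1 + 1) • W b (n - k.1) (fun l => φ ((k.1 + 1) :: l))
termination_by n _ => n
decreasing_by omega

theorem W_zero (b : ℕ → ℝ) (φ : List ℕ → M) : W b 0 φ = φ [] := by rw [W]

theorem W_succ (b : ℕ → ℝ) (n : ℕ) (φ : List ℕ → M) :
    W b (n + 1) φ = ∑ k ∈ range (n + 1), b (k + 1) • W b (n - k) (fun l => φ ((k + 1) :: l)) := by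
  rw [W, Finset.sum_range fun k => b (k + 1) • W b (n - k) (fun l => φ ((k + 1) :: l))]

theorem W_eq (b : ℕ → ℝ) (hb0 : b 0 = 0) (n : ℕ) (hn : 1 ≤ n) (φ : List ℕ → M) :
    W b n φ = ∑ p ∈ antidiagonal n, b p.1 • W b p.2 (fun l => φ (p.1 :: l)) := by
  obtain ⟨m, rfl⟩ : ∃ m, n = m + 1 := ⟨n - 1, by omega⟩
  rw [W_succ, Finset.Nat.sum_antidiagonal_succ, hb0, zero_smul, zero_add,
    Finset.Nat.sum_antidiagonal_eq_sum_range_succ
      (fun i j => b (i + 1) • W b j (fun l => φ ((i + 1) :: l)))]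

theorem W_mono (b : ℕ → ℝ) (hb : ∀ k, 0 ≤ b k) (n : ℕ) (φ ψ : List ℕ → ℝ)
    (h : ∀ l : List ℕ, l.sum = n → φ l ≤ ψ l) : W b n φ ≤ W b n ψ := by
  induction n using Nat.strong_induction_on generalizing φ ψ with
  | _ n ih =>
    rcases n with _ | n
    · rw [W_zero, W_zero]
      exact h [] rfl
    · rw [W_succ, W_succ]
      apply Finset.sum_le_sum
      intro k hk
      have hk' : k < n + 1 := Finset.mem_range.mp hk
      rw [smul_eq_mul, smul_eq_mul]
      apply mul_le_mul_of_nonneg_left _ (hb _)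
      apply ih (n - k) (by omega)
      intro l hl
      apply h
      rw [List.sum_cons, hl]
      omega

theorem W_map (b : ℕ → ℝ) (f : M →ₗ[ℝ] N) (n : ℕ) (φ : List ℕ → M) :
    f (W b n φ) = W b n (fun l => f (φ l)) := by
  induction n using Nat.strong_induction_on generalizing φ with
  | _ n ih =>
    rcases n with _ | n
    · rw [W_zero, W_zero]
    · rw [W_succ, W_succ, map_sum]
      apply Finset.sum_congr rfl
      intro k _
      rw [map_smul, ih (n - k) (by omega)]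

theorem W_add (b : ℕ → ℝ) (n : ℕ) (φ ψ : List ℕ → M) :
    W b n (fun l => φ l + ψ l) = W b n φ + W b n ψ := by
  induction n using Nat.strong_induction_on generalizing φ ψ with
  | _ n ih =>
    rcases n with _ | n
    · rw [W_zero, W_zero, W_zero]
    · rw [W_succ, W_succ, W_succ, ← Finset.sum_add_distrib]
      apply Finset.sum_congr rfl
      intro k _
      rw [ih (n - k) (by omega), smul_add]

theorem W_smul (b : ℕ → ℝ) (n : ℕ) (c : ℝ) (φ : List ℕ → M) :
    W b n (fun l => c • φ l) = c • W b n φ :=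
  (W_map b (LinearMap.lsmul ℝ M c) n φ).symm

theorem W_const (b C : ℕ → ℝ) (hb0 : b 0 = 0) (hC0 : C 0 = 1)
    (hren : ∀ n, 1 ≤ n → C n = ∑ p ∈ antidiagonal n, b p.1 * C p.2) (n : ℕ) (c : M) :
    W b n (fun _ => c) = C n • c := by
  induction n using Nat.strong_induction_on with
  | _ n ih =>
    rcases Nat.eq_zero_or_pos n with rfl | hn
    · rw [W_zero, hC0, one_smul]
    · rw [W_eq b hb0 n hn, hren n hn, Finset.sum_smul]
      apply Finset.sum_congr rfl
      intro p hp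
      have hp' : p.1 + p.2 = n := by simpa using hp
      rcases Nat.eq_zero_or_pos p.1 with h0 | h0
      · rw [h0, hb0]
        simp
      · rw [ih p.2 (by omega), smul_smul]

/-- the total weight counted with the number of letters -/
theorem W_len (b C : ℕ → ℝ) (hb0 : b 0 = 0) (hC0 : C 0 = 1)
    (hren : ∀ n, 1 ≤ n → C n = ∑ p ∈ antidiagonal n, b p.1 * C p.2) (n : ℕ) :
    ∑ p ∈ antidiagonal n, (p.1 : ℝ) * b p.1 * W b p.2 (fun l => ((l.length : ℝ) + 1))
      = n * C n := by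
  set Bs : PowerSeries ℝ := PowerSeries.mk b with hBs
  set Cs : PowerSeries ℝ := PowerSeries.mk C with hCs
  set Ls : PowerSeries ℝ := PowerSeries.mk fun m => W b m (fun l => ((l.length : ℝ) + 1)) with hLs
  have h1 : Cs = 1 + Bs * Cs := by
    ext m
    rw [map_add, PowerSeries.coeff_mul, PowerSeries.coeff_one]
    rcases Nat.eq_zero_or_pos m with rfl | hm
    · simp [hCs, hBs, hb0, hC0]
    · rw [if_neg (by omega), zero_add]
      simp only [hCs, hBs, PowerSeries.coeff_mk]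
      exact hren m hm
  have h2 : Ls = Bs * Ls + Cs := by
    ext m
    rw [map_add, PowerSeries.coeff_mul]
    simp only [hLs, hCs, hBs, PowerSeries.coeff_mk]
    rcases Nat.eq_zero_or_pos m with rfl | hm
    · simp [W_zero, hb0, hC0]
    · rw [W_eq b hb0 m hm, hren m hm, ← Finset.sum_add_distrib]
      apply Finset.sum_congr rfl
      intro p _
      have e1 : (fun l : List ℕ => (((p.1 :: l).length : ℝ) + 1))
          = fun l => ((l.length : ℝ) + 1) + 1 := by
        funext l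
        rw [List.length_cons]
        push_cast
        ring
      rw [e1, W_add, W_const b C hb0 hC0 hren]
      simp only [smul_eq_mul]
      ring
  have h3 : Cs * (1 - Bs) = 1 := by
    linear_combination h1
  have h4 : Ls = Cs * Cs := by
    have e1 : Ls * (1 - Bs) = Cs := by linear_combination h2
    calc Ls = Ls * (Cs * (1 - Bs)) := by rw [h3, mul_one]
      _ = Ls * (1 - Bs) * Cs := by ring
      _ = Cs * Cs := by rw [e1]
  have h5 : PowerSeries.derivative ℝ Cs = PowerSeries.derivative ℝ Bs * Cs * Cs := by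
    have e1 := congrArg (PowerSeries.derivative ℝ) h3
    rw [Derivation.leibniz, map_sub, PowerSeries.derivative_one, smul_eq_mul, smul_eq_mul,
      zero_sub] at e1
    calc PowerSeries.derivative ℝ Cs
        = (Cs * (1 - Bs)) * PowerSeries.derivative ℝ Cs := by rw [h3, one_mul]
      _ = PowerSeries.derivative ℝ Bs * Cs * Cs := by linear_combination Cs * e1
  have h6 : (PowerSeries.X * PowerSeries.derivative ℝ Bs) * Ls
      = PowerSeries.X * PowerSeries.derivative ℝ Cs := by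
    rw [h5, h4]
    ring
  have hX : ∀ (φ : PowerSeries ℝ) (m : ℕ),
      PowerSeries.coeff m (PowerSeries.X * PowerSeries.derivative ℝ φ)
        = m * PowerSeries.coeff m φ := by
    intro φ m
    rcases m with _ | m
    · simp
    · rw [PowerSeries.coeff_succ_X_mul, PowerSeries.coeff_derivative]
      push_cast
      ring
  have h7 := congrArg (PowerSeries.coeff n) h6
  rw [PowerSeries.coeff_mul, hX] at h7
  simp only [hX, hLs, hBs, hCs, PowerSeries.coeff_mk] at h7
  exact h7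

end words

end partM2a

section partM2b

open Finset Matrix

/-! ### The resolvent identity in matrices over formal power series -/

section series

variable {ι : Type} [Fintype ι] [DecidableEq ι]

/-- coefficient matrix -/
noncomputable def cM (n : ℕ) (M : Matrix ι ι (PowerSeries ℂ)) : Matrix ι ι ℂ :=
  M.map (PowerSeries.coeff n)

theorem cM_ext {M N : Matrix ι ι (PowerSeries ℂ)} (h : ∀ n, cM n M = cM n N) : M = N := by
  ext i j n
  exact congrFun (congrFun (h n) i) j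

theorem cM_mul (n : ℕ) (M N : Matrix ι ι (PowerSeries ℂ)) :
    cM n (M * N) = ∑ p ∈ antidiagonal n, cM p.1 M * cM p.2 N := by
  ext i j
  rw [cM, map_apply, Matrix.mul_apply, map_sum, Matrix.sum_apply]
  simp only [PowerSeries.coeff_mul]
  rw [Finset.sum_comm]
  apply Finset.sum_congr rfl
  intro p _
  rw [Matrix.mul_apply]
  rfl

theorem cM_add (n : ℕ) (M N : Matrix ι ι (PowerSeries ℂ)) :
    cM n (M + N) = cM n M + cM n N := by
  ext i j
  simp [cM]

theorem cM_one (n : ℕ) : cM n (1 : Matrix ι ι (PowerSeries ℂ)) = if n = 0 then 1 else 0 := by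
  ext i j
  rw [cM, map_apply, Matrix.one_apply]
  split_ifs with h1 h2 h2
  · subst h1
    simp [h2]
  · rw [PowerSeries.coeff_one, if_neg h2]
    rfl
  · simp [h2, h1]
  · simp

theorem coeff_trace (n : ℕ) (M : Matrix ι ι (PowerSeries ℂ)) :
    PowerSeries.coeff n M.trace = (cM n M).trace := by
  rw [Matrix.trace, map_sum]
  rfl

/-- the diagonal matrix of rescaled series -/
noncomputable def DD (x : ι → ℂ) (φ : PowerSeries ℂ) : Matrix ι ι (PowerSeries ℂ) :=
  diagonal fun i => PowerSeries.rescale (x i) φ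

theorem DD_mul (x : ι → ℂ) (φ ψ : PowerSeries ℂ) : DD x (φ * ψ) = DD x φ * DD x ψ := by
  rw [DD, DD, DD, diagonal_mul_diagonal]
  simp only [map_mul]

theorem DD_one (x : ι → ℂ) : DD x 1 = 1 := by
  rw [DD]
  simp

theorem DD_sub (x : ι → ℂ) (φ ψ : PowerSeries ℂ) : DD x (φ - ψ) = DD x φ - DD x ψ := by
  rw [DD, DD, DD, diagonal_sub]
  simp only [map_sub]

theorem cM_DD (x : ι → ℂ) (φ : PowerSeries ℂ) (n : ℕ) :
    cM n (DD x φ) = (PowerSeries.coeff n φ) • (diagonal x) ^ n := by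
  rw [Matrix.diagonal_pow]
  ext i j
  rw [cM, map_apply, DD, diagonal_apply, Matrix.smul_apply, diagonal_apply]
  split_ifs with h
  · rw [PowerSeries.coeff_rescale, Pi.pow_apply, smul_eq_mul]
    ring
  · simp

/-- constant matrix -/
noncomputable def KK (M : Matrix ι ι ℂ) : Matrix ι ι (PowerSeries ℂ) := M.map PowerSeries.C

theorem cM_KK (M : Matrix ι ι ℂ) (n : ℕ) : cM n (KK M) = if n = 0 then M else 0 := by
  ext i j
  rw [cM, map_apply, KK, map_apply, PowerSeries.coeff_C]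
  split_ifs with h
  · rfl
  · rfl

theorem cM_KK_mul (K : Matrix ι ι ℂ) (M : Matrix ι ι (PowerSeries ℂ)) (n : ℕ) :
    cM n (KK K * M) = K * cM n M := by
  rw [cM_mul, Finset.sum_eq_single (0, n)]
  · rw [cM_KK, if_pos rfl]
  · rintro ⟨i, j⟩ hij hne
    rw [cM_KK, if_neg, zero_mul]
    rintro rfl
    apply hne
    simp at hij
    simp [hij]
  · intro h
    exact absurd (by simp) h

variable (x : ι → ℂ) (ev : ι → ℂ) (θ : ℂ)

/-- moments transform -/
noncomputable def HH (φ : PowerSeries ℂ) : PowerSeries ℂ :=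
  ∑ i, PowerSeries.C (ev i * ev i) * PowerSeries.rescale (x i) φ

/-- the rank one matrix `ev ev^T` over power series -/
noncomputable def PM : Matrix ι ι (PowerSeries ℂ) :=
  vecMulVec (fun i => PowerSeries.C (ev i)) (fun i => PowerSeries.C (ev i))

theorem PM_DD_PM (φ : PowerSeries ℂ) : PM ev * DD x φ * PM ev = HH x ev φ • PM ev := by
  ext1 i j
  rw [PM, Matrix.mul_assoc, mul_vecMulVec, vecMulVec_mul_vecMulVec, Matrix.smul_apply,
    vecMulVec_apply, vecMulVec_apply, Pi.smul_apply, smul_eq_mul, smul_eq_mul, HH, dotProduct,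
    DD, Finset.sum_mul, Finset.sum_mul, Finset.mul_sum]
  apply Finset.sum_congr rfl
  intro k _
  rw [mulVec_diagonal, map_mul]
  ring

theorem trace_PM_DD (φ : PowerSeries ℂ) : (PM ev * DD x φ).trace = HH x ev φ := by
  rw [PM, vecMulVec_mul, trace_vecMulVec, HH, DD, dotProduct]
  apply Finset.sum_congr rfl
  intro k _
  rw [vecMul_diagonal, map_mul]
  ring

theorem HH_sub (φ ψ : PowerSeries ℂ) : HH x ev (φ - ψ) = HH x ev φ - HH x ev ψ := by
  rw [HH, HH, HH, ← Finset.sum_sub_distrib]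
  apply Finset.sum_congr rfl
  intro i _
  rw [map_sub, mul_sub]

theorem HH_X_deriv (φ : PowerSeries ℂ) :
    HH x ev (PowerSeries.X * PowerSeries.derivative ℂ φ)
      = PowerSeries.X * PowerSeries.derivative ℂ (HH x ev φ) := by
  have hX : ∀ (φ : PowerSeries ℂ) (m : ℕ),
      PowerSeries.coeff m (PowerSeries.X * PowerSeries.derivative ℂ φ)
        = m * PowerSeries.coeff m φ := by
    intro φ m
    rcases m with _ | m
    · simp
    · rw [PowerSeries.coeff_succ_X_mul, PowerSeries.coeff_derivative]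
      push_cast
      ring
  ext n
  rw [hX, HH, HH, map_sum, map_sum, Finset.mul_sum]
  apply Finset.sum_congr rfl
  intro i _
  rw [PowerSeries.coeff_C_mul, PowerSeries.coeff_C_mul, PowerSeries.coeff_rescale,
    PowerSeries.coeff_rescale, hX]
  ring

/-- the algebraic identity -/
theorem resolvent (Cs Bs : PowerSeries ℂ) (hCB : Cs = 1 + Bs * Cs)
    (Rp V : Matrix ι ι (PowerSeries ℂ))
    (hR : Rp = 1 - PowerSeries.C θ • PM ev)
    (hV : V = 1 + Rp * DD x Bs * V)
    (hH1 : HH x ev 1 = 1)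
    (G D : PowerSeries ℂ)
    (hG : G = 1 + PowerSeries.C θ * HH x ev (Cs - 1))
    (hD : D = (DD x Cs * DD x (PowerSeries.X * PowerSeries.derivative ℂ Bs)).trace
      - (V * Rp * DD x (PowerSeries.X * PowerSeries.derivative ℂ Bs)).trace) :
    G * D = PowerSeries.X * PowerSeries.derivative ℂ G := by
  obtain ⟨Bd, hBd⟩ : ∃ Bd : PowerSeries ℂ,
    Bd = PowerSeries.X * PowerSeries.derivative ℂ Bs := ⟨_, rfl⟩
  rw [← hBd] at hD
  set Pm := PM ev with hPm
  set c : PowerSeries ℂ := PowerSeries.C θ with hc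
  have h3 : Cs * (1 - Bs) = 1 := by linear_combination hCB
  have hNV : (1 - Rp * DD x Bs) * V = 1 := by
    rw [sub_mul, one_mul]
    nth_rewrite 1 [hV]
    rw [add_sub_cancel_right]
  have hVN : V * (1 - Rp * DD x Bs) = 1 := mul_eq_one_comm.mp hNV
  have hDC : (1 - DD x Bs) * DD x Cs = 1 := by
    rw [← DD_one x, ← DD_sub, ← DD_mul, mul_comm (1 - Bs) Cs, h3]
  -- (2)
  have h2 : DD x Cs - V = c • (V * Pm * DD x (Cs - 1)) := by
    have e1 : Bs * Cs = Cs - 1 := by linear_combination -hCB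
    have e2 : DD x Cs - V = V * ((1 - Rp * DD x Bs) - (1 - DD x Bs)) * DD x Cs := by
      rw [mul_sub, sub_mul, hVN, one_mul, Matrix.mul_assoc V, hDC, mul_one]
    rw [e2, hR, ← e1, DD_mul]
    rw [sub_mul, one_mul, Matrix.smul_mul]
    have e3 : (1 - (DD x Bs - c • (Pm * DD x Bs)) - (1 - DD x Bs)) = c • (Pm * DD x Bs) := by
      rw [sub_sub_sub_cancel_left, sub_sub_cancel]
    rw [e3, Matrix.mul_smul, Matrix.smul_mul, Matrix.mul_assoc, Matrix.mul_assoc,
      Matrix.mul_assoc]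
  -- (3)
  have h4 : G • (V * Pm) = DD x Cs * Pm := by
    have e1 : DD x Cs * Pm = V * Pm + c • (V * (Pm * DD x (Cs - 1) * Pm)) := by
      have e2 : DD x Cs = V + c • (V * Pm * DD x (Cs - 1)) := by
        rw [← h2, add_sub_cancel]
      nth_rewrite 1 [e2]
      rw [add_mul, Matrix.smul_mul, Matrix.mul_assoc (V * Pm), Matrix.mul_assoc V,
        ← Matrix.mul_assoc Pm]
    rw [e1, PM_DD_PM, hG, Matrix.mul_smul, add_smul, one_smul, smul_smul]
  -- (4)
  have h5 : D = c * (V * Pm * DD x (Cs * Bd)).trace := by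
    have e1 : DD x Cs * DD x Bd - V * Rp * DD x Bd = c • (V * Pm * DD x (Cs * Bd)) := by
      have e3 : DD x (Cs - 1) = DD x Cs - 1 := by rw [DD_sub, DD_one]
      have e4 : DD x Cs - V * Rp = c • (V * Pm * DD x Cs) := by
        have e5 : V * Rp = V - c • (V * Pm) := by
          rw [hR, mul_sub, mul_one, Matrix.mul_smul]
        have e6 : c • (V * Pm * DD x (Cs - 1)) = c • (V * Pm * DD x Cs) - c • (V * Pm) := by
          rw [e3, mul_sub, mul_one, smul_sub]
        rw [e5, ← sub_add, h2, e6, sub_add_cancel]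
      rw [← sub_mul, e4, DD_mul x Cs Bd, Matrix.smul_mul, Matrix.mul_assoc (V * Pm)]
    rw [hD, ← trace_sub, e1, trace_smul, smul_eq_mul]
  have h6 : G * D = c * HH x ev (Cs * Bd * Cs) := by
    have e1 : G * (V * Pm * DD x (Cs * Bd)).trace = HH x ev (Cs * Bd * Cs) := by
      rw [← smul_eq_mul, ← trace_smul, ← Matrix.smul_mul, h4, Matrix.mul_assoc, trace_mul_comm,
        Matrix.mul_assoc, ← DD_mul, trace_PM_DD]
    rw [h5, ← e1]
    ring
  have h7 : Cs * Bd * Cs = PowerSeries.X * PowerSeries.derivative ℂ Cs := by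
    have e1 := congrArg (PowerSeries.derivative ℂ) h3
    rw [Derivation.leibniz, map_sub, PowerSeries.derivative_one, smul_eq_mul, smul_eq_mul,
      zero_sub] at e1
    have e2 : PowerSeries.derivative ℂ Cs = Cs * PowerSeries.derivative ℂ Bs * Cs := by
      calc PowerSeries.derivative ℂ Cs
          = (Cs * (1 - Bs)) * PowerSeries.derivative ℂ Cs := by rw [h3, one_mul]
        _ = Cs * PowerSeries.derivative ℂ Bs * Cs := by linear_combination Cs * e1
    rw [e2, hBd]
    ring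
  have h8 : HH x ev (Cs - 1) = HH x ev Cs - 1 := by
    rw [HH_sub, hH1]
  rw [h6, h7, HH_X_deriv, hG, h8]
  simp only [map_add, map_sub, PowerSeries.derivative_one, Derivation.leibniz, smul_eq_mul, hc,
    PowerSeries.derivative_C]
  ring

end series

end partM2b

section partM2c

open Finset Matrix

section wordmat

variable {ι : Type} [Fintype ι] [DecidableEq ι]

/-- the matrix product attached to a word -/
noncomputable def wprod (R U : Matrix ι ι ℂ) : List ℕ → Matrix ι ι ℂ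
  | [] => 1
  | (k :: l) => R * U ^ k * wprod R U l

theorem pow_unitary (x : ι → ℂ) (hx : ∀ i, ‖x i‖ = 1) (a : ℕ) :
    (diagonal x ^ a)ᴴ * diagonal x ^ a = 1 := by
  rw [Matrix.diagonal_pow, diagonal_conjTranspose, diagonal_mul_diagonal]
  rw [← diagonal_one]
  congr 1
  funext i
  rw [Pi.star_apply, Pi.pow_apply, Complex.star_def, mul_comm, Complex.mul_conj,
    Complex.normSq_eq_norm_sq, norm_pow, hx i]
  simp

theorem pow_unitary' (x : ι → ℂ) (hx : ∀ i, ‖x i‖ = 1) (a : ℕ) :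
    diagonal x ^ a * (diagonal x ^ a)ᴴ = 1 :=
  mul_eq_one_comm.mp (pow_unitary x hx a)

theorem pow_mul_RR (x : ι → ℂ) (hx : ∀ i, ‖x i‖ = 1) (a : ℕ) (s : ℝ) (v : ι → ℂ) :
    diagonal x ^ a * RR s v = RR s (diagonal x ^ a *ᵥ v) * diagonal x ^ a := by
  rw [RR, RR, mul_sub, sub_mul, mul_one, one_mul, Matrix.mul_smul, Matrix.smul_mul,
    mul_vecMulVec, vecMulVec_mul, star_mulVec, vecMul_vecMul, pow_unitary x hx, vecMul_one]

theorem wprod_eq (s : ℝ) (x : ι → ℂ) (hx : ∀ i, ‖x i‖ = 1) (ev : ι → ℂ) (l : List ℕ) (a : ℕ) :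
    diagonal x ^ a * wprod (RR s ev) (diagonal x) l
      = PP s l.length (fun j => diagonal x ^ (a + (l.take j).sum) *ᵥ ev)
        * diagonal x ^ (a + l.sum) := by
  induction l generalizing a with
  | nil => simp [wprod, PP_zero]
  | cons k l ih =>
    have e1 : diagonal x ^ a * wprod (RR s ev) (diagonal x) (k :: l)
        = (diagonal x ^ a * RR s ev) * (diagonal x ^ k * wprod (RR s ev) (diagonal x) l) := by
      rw [wprod]
      simp only [Matrix.mul_assoc]
    rw [e1, pow_mul_RR x hx, Matrix.mul_assoc, ← Matrix.mul_assoc (diagonal x ^ a), ← pow_add,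
      ih, List.length_cons, PP_succ, Matrix.mul_assoc]
    simp only [List.take_zero, List.sum_nil, add_zero, List.take_succ_cons, List.sum_cons,
      ← add_assoc]

theorem word_bound (s : ℝ) (hs : s < 1) (hs' : -(1 / 2) < s) (x : ι → ℂ)
    (hx : ∀ i, ‖x i‖ = 1) (ev : ι → ℂ) (hev : star ev ⬝ᵥ ev = 1) (l : List ℕ) (ε : ℝ)
    (hε : (star ev ⬝ᵥ (diagonal x ^ l.sum *ᵥ ev)).re = 1 - ε) :
    1 - s ^ l.length - l.length * ((1 - s) * (3 / (1 + 2 * s))) * ε
      ≤ (diagonal x ^ l.sum - wprod (RR s ev) (diagonal x) l).trace.re := by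
  have h1 := wprod_eq s x hx ev l 0
  simp only [pow_zero, one_mul, zero_add] at h1
  rw [h1]
  have h2 := word_ineq s hs hs' l.length (fun j => diagonal x ^ ((l.take j).sum) *ᵥ ev)
    (fun k => ?_) (diagonal x ^ l.sum) (pow_unitary' x hx _) ε (fun k => ?_)
  · rw [Matrix.sub_mul, Matrix.one_mul] at h2
    exact h2
  · show star (diagonal x ^ ((l.take k).sum) *ᵥ ev) ⬝ᵥ (diagonal x ^ ((l.take k).sum) *ᵥ ev) = 1
    rw [star_mulVec, ← dotProduct_mulVec, mulVec_mulVec, pow_unitary x hx, one_mulVec, hev]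
  · show (star (diagonal x ^ ((l.take k).sum) *ᵥ ev) ⬝ᵥ
      (diagonal x ^ l.sum *ᵥ (diagonal x ^ ((l.take k).sum) *ᵥ ev))).re = 1 - ε
    have e1 : (diagonal x ^ ((l.take k).sum))ᴴ * diagonal x ^ l.sum
        * diagonal x ^ ((l.take k).sum) = diagonal x ^ l.sum := by
      rw [Matrix.mul_assoc, ← pow_add, add_comm, pow_add, ← Matrix.mul_assoc, pow_unitary x hx,
        one_mul]
    rw [star_mulVec, ← dotProduct_mulVec, mulVec_mulVec, mulVec_mulVec, e1, hε]

/-- the series of traces -/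
noncomputable def Dser (b C : ℕ → ℝ) (R U : Matrix ι ι ℂ) : PowerSeries ℂ :=
  PowerSeries.mk fun n => ∑ p ∈ antidiagonal n, ((p.1 : ℂ) * (b p.1 : ℂ)) *
    ((C p.2 : ℂ) * (U ^ n).trace - (R * U ^ p.1 * W b p.2 (wprod R U)).trace)

theorem Dser_words (b C : ℕ → ℝ) (hb0 : b 0 = 0) (hC0 : C 0 = 1)
    (hren : ∀ n, 1 ≤ n → C n = ∑ p ∈ antidiagonal n, b p.1 * C p.2)
    (R U : Matrix ι ι ℂ) (n k m : ℕ) :
    (C m : ℂ) * (U ^ n).trace - (R * U ^ k * W b m (wprod R U)).trace
      = W b m (fun l => (U ^ n - wprod R U (k :: l)).trace) := by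
  have h1 : (R * U ^ k * W b m (wprod R U)).trace
      = W b m (fun l => (R * U ^ k * wprod R U l).trace) := by
    have := W_map b ((Matrix.traceLinearMap ι ℝ ℂ).comp
      (LinearMap.mulLeft ℝ (R * U ^ k))) m (wprod R U)
    exact this
  have h2 : (C m : ℂ) * (U ^ n).trace = W b m (fun _ => (U ^ n).trace) := by
    rw [W_const b C hb0 hC0 hren]
    simp
  have h3 : W b m (fun l => (U ^ n - wprod R U (k :: l)).trace)
      = W b m (fun _ => (U ^ n).trace) + (-1 : ℝ) • W b m (fun l => (R * U ^ k * wprod R U l).trace)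
      := by
    rw [← W_smul, ← W_add]
    congr 1
    funext l
    rw [trace_sub, wprod]
    simp [sub_eq_add_neg]
  rw [h3, ← h1, ← h2]
  simp [sub_eq_add_neg]

theorem Dser_lower (b C : ℕ → ℝ) (hb : ∀ k, 0 ≤ b k) (hb0 : b 0 = 0) (hC0 : C 0 = 1)
    (hren : ∀ n, 1 ≤ n → C n = ∑ p ∈ antidiagonal n, b p.1 * C p.2)
    (s : ℝ) (hs : s < 1) (hs' : -(1 / 2) < s) (x : ι → ℂ)
    (hx : ∀ i, ‖x i‖ = 1) (ev : ι → ℂ) (hev : star ev ⬝ᵥ ev = 1) (n : ℕ) (ε : ℝ)
    (hε : (star ev ⬝ᵥ (diagonal x ^ n *ᵥ ev)).re = 1 - ε) :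
    ∑ p ∈ antidiagonal n, (p.1 : ℝ) * b p.1 * W b p.2 (fun l => 1 - s ^ (l.length + 1))
      - (1 - s) * (3 / (1 + 2 * s)) * ε * (n * C n)
      ≤ (PowerSeries.coeff n (Dser b C (RR s ev) (diagonal x))).re := by
  rw [← W_len b C hb0 hC0 hren n, Dser, PowerSeries.coeff_mk, Complex.re_sum, Finset.mul_sum,
    ← Finset.sum_sub_distrib]
  apply Finset.sum_le_sum
  intro p hp
  have hp' : p.1 + p.2 = n := by simpa using hp
  have e1 : ((p.1 : ℂ) * (b p.1 : ℂ)) = ((p.1 * b p.1 : ℝ) : ℂ) := by push_cast; rfl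
  rw [Dser_words b C hb0 hC0 hren, e1, Complex.re_ofReal_mul]
  have e2 : (W b p.2 (fun l => (diagonal x ^ n - wprod (RR s ev) (diagonal x) (p.1 :: l)).trace)).re
      = W b p.2 (fun l =>
        ((diagonal x ^ n - wprod (RR s ev) (diagonal x) (p.1 :: l)).trace).re) := by
    have := W_map b Complex.reLm p.2
      (fun l => (diagonal x ^ n - wprod (RR s ev) (diagonal x) (p.1 :: l)).trace)
    exact this
  rw [e2]
  have e3 : W b p.2 (fun l => (1 - s ^ (l.length + 1))
      + (-((1 - s) * (3 / (1 + 2 * s)) * ε)) • ((l.length : ℝ) + 1))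
      ≤ W b p.2 (fun l =>
        ((diagonal x ^ n - wprod (RR s ev) (diagonal x) (p.1 :: l)).trace).re) := by
    apply W_mono b hb
    intro l hl
    have hsum : (p.1 :: l).sum = n := by rw [List.sum_cons, hl, hp']
    have e4 := word_bound s hs hs' x hx ev hev (p.1 :: l) ε (by rw [hsum]; exact hε)
    rw [hsum, List.length_cons] at e4
    refine le_trans (le_of_eq ?_) e4
    push_cast
    rw [smul_eq_mul]
    ring
  rw [W_add, W_smul, smul_eq_mul] at e3
  have e5 : 0 ≤ (p.1 : ℝ) * b p.1 := mul_nonneg (Nat.cast_nonneg _) (hb _)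
  have e6 := mul_le_mul_of_nonneg_left e3 e5
  refine le_trans (le_of_eq ?_) e6
  ring

theorem Dser_identity (b C : ℕ → ℝ) (hb0 : b 0 = 0) (hC0 : C 0 = 1)
    (hren : ∀ n, 1 ≤ n → C n = ∑ p ∈ antidiagonal n, b p.1 * C p.2)
    (s : ℝ) (x : ι → ℂ) (w : ι → ℝ) (hw : ∀ i, 0 ≤ w i) (hw1 : ∑ i, w i = 1)
    (G : PowerSeries ℂ)
    (hG : ∀ n, PowerSeries.coeff n G = if n = 0 then 1 else
      ((1 - s) * C n : ℝ) * ∑ i, (w i : ℂ) * x i ^ n) :
    G * Dser b C (RR s fun i => ((Real.sqrt (w i) : ℝ) : ℂ)) (diagonal x)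
      = PowerSeries.X * PowerSeries.derivative ℂ G := by
  set ev : ι → ℂ := fun i => ((Real.sqrt (w i) : ℝ) : ℂ) with hev
  have hevsq : ∀ i, ev i * ev i = (w i : ℂ) := by
    intro i
    simp only [hev]
    rw [← Complex.ofReal_mul, Real.mul_self_sqrt (hw i)]
  have hevstar : star ev = ev := by
    funext i
    rw [Pi.star_apply]
    simp only [hev]
    rw [Complex.star_def, Complex.conj_ofReal]
  set R : Matrix ι ι ℂ := RR s ev with hR
  set U : Matrix ι ι ℂ := diagonal x with hU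
  set Cs : PowerSeries ℂ := PowerSeries.mk fun n => (C n : ℂ) with hCs
  set Bs : PowerSeries ℂ := PowerSeries.mk fun n => (b n : ℂ) with hBs
  set V : Matrix ι ι (PowerSeries ℂ) :=
    Matrix.of fun i j => PowerSeries.mk fun n => (W b n (wprod R U)) i j with hV
  have hcV : ∀ n, cM n V = W b n (wprod R U) := by
    intro n
    ext i j
    rw [cM, map_apply, hV]
    simp only [Matrix.of_apply, PowerSeries.coeff_mk]
  have hCB : Cs = 1 + Bs * Cs := by
    ext m
    rw [map_add, PowerSeries.coeff_mul, PowerSeries.coeff_one]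
    rcases Nat.eq_zero_or_pos m with rfl | hm
    · simp [hCs, hBs, hb0, hC0]
    · rw [if_neg (by omega), zero_add]
      simp only [hCs, hBs, PowerSeries.coeff_mk]
      rw [hren m hm]
      push_cast
      rfl
  have hVeq : V = 1 + KK R * DD x Bs * V := by
    apply cM_ext
    intro n
    rw [cM_add, cM_one, Matrix.mul_assoc, cM_KK_mul, cM_mul, hcV]
    rcases Nat.eq_zero_or_pos n with rfl | hn
    · rw [W_zero, wprod]
      simp [cM_DD, hBs, hb0]
    · rw [if_neg (by omega), zero_add, W_eq b hb0 n hn, Finset.mul_sum]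
      apply Finset.sum_congr rfl
      intro p _
      rw [cM_DD, hcV, hBs, PowerSeries.coeff_mk]
      have h1 := W_map b (LinearMap.mulLeft ℝ (R * U ^ p.1)) p.2 (wprod R U)
      simp only [LinearMap.mulLeft_apply] at h1
      simp only [wprod]
      rw [← h1, Matrix.smul_mul, Matrix.mul_smul, ← Matrix.mul_assoc]
      ext i j
      rw [Matrix.smul_apply, Matrix.smul_apply, ← hU]
      simp
  have hRp : KK R = 1 - PowerSeries.C (((1 - s : ℝ)) : ℂ) • PM ev := by
    ext1 i j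
    rw [KK, map_apply, hR, RR, hevstar, Matrix.sub_apply, Matrix.sub_apply, Matrix.smul_apply,
      Matrix.smul_apply, PM, vecMulVec_apply, vecMulVec_apply, smul_eq_mul, smul_eq_mul,
      map_sub, map_mul, map_mul, Matrix.one_apply, Matrix.one_apply]
    split_ifs
    · simp
    · simp
  have hHc : ∀ (φ : PowerSeries ℂ) (n : ℕ), PowerSeries.coeff n (HH x ev φ)
      = PowerSeries.coeff n φ * ∑ i, (w i : ℂ) * x i ^ n := by
    intro φ n
    rw [HH, map_sum, Finset.mul_sum]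
    apply Finset.sum_congr rfl
    intro i _
    rw [PowerSeries.coeff_C_mul, PowerSeries.coeff_rescale, hevsq]
    ring
  have hw1' : ∑ i, (w i : ℂ) = 1 := by exact_mod_cast hw1
  have hH1 : HH x ev 1 = 1 := by
    ext n
    rw [hHc, PowerSeries.coeff_one]
    split_ifs with h
    · subst h
      simp [hw1']
    · simp
  have hGeq : G = 1 + PowerSeries.C (((1 - s : ℝ)) : ℂ) * HH x ev (Cs - 1) := by
    ext n
    rw [hG, map_add, PowerSeries.coeff_C_mul, hHc, map_sub, PowerSeries.coeff_one]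
    split_ifs with h
    · subst h
      simp [hCs, hC0]
    · rw [hCs, PowerSeries.coeff_mk]
      push_cast
      ring
  refine resolvent x ev (((1 - s : ℝ)) : ℂ) Cs Bs hCB (KK R) V hRp hVeq hH1 G _ hGeq ?_
  have hX : ∀ (φ : PowerSeries ℂ) (m : ℕ),
      PowerSeries.coeff m (PowerSeries.X * PowerSeries.derivative ℂ φ)
        = m * PowerSeries.coeff m φ := by
    intro φ m
    rcases m with _ | m
    · simp
    · rw [PowerSeries.coeff_succ_X_mul, PowerSeries.coeff_derivative]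
      push_cast
      ring
  ext n
  have h2 : (DD x Cs * DD x (PowerSeries.X * PowerSeries.derivative ℂ Bs)).trace
      = (DD x (PowerSeries.X * PowerSeries.derivative ℂ Bs) * DD x Cs).trace := trace_mul_comm _ _
  have h3 : (V * KK R * DD x (PowerSeries.X * PowerSeries.derivative ℂ Bs)).trace
      = (KK R * (DD x (PowerSeries.X * PowerSeries.derivative ℂ Bs) * V)).trace := by
    rw [Matrix.mul_assoc, trace_mul_comm, Matrix.mul_assoc]
  rw [h2, h3, map_sub, coeff_trace, coeff_trace, cM_KK_mul, cM_mul, cM_mul, Dser,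
    PowerSeries.coeff_mk, Finset.mul_sum, trace_sum, trace_sum, ← Finset.sum_sub_distrib]
  apply Finset.sum_congr rfl
  intro p hp
  have hp' : p.1 + p.2 = n := by simpa using hp
  rw [cM_DD, cM_DD, hX, hcV, hCs, hBs, PowerSeries.coeff_mk, PowerSeries.coeff_mk,
    Matrix.smul_mul, Matrix.mul_smul, Matrix.smul_mul, Matrix.mul_smul, ← pow_add, hp',
    trace_smul, trace_smul, trace_smul, smul_eq_mul, smul_eq_mul, smul_eq_mul,
    ← Matrix.mul_assoc]
  ring

end wordmat

end partM2c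

section partM3

open Finset Matrix

/-! ### Kaluza's lemma -/

/-- The renewal probabilities of a sequence. -/
noncomputable def bseq (c : ℕ → ℝ) : ℕ → ℝ
  | 0 => 0
  | (n + 1) => c (n + 1) - ∑ k : Fin (n + 1), bseq c k * c (n + 1 - k)

theorem bseq_zero (c : ℕ → ℝ) : bseq c 0 = 0 := by rw [bseq]

theorem bseq_succ (c : ℕ → ℝ) (n : ℕ) :
    bseq c (n + 1) = c (n + 1) - ∑ k ∈ range (n + 1), bseq c k * c (n + 1 - k) := by
  rw [bseq, Finset.sum_range (fun k => bseq c k * c (n + 1 - k))]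

theorem bseq_renewal (c : ℕ → ℝ) (hc0 : c 0 = 1) (n : ℕ) (hn : 1 ≤ n) :
    c n = ∑ k ∈ range (n + 1), bseq c k * c (n - k) := by
  obtain ⟨m, rfl⟩ : ∃ m, n = m + 1 := ⟨n - 1, by omega⟩
  rw [Finset.sum_range_succ, bseq_succ, Nat.sub_self, hc0]
  ring

theorem bseq_nonneg (c : ℕ → ℝ) (hc0 : c 0 = 1) (hpos : ∀ n, 0 < c n)
    (hlog : ∀ n, c (n + 1) ^ 2 ≤ c n * c (n + 2)) (n : ℕ) : 0 ≤ bseq c n := by
  -- ratios increase
  have hstep : ∀ n, c (n + 1) / c n ≤ c (n + 2) / c (n + 1) := by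
    intro n
    rw [div_le_div_iff₀ (hpos n) (hpos (n + 1))]
    have := hlog n
    nlinarith
  have hmono : Monotone (fun n => c (n + 1) / c n) := monotone_nat_of_le_succ hstep
  induction n using Nat.strong_induction_on with
  | _ n ih =>
    rcases n with _ | n
    · rw [bseq_zero]
    rcases n with _ | n
    · rw [bseq_succ]
      simp [bseq_zero, (hpos 1).le]
    rw [bseq_succ]
    have h1 : ∑ k ∈ range (n + 1 + 1), bseq c k * c (n + 1 + 1 - k)
        ≤ ∑ k ∈ range (n + 1 + 1), (c (n + 2) / c (n + 1)) * (bseq c k * c (n + 1 - k)) := by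
      apply Finset.sum_le_sum
      intro k hk
      have hk' : k < n + 2 := Finset.mem_range.mp hk
      have hb := ih k (by omega)
      rcases Nat.eq_zero_or_pos k with hk0 | hk0
      · subst hk0
        rw [bseq_zero]
        simp
      have h2 : c (n + 1 - k + 1) / c (n + 1 - k) ≤ c (n + 1 + 1) / c (n + 1) :=
        hmono (show n + 1 - k ≤ n + 1 by omega)
      have h3 : n + 1 + 1 - k = n + 1 - k + 1 := by omega
      rw [h3]
      have h4 : c (n + 1 - k + 1) = (c (n + 1 - k + 1) / c (n + 1 - k)) * c (n + 1 - k) := by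
        field_simp [(hpos (n + 1 - k)).ne']
      rw [h4]
      calc bseq c k * (c (n + 1 - k + 1) / c (n + 1 - k) * c (n + 1 - k))
          = (c (n + 1 - k + 1) / c (n + 1 - k)) * (bseq c k * c (n + 1 - k)) := by ring
        _ ≤ (c (n + 1 + 1) / c (n + 1)) * (bseq c k * c (n + 1 - k)) :=
            mul_le_mul_of_nonneg_right h2 (mul_nonneg hb (hpos _).le)
    rw [← Finset.mul_sum, ← bseq_renewal c hc0 (n + 1) (by omega)] at h1
    have h5 : c (n + 2) / c (n + 1) * c (n + 1) = c (n + 2) := by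
      field_simp [(hpos (n + 1)).ne']
    rw [h5] at h1
    linarith

/-- the comparison sequence -/
noncomputable def cs (α : ℝ) (k : ℕ) : ℝ := if k = 0 then 1 else 4 / 3 * (α / (k + α))

theorem cs_pos (α : ℝ) (hα : 0 < α) (k : ℕ) : 0 < cs α k := by
  unfold cs
  split_ifs
  · norm_num
  · have : (0:ℝ) ≤ k := Nat.cast_nonneg k
    positivity

theorem cs_log (α : ℝ) (hα : 0 < α) (hα1 : α ≤ 1) (n : ℕ) :
    cs α (n + 1) ^ 2 ≤ cs α n * cs α (n + 2) := by
  rcases n with _ | n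
  · simp only [cs]
    norm_num
    have h1 : 4 / 3 * (α / (2 + α)) - (4 / 3 * (α / (1 + α))) ^ 2
        = 4 / 9 * α * ((3 + α) * (1 - α)) / ((2 + α) * (1 + α) ^ 2) := by
      field_simp
      ring
    have h2 : 0 ≤ 4 / 9 * α * ((3 + α) * (1 - α)) / ((2 + α) * (1 + α) ^ 2) := by
      have : 0 ≤ 1 - α := by linarith
      positivity
    linarith
  · simp only [cs]
    rw [if_neg (by omega), if_neg (by omega), if_neg (by omega)]
    push_cast
    have hn : (0:ℝ) ≤ n := Nat.cast_nonneg n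
    have h1 : 4 / 3 * (α / ((n:ℝ) + 1 + α)) * (4 / 3 * (α / ((n:ℝ) + 1 + 2 + α)))
        - (4 / 3 * (α / ((n:ℝ) + 1 + 1 + α))) ^ 2
        = 16 / 9 * α ^ 2 / (((n:ℝ) + 1 + α) * ((n:ℝ) + 1 + 2 + α) * ((n:ℝ) + 1 + 1 + α) ^ 2) := by
      field_simp
      ring
    have h2 : 0 ≤ 16 / 9 * α ^ 2 / (((n:ℝ) + 1 + α) * ((n:ℝ) + 1 + 2 + α) *
        ((n:ℝ) + 1 + 1 + α) ^ 2) := by positivity
    linarith

/-! ### Logarithmic derivative coefficients -/

theorem coeff_X_deriv (φ : PowerSeries ℂ) (m : ℕ) :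
    PowerSeries.coeff m (PowerSeries.X * PowerSeries.derivative ℂ φ)
      = m * PowerSeries.coeff m φ := by
  rcases m with _ | m
  · simp
  · rw [PowerSeries.coeff_succ_X_mul, PowerSeries.coeff_derivative]
    push_cast
    ring

open PowerSeries in
theorem log_coeff (Y G D : PowerSeries ℂ) (p : ℂ) (hY0 : coeff 0 Y = 0)
    (hG : G = 1 + C p * Y) (hGD : G * D = X * derivative ℂ G) (n : ℕ) :
    coeff n D = n * ∑ j ∈ range n, ((-1) ^ j * p ^ (j + 1) / (j + 1)) * coeff n (Y ^ (j + 1)) := by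
  set S : PowerSeries ℂ := ∑ j ∈ range n, C ((-1) ^ j * p ^ (j + 1) / (j + 1)) * Y ^ (j + 1) with hS
  have hdS : derivative ℂ S = (C p * derivative ℂ Y) * ∑ j ∈ range n, (-(C p * Y)) ^ j := by
    rw [hS, map_sum, Finset.mul_sum]
    apply Finset.sum_congr rfl
    intro j _
    have e1 : ((j:ℂ) + 1) ≠ 0 := by exact_mod_cast Nat.succ_ne_zero j
    have e2 : C ((-1) ^ j * p ^ (j + 1) / (j + 1)) * ((j : PowerSeries ℂ) + 1)
        = C ((-1) ^ j * p ^ (j + 1)) := by
      have e3 : ((j : PowerSeries ℂ) + 1) = C ((j:ℂ) + 1) := by simp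
      rw [e3, ← map_mul]
      congr 1
      field_simp
    rw [Derivation.leibniz, derivative_C, smul_zero, add_zero, derivative_pow, smul_eq_mul]
    push_cast
    have e4 : C ((-1) ^ j * p ^ (j + 1)) = (-1 : PowerSeries ℂ) ^ j * (C p) ^ (j + 1) := by
      simp
    calc C ((-1) ^ j * p ^ (j + 1) / (j + 1)) *
          (((j : PowerSeries ℂ) + 1) * Y ^ (j + 1 - 1) * derivative ℂ Y)
        = (C ((-1) ^ j * p ^ (j + 1) / (j + 1)) * ((j : PowerSeries ℂ) + 1)) * Y ^ j
            * derivative ℂ Y := by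
          rw [Nat.add_sub_cancel]
          ring
      _ = (-1 : PowerSeries ℂ) ^ j * (C p) ^ (j + 1) * Y ^ j * derivative ℂ Y := by rw [e2, e4]
      _ = _ := by
          rw [neg_pow (C p * Y), mul_pow]
          ring
  have hdG : derivative ℂ G = C p * derivative ℂ Y := by
    rw [hG, map_add, derivative_one, zero_add, Derivation.leibniz, derivative_C, smul_zero,
      add_zero, smul_eq_mul]
  have hgeom : G * ∑ j ∈ range n, (-(C p * Y)) ^ j = 1 - (-(C p * Y)) ^ n := by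
    have := mul_neg_geom_sum (-(C p * Y)) n
    rw [sub_neg_eq_add, ← hG] at this
    exact this
  have hkey : G * (D - X * derivative ℂ S) = X * (C p * derivative ℂ Y) * (-(C p * Y)) ^ n := by
    rw [mul_sub, hGD, hdS, hdG]
    linear_combination (-(X * (C p * derivative ℂ Y))) * hgeom
  have hXY : X ∣ Y := by
    rw [X_dvd_iff, ← coeff_zero_eq_constantCoeff_apply, hY0]
  have hXY' : X ∣ -(C p * Y) := (Dvd.dvd.mul_left hXY _).neg_right
  have hG0 : constantCoeff G ≠ 0 := by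
    rw [hG, map_add, map_mul, X_dvd_iff.mp hXY]
    simp
  have hdvd : X ^ (n + 1) ∣ D - X * derivative ℂ S := by
    have e1 : D - X * derivative ℂ S
        = G⁻¹ * (X * (C p * derivative ℂ Y) * (-(C p * Y)) ^ n) := by
      rw [← hkey, ← mul_assoc, PowerSeries.inv_mul_cancel _ hG0, one_mul]
    have e2 : X ^ (n + 1) ∣ X * (C p * derivative ℂ Y) * (-(C p * Y)) ^ n := by
      rw [pow_succ']
      exact mul_dvd_mul (Dvd.intro _ rfl) (pow_dvd_pow_of_dvd hXY' n)
    rw [e1]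
    exact Dvd.dvd.mul_left e2 _
  have h1 := (X_pow_dvd_iff.mp hdvd) n (by omega)
  rw [map_sub, sub_eq_zero, coeff_X_deriv] at h1
  rw [h1, hS, map_sum]
  congr 1
  apply Finset.sum_congr rfl
  intro j _
  rw [coeff_C_mul]

/-! ### The point mass -/

theorem unit_wprod (s : ℝ) (l : List ℕ) :
    wprod (RR s fun _ : Unit => ((Real.sqrt ((fun _ : Unit => (1:ℝ)) ()) : ℝ) : ℂ))
      (diagonal fun _ : Unit => (1:ℂ)) l = ((s ^ l.length : ℝ) : ℂ) • 1 := by
  have hU : (diagonal fun _ : Unit => (1:ℂ)) = 1 := diagonal_one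
  have hR : RR s (fun _ : Unit => ((Real.sqrt ((fun _ : Unit => (1:ℝ)) ()) : ℝ) : ℂ))
      = (s : ℂ) • 1 := by
    ext i j
    rw [RR, Matrix.sub_apply, Matrix.smul_apply, vecMulVec_apply]
    simp
  induction l with
  | nil => simp [wprod]
  | cons k l ih =>
    rw [wprod, ih, hR, hU, one_pow, mul_one, List.length_cons, Matrix.smul_mul, one_mul,
      smul_smul, pow_succ' s]
    push_cast
    rfl

theorem unit_Dser (b C : ℕ → ℝ) (hb0 : b 0 = 0) (hC0 : C 0 = 1)
    (hren : ∀ n, 1 ≤ n → C n = ∑ p ∈ antidiagonal n, b p.1 * C p.2) (s : ℝ) (n : ℕ) :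
    PowerSeries.coeff n (Dser b C
      (RR s fun _ : Unit => ((Real.sqrt ((fun _ : Unit => (1:ℝ)) ()) : ℝ) : ℂ))
      (diagonal fun _ : Unit => (1:ℂ)))
      = ((∑ p ∈ antidiagonal n, (p.1 : ℝ) * b p.1 *
          W b p.2 (fun l => 1 - s ^ (l.length + 1)) : ℝ) : ℂ) := by
  rw [Dser, PowerSeries.coeff_mk]
  push_cast
  apply Finset.sum_congr rfl
  intro p _
  rw [Dser_words b C hb0 hC0 hren]
  congr 1
  have h1 : ((W b p.2 (fun l => 1 - s ^ (l.length + 1)) : ℝ) : ℂ)
      = W b p.2 (fun l : List ℕ => (((1 - s ^ (l.length + 1) : ℝ)) : ℂ)) := by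
    have := W_map b (Complex.ofRealCLM : ℝ →L[ℝ] ℂ).toLinearMap p.2
      (fun l : List ℕ => 1 - s ^ (l.length + 1))
    exact this
  rw [h1]
  congr 1
  funext l
  rw [unit_wprod, trace_sub, trace_smul, show (diagonal fun _ : Unit => (1:ℂ)) = 1 from
    diagonal_one, one_pow, trace_one, List.length_cons]
  simp

end partM3

section partM3b

open Finset Matrix

/-- the truncated logarithmic expression -/
noncomputable def ee (p : ℝ) (Y : PowerSeries ℂ) (m : ℕ) : ℂ :=
  (p : ℂ) * PowerSeries.coeff (m + 1) Y + (1 - (p : ℂ)) *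
    ∑ j ∈ range m, ((-1) ^ j * (p : ℂ) ^ (j + 1) / ((j : ℂ) + 2)) *
      PowerSeries.coeff (m + 1) (Y ^ (j + 2))

theorem ee_eq (p : ℝ) (hp0 : 0 < p) (Y G D : PowerSeries ℂ) (hY0 : PowerSeries.coeff 0 Y = 0)
    (hG : G = 1 + PowerSeries.C (p : ℂ) * Y)
    (hGD : G * D = PowerSeries.X * PowerSeries.derivative ℂ G) (m : ℕ) :
    ((m : ℂ) + 1) * p * ee p Y m
      = ((m : ℂ) + 1) * p * PowerSeries.coeff (m + 1) Y - (1 - p) * PowerSeries.coeff (m + 1) D
      := by
  have h1 := log_coeff Y G D p hY0 hG hGD (m + 1)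
  rw [Finset.sum_range_succ'] at h1
  rw [h1, ee, mul_add, mul_add]
  have h2 : ∑ k ∈ range m, (-1) ^ (k + 1) * (p : ℂ) ^ (k + 1 + 1) / (((k + 1 : ℕ) : ℂ) + 1) *
        PowerSeries.coeff (m + 1) (Y ^ (k + 1 + 1))
      = -(p * ∑ j ∈ range m, ((-1) ^ j * (p : ℂ) ^ (j + 1) / ((j : ℂ) + 2)) *
      PowerSeries.coeff (m + 1) (Y ^ (j + 2))) := by
    rw [Finset.mul_sum, ← Finset.sum_neg_distrib]
    apply Finset.sum_congr rfl
    intro j _
    have e1 : (((j + 1 : ℕ) : ℂ) + 1) = (j : ℂ) + 2 := by push_cast; ring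
    rw [e1, pow_succ (-1 : ℂ) j, pow_succ (p : ℂ) (j + 1)]
    ring
  rw [h2]
  push_cast
  simp only [pow_zero, zero_add, pow_one, one_mul, div_one]
  ring

theorem core_re (α : ℝ) (hα0 : 0 < α) (hα1 : α ≤ 1) {ι : Type} [Fintype ι] [DecidableEq ι]
    (w : ι → ℝ) (x : ι → ℂ) (hw : ∀ i, 0 ≤ w i) (hw1 : ∑ i, w i = 1) (hx : ∀ i, ‖x i‖ = 1)
    (Y : PowerSeries ℂ)
    (hY : ∀ k, PowerSeries.coeff k Y = if k = 0 then 0 else
      ((2 * (α / (k + α)) : ℝ) : ℂ) * ∑ i, (w i : ℂ) * x i ^ k)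
    (Y0 : PowerSeries ℂ)
    (hY0 : ∀ k, PowerSeries.coeff k Y0 = if k = 0 then 0 else
      ((2 * (α / (k + α)) : ℝ) : ℂ))
    (p : ℝ) (hp0 : 0 < p) (hp1 : p < 1) (m : ℕ) :
    (ee p Y m).re ≤ (ee p Y0 m).re := by
  set C : ℕ → ℝ := cs α with hC
  set b : ℕ → ℝ := bseq C with hb
  have hC0 : C 0 = 1 := by simp [hC, cs]
  have hb0 : b 0 = 0 := bseq_zero _
  have hbn : ∀ k, 0 ≤ b k := bseq_nonneg C hC0 (cs_pos α hα0) (cs_log α hα0 hα1)
  have hren : ∀ n, 1 ≤ n → C n = ∑ p ∈ antidiagonal n, b p.1 * C p.2 := by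
    intro n hn
    rw [Finset.Nat.sum_antidiagonal_eq_sum_range_succ (fun i j => b i * C j)]
    exact bseq_renewal C hC0 n hn
  set s : ℝ := 1 - 3 * p / 2 with hs
  have hs1 : s < 1 := by linarith
  have hs2 : -(1 / 2) < s := by linarith
  have hCn : ∀ n : ℕ, n ≠ 0 → C n = 4 / 3 * (α / (n + α)) := by
    intro n hn
    simp only [hC, cs]
    rw [if_neg hn]
  set ev : ι → ℂ := fun i => ((Real.sqrt (w i) : ℝ) : ℂ) with hev
  have hevw : ∀ i, star (ev i) * ev i = (w i : ℂ) := by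
    intro i
    simp only [hev]
    rw [Complex.star_def, Complex.conj_ofReal, ← Complex.ofReal_mul, Real.mul_self_sqrt (hw i)]
  set D : PowerSeries ℂ := Dser b C (RR s ev) (diagonal x) with hD
  set D0 : PowerSeries ℂ := Dser b C
      (RR s fun _ : Unit => ((Real.sqrt ((fun _ : Unit => (1:ℝ)) ()) : ℝ) : ℂ))
      (diagonal fun _ : Unit => (1:ℂ)) with hD0
  have hYz : PowerSeries.coeff 0 Y = 0 := by rw [hY, if_pos rfl]
  have hY0z : PowerSeries.coeff 0 Y0 = 0 := by rw [hY0, if_pos rfl]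
  have hid : (1 + PowerSeries.C (p : ℂ) * Y) * D
      = PowerSeries.X * PowerSeries.derivative ℂ (1 + PowerSeries.C (p : ℂ) * Y) := by
    apply Dser_identity b C hb0 hC0 hren s x w hw hw1
    intro n
    rw [map_add, PowerSeries.coeff_one, PowerSeries.coeff_C_mul, hY]
    split_ifs with h
    · simp
    · rw [hCn n h, hs, zero_add]
      push_cast
      ring
  have hid0 : (1 + PowerSeries.C (p : ℂ) * Y0) * D0
      = PowerSeries.X * PowerSeries.derivative ℂ (1 + PowerSeries.C (p : ℂ) * Y0) := by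
    apply Dser_identity b C hb0 hC0 hren s (fun _ : Unit => (1:ℂ)) (fun _ : Unit => (1:ℝ))
      (fun _ => zero_le_one) (by simp)
    intro n
    rw [map_add, PowerSeries.coeff_one, PowerSeries.coeff_C_mul, hY0]
    split_ifs with h
    · simp
    · rw [hCn n h, hs, zero_add]
      push_cast
      simp
      ring
  have h1 := ee_eq p hp0 Y _ D hYz rfl hid m
  have h2 := ee_eq p hp0 Y0 _ D0 hY0z rfl hid0 m
  -- real parts
  set c : ℂ := ∑ i, (w i : ℂ) * x i ^ (m + 1) with hc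
  set ν : ℝ := α / (((m + 1 : ℕ) : ℝ) + α) with hν
  have hYn : PowerSeries.coeff (m + 1) Y = ((2 * ν : ℝ) : ℂ) * c := by
    rw [hY, if_neg (by omega)]
  have hY0n : PowerSeries.coeff (m + 1) Y0 = ((2 * ν : ℝ) : ℂ) := by
    rw [hY0, if_neg (by omega)]
  have hev1 : star ev ⬝ᵥ ev = 1 := by
    rw [dotProduct]
    have : ∀ i ∈ (Finset.univ : Finset ι), star ev i * ev i = (w i : ℂ) := fun i _ => hevw i
    rw [Finset.sum_congr rfl this]
    exact_mod_cast hw1
  have hcn : star ev ⬝ᵥ (diagonal x ^ (m + 1) *ᵥ ev) = c := by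
    rw [Matrix.diagonal_pow, dotProduct, hc]
    apply Finset.sum_congr rfl
    intro i _
    rw [mulVec_diagonal, Pi.star_apply, Pi.pow_apply, ← hevw i]
    ring
  have hlow := Dser_lower b C hbn hb0 hC0 hren s hs1 hs2 x hx ev hev1 (m + 1) (1 - c.re)
    (by rw [hcn]; ring)
  have hunit := unit_Dser b C hb0 hC0 hren s (m + 1)
  rw [← hD0] at hunit
  set Q : ℝ := ∑ p ∈ antidiagonal (m + 1), (p.1 : ℝ) * b p.1 *
    W b p.2 (fun l => 1 - s ^ (l.length + 1)) with hQ
  rw [← hD, hCn (m + 1) (by omega), ← hν] at hlow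
  have h1' := congrArg Complex.re h1
  have h2' := congrArg Complex.re h2
  have e1 : ∀ z : ℂ, (((m : ℂ) + 1) * p * z).re = ((m : ℝ) + 1) * p * z.re := by
    intro z
    have : (((m : ℂ) + 1) * p) = ((((m : ℝ) + 1) * p : ℝ) : ℂ) := by push_cast; rfl
    rw [this, Complex.re_ofReal_mul]
  have e2 : ∀ z : ℂ, ((1 - (p : ℂ)) * z).re = (1 - p) * z.re := by
    intro z
    have : (1 - (p : ℂ)) = ((1 - p : ℝ) : ℂ) := by push_cast; rfl
    rw [this, Complex.re_ofReal_mul]
  rw [Complex.sub_re, e1, e1, e2, hYn, Complex.re_ofReal_mul] at h1'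
  rw [Complex.sub_re, e1, e1, e2, hY0n, Complex.ofReal_re, hunit, Complex.ofReal_re] at h2'
  have hmp : 0 < ((m : ℝ) + 1) * p := by positivity
  apply le_of_mul_le_mul_left _ hmp
  rw [h1', h2']
  have hp1' : 0 < 1 - p := by linarith
  have e3 : (1 - s) * (3 / (1 + 2 * s)) = 3 * p / 2 / (1 - p) := by
    rw [hs]
    rw [show 1 + 2 * (1 - 3 * p / 2) = 3 * (1 - p) by ring]
    field_simp
    ring
  rw [e3] at hlow
  have hlow2 := mul_le_mul_of_nonneg_left hlow hp1'.le
  have e4 : (1 - p) * (Q - 3 * p / 2 / (1 - p) * (1 - c.re) * (((m + 1 : ℕ) : ℝ) * (4 / 3 * ν)))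
      = (1 - p) * Q - 2 * ((m : ℝ) + 1) * p * ν * (1 - c.re) := by
    push_cast
    field_simp
    ring
  rw [e4] at hlow2
  linarith

theorem ee_rescale (p : ℝ) (Y : PowerSeries ℂ) (m : ℕ) (ζ : ℂ) :
    ee p (PowerSeries.rescale ζ Y) m = ζ ^ (m + 1) * ee p Y m := by
  rw [ee, ee, PowerSeries.coeff_rescale]
  have h1 : ∀ j ∈ range m, ((-1) ^ j * (p : ℂ) ^ (j + 1) / ((j : ℂ) + 2)) *
      PowerSeries.coeff (m + 1) ((PowerSeries.rescale ζ Y) ^ (j + 2))
      = ζ ^ (m + 1) * (((-1) ^ j * (p : ℂ) ^ (j + 1) / ((j : ℂ) + 2)) *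
      PowerSeries.coeff (m + 1) (Y ^ (j + 2))) := by
    intro j _
    rw [← map_pow, PowerSeries.coeff_rescale]
    ring
  rw [Finset.sum_congr rfl h1, ← Finset.mul_sum]
  ring

theorem core (α : ℝ) (hα0 : 0 < α) (hα1 : α ≤ 1) {ι : Type} [Fintype ι]
    (w : ι → ℝ) (x : ι → ℂ) (hw : ∀ i, 0 ≤ w i) (hw1 : ∑ i, w i = 1) (hx : ∀ i, ‖x i‖ = 1)
    (Y : PowerSeries ℂ)
    (hY : ∀ k, PowerSeries.coeff k Y = if k = 0 then 0 else
      ((2 * (α / (k + α)) : ℝ) : ℂ) * ∑ i, (w i : ℂ) * x i ^ k)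
    (Y0 : PowerSeries ℂ)
    (hY0 : ∀ k, PowerSeries.coeff k Y0 = if k = 0 then 0 else
      ((2 * (α / (k + α)) : ℝ) : ℂ))
    (p : ℝ) (hp0 : 0 < p) (hp1 : p < 1) (m : ℕ) :
    ‖ee p Y m‖ ≤ (ee p Y0 m).re := by
  classical
  set z : ℂ := ee p Y m with hz
  obtain ⟨ζ, hζ1, hζ⟩ : ∃ ζ : ℂ, ‖ζ‖ = 1 ∧ ζ ^ (m + 1) * z = ((‖z‖ : ℝ) : ℂ) := by
    by_cases h0 : z = 0
    · refine ⟨1, by simp, ?_⟩
      rw [h0]
      simp
    · have hn : ‖z‖ ≠ 0 := norm_ne_zero_iff.mpr h0
      obtain ⟨ζ, hζ⟩ := IsAlgClosed.exists_pow_nat_eq (starRingEnd ℂ z / ((‖z‖ : ℝ) : ℂ))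
        (Nat.succ_pos m)
      refine ⟨ζ, ?_, ?_⟩
      · have h1 := congrArg norm hζ
        rw [norm_pow, norm_div, RCLike.norm_conj, Complex.norm_real, norm_norm,
          div_self hn] at h1
        exact (pow_eq_one_iff_of_nonneg (norm_nonneg _) (by omega)).mp h1
      · rw [show m + 1 = m.succ from rfl, hζ, div_mul_eq_mul_div, mul_comm, Complex.mul_conj,
          Complex.normSq_eq_norm_sq]
        have hn' : ((‖z‖ : ℝ) : ℂ) ≠ 0 := by exact_mod_cast hn
        field_simp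
        push_cast
        ring
  have h1 := core_re α hα0 hα1 w (fun i => ζ * x i) hw hw1
    (fun i => by rw [norm_mul, hζ1, hx i, one_mul]) (PowerSeries.rescale ζ Y) ?_ Y0 hY0 p hp0 hp1 m
  · rw [ee_rescale, ← hz, hζ, Complex.ofReal_re] at h1
    exact h1
  · intro k
    rw [PowerSeries.coeff_rescale, hY]
    split_ifs with h
    · simp
    · rw [← mul_assoc, mul_comm (ζ ^ k), mul_assoc, Finset.mul_sum]
      congr 1
      apply Finset.sum_congr rfl
      intro i _
      rw [mul_pow]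
      ring

end partM3b

section partL1

open Complex MeasureTheory Finset

/-! ### The binomial expansion in the ring of formal power series -/

open PowerSeries in
theorem binom_expansion (P Q : PowerSeries ℂ) (β : ℂ) (hP : coeff 0 P = 1) (hQ : coeff 0 Q = 1)
    (hPQ : P * derivative ℂ Q = C β * derivative ℂ P * Q)
    (bb : ℕ → ℂ) (hb0 : bb 0 = 1) (hb : ∀ k : ℕ, bb (k + 1) * (k + 1) = bb k * (β - k)) (N : ℕ) :
    coeff N Q = ∑ k ∈ range (N + 1), bb k * coeff N ((P - 1) ^ k) := by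
  set Y : PowerSeries ℂ := P - 1 with hY
  have hY0 : coeff 0 Y = 0 := by
    rw [hY, map_sub, hP]
    simp
  have hdY : derivative ℂ Y = derivative ℂ P := by
    rw [hY, map_sub, derivative_one, sub_zero]
  have hPY : P = 1 + Y := by
    rw [hY]
    ring
  set V : ℕ → PowerSeries ℂ := fun N => ∑ k ∈ range (N + 1), C (bb k) * Y ^ k with hV
  have hkey : ∀ N : ℕ, P * derivative ℂ (V N)
      = C β * V N * derivative ℂ P - (C β - (N : PowerSeries ℂ)) * C (bb N) * Y ^ N
        * derivative ℂ P := by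
    intro N
    induction N with
    | zero =>
      simp only [hV, zero_add, Finset.sum_range_one, pow_zero, mul_one, derivative_C, mul_zero,
        Nat.cast_zero, sub_zero]
      ring
    | succ N ih =>
      have e1 : V (N + 1) = V N + C (bb (N + 1)) * Y ^ (N + 1) := by
        simp only [hV]
        rw [Finset.sum_range_succ]
      have e2 : derivative ℂ (C (bb (N + 1)) * Y ^ (N + 1))
          = C (bb (N + 1)) * (((N : PowerSeries ℂ) + 1) * Y ^ N * derivative ℂ P) := by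
        rw [Derivation.leibniz, derivative_C, smul_zero, add_zero, derivative_pow, hdY,
          smul_eq_mul]
        push_cast
        simp
      have e3 : C (bb (N + 1)) * ((N : PowerSeries ℂ) + 1)
          = C (bb N) * (C β - (N : PowerSeries ℂ)) := by
        have := congrArg (C (R := ℂ)) (hb N)
        simpa using this
      rw [e1, map_add, mul_add, ih, e2]
      push_cast
      rw [hPY]
      rw [hPY] at ih
      linear_combination (Y ^ N * derivative ℂ (1 + Y)) * e3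
  have hD : P * derivative ℂ (Q - V N)
      = C β * (Q - V N) * derivative ℂ P + (C β - (N : PowerSeries ℂ)) * C (bb N) * Y ^ N
        * derivative ℂ P := by
    rw [map_sub, mul_sub, hPQ, hkey N]
    ring
  have hzero : ∀ k, k ≤ N → coeff k (Q - V N) = 0 := by
    intro k
    induction k using Nat.strong_induction_on with
    | _ k ih =>
      intro hk
      rcases k with _ | k
      · rw [map_sub, hQ]
        have : coeff 0 (V N) = 1 := by
          simp only [hV]
          rw [map_sum, Finset.sum_range_succ']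
          have h2 : ∀ i ∈ range N, coeff 0 (C (bb (i + 1)) * Y ^ (i + 1)) = 0 := by
            intro i _
            rw [coeff_C_mul, pow_succ, coeff_zero_eq_constantCoeff_apply, map_mul,
              ← coeff_zero_eq_constantCoeff_apply Y, hY0]
            simp
          rw [Finset.sum_eq_zero h2]
          simp [hb0]
        rw [this, sub_self]
      · have h3 := congrArg (coeff k) hD
        rw [map_add, coeff_mul] at h3
        have h4 : coeff k (C β * (Q - V N) * derivative ℂ P) = 0 := by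
          rw [mul_assoc, coeff_C_mul, coeff_mul]
          rw [Finset.sum_eq_zero, mul_zero]
          intro p hp
          have hp' : p.1 + p.2 = k := by simpa using hp
          rw [ih p.1 (by omega) (by omega), zero_mul]
        have h5 : coeff k ((C β - (N : PowerSeries ℂ)) * C (bb N) * Y ^ N
            * derivative ℂ P) = 0 := by
          have hXY : X ∣ Y := by
            rw [X_dvd_iff, ← coeff_zero_eq_constantCoeff_apply, hY0]
          have hXN : X ^ N ∣ (C β - (N : PowerSeries ℂ)) * C (bb N) * Y ^ N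
              * derivative ℂ P :=
            Dvd.dvd.mul_right (Dvd.dvd.mul_left (pow_dvd_pow_of_dvd hXY N) _) _
          exact (X_pow_dvd_iff.mp hXN) k (by omega)
        rw [h4, h5, add_zero, Finset.sum_eq_single (0, k)] at h3
        · simp only [hP, coeff_derivative, one_mul] at h3
          have h6 : ((k : ℂ) + 1) ≠ 0 := by exact_mod_cast Nat.succ_ne_zero k
          exact (mul_eq_zero.mp h3).resolve_right h6
        · rintro ⟨i, j⟩ hij hne
          have hij' : i + j = k := by simpa using hij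
          have hj : j < k := by
            rcases Nat.eq_zero_or_pos i with h0 | h0
            · exfalso
              apply hne
              rw [h0] at hij'
              rw [h0, show j = k by omega]
            · omega
          simp only [coeff_derivative]
          rw [ih (j + 1) (by omega) (by omega)]
          ring
        · intro h
          exact absurd (by simp) h
  have h7 := hzero N le_rfl
  rw [map_sub, sub_eq_zero] at h7
  rw [h7]
  simp only [hV]
  rw [map_sum]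
  apply Finset.sum_congr rfl
  intro k _
  rw [coeff_C_mul]

/-! ### Beta integrals -/

/-- the beta moments -/
noncomputable def J (β : ℝ) (k : ℕ) : ℝ := ∫ x in (0:ℝ)..1, x ^ ((k:ℝ) - β) * (1 - x) ^ β

theorem J_int (β : ℝ) (h0 : 0 < β) (h1 : β < 1) (k : ℕ) :
    IntervalIntegrable (fun x : ℝ => x ^ ((k:ℝ) - β) * (1 - x) ^ β) volume 0 1 := by
  have hk : (0:ℝ) ≤ k := Nat.cast_nonneg k
  apply IntervalIntegrable.mul_continuousOn
  · exact intervalIntegral.intervalIntegrable_rpow' (by linarith)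
  · apply Continuous.continuousOn
    exact (continuous_const.sub continuous_id).rpow_const (fun _ => Or.inr h0.le)

theorem J_pos (β : ℝ) (h0 : 0 < β) (h1 : β < 1) (k : ℕ) : 0 < J β k := by
  apply intervalIntegral.intervalIntegral_pos_of_pos_on (J_int β h0 h1 k)
  · intro x hx
    exact mul_pos (Real.rpow_pos_of_pos hx.1 _) (Real.rpow_pos_of_pos (by linarith [hx.2]) _)
  · norm_num

theorem J_rec (β : ℝ) (h0 : 0 < β) (h1 : β < 1) (k : ℕ) :
    (k + 2) * J β (k + 1) = (k + 1 - β) * J β k := by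
  have hk : (0:ℝ) ≤ k := Nat.cast_nonneg k
  have hint : IntervalIntegrable (fun x : ℝ => (k + 1 - β) * (x ^ ((k:ℝ) - β) * (1 - x) ^ β)
      - (k + 2) * (x ^ (((k + 1 : ℕ):ℝ) - β) * (1 - x) ^ β)) volume 0 1 :=
    ((J_int β h0 h1 k).const_mul _).sub ((J_int β h0 h1 (k + 1)).const_mul _)
  have h2 := intervalIntegral.integral_eq_sub_of_hasDerivAt_of_le
    (f := fun x : ℝ => x ^ ((k:ℝ) + 1 - β) * (1 - x) ^ (1 + β))
    (show (0:ℝ) ≤ 1 by norm_num) ?_ ?_ hint
  · rw [intervalIntegral.integral_sub ((J_int β h0 h1 k).const_mul _)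
      ((J_int β h0 h1 (k + 1)).const_mul _), intervalIntegral.integral_const_mul,
      intervalIntegral.integral_const_mul] at h2
    have h3 : (0:ℝ) ^ ((k:ℝ) + 1 - β) = 0 := Real.zero_rpow (by linarith)
    have h4 : (1 - 1 : ℝ) ^ (1 + β) = 0 := by
      rw [sub_self]
      exact Real.zero_rpow (by linarith)
    simp only [h3, h4] at h2
    unfold J
    linarith
  · apply Continuous.continuousOn
    exact (continuous_id.rpow_const (fun _ => Or.inr (by linarith))).mul
      ((continuous_const.sub continuous_id).rpow_const (fun _ => Or.inr (by linarith)))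
  · intro x hx
    have hx0 : x ≠ 0 := hx.1.ne'
    have hx1 : 1 - x ≠ 0 := by linarith [hx.2]
    have d1 : HasDerivAt (fun x : ℝ => x ^ ((k:ℝ) + 1 - β))
        (((k:ℝ) + 1 - β) * x ^ ((k:ℝ) + 1 - β - 1)) x :=
      Real.hasDerivAt_rpow_const (Or.inl hx0)
    have d2 : HasDerivAt (fun x : ℝ => (1 - x) ^ (1 + β))
        ((-1) * (1 + β) * (1 - x) ^ (1 + β - 1)) x := by
      have := (((hasDerivAt_id x).const_sub 1).rpow_const (p := 1 + β) (Or.inl hx1))
      simpa using this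
    have d3 := d1.mul d2
    convert! d3 using 1
    have e1 : x ^ ((k:ℝ) + 1 - β - 1) = x ^ ((k:ℝ) - β) := by
      congr 1
      ring
    have e2 : x ^ ((k:ℝ) + 1 - β) = x * x ^ ((k:ℝ) - β) := by
      rw [show (k:ℝ) + 1 - β = 1 + ((k:ℝ) - β) by ring, Real.rpow_add hx.1, Real.rpow_one]
    have e3 : (1 - x) ^ (1 + β) = (1 - x) * (1 - x) ^ β := by
      rw [Real.rpow_add (by linarith [hx.2]), Real.rpow_one]
    have e4 : (1 - x) ^ (1 + β - 1) = (1 - x) ^ β := by
      congr 1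
      ring
    have e5 : x ^ (((k + 1 : ℕ):ℝ) - β) = x * x ^ ((k:ℝ) - β) := by
      rw [← e2]
      congr 1
      push_cast
      ring
    rw [e1, e2, e3, e4, e5]
    ring

/-! ### Coefficients as integrals over a circle -/

theorem mean_coeff (h : ℂ → ℂ) (hh : DifferentiableOn ℂ h (Metric.ball 0 1)) (ρ : ℝ)
    (h0 : 0 < ρ) (h1 : ρ < 1) (k : ℕ) :
    ∫ t in (0:ℝ)..(2 * Real.pi), exp (-(t:ℂ) * I) ^ k * h (circleMap 0 ρ t)
      = 2 * Real.pi * (ρ:ℂ) ^ k * (iteratedDeriv k h 0 / (k.factorial : ℂ)) := by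
  have hd : DifferentiableOn ℂ h (Metric.closedBall 0 ρ) :=
    hh.mono (Metric.closedBall_subset_ball h1)
  have h2 := hd.circleIntegral_one_div_sub_center_pow_smul h0 k
  rw [circleIntegral] at h2
  have hρ : (ρ:ℂ) ≠ 0 := by exact_mod_cast h0.ne'
  have e1 : ∀ t : ℝ, deriv (circleMap 0 ρ) t • (1 / (circleMap 0 ρ t - 0) ^ (k + 1)) •
      h (circleMap 0 ρ t) = (I * ((ρ:ℂ) ^ k)⁻¹) * (exp (-(t:ℂ) * I) ^ k * h (circleMap 0 ρ t)) := by
    intro t
    rw [deriv_circleMap, sub_zero]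
    have hc : circleMap 0 ρ t = ρ * exp (t * I) := by simp [circleMap]
    have hne : exp (t * I) ≠ 0 := exp_ne_zero _
    have hinv : exp (-(t:ℂ) * I) = (exp (t * I))⁻¹ := by
      rw [← Complex.exp_neg]
      congr 1
      ring
    simp only [smul_eq_mul]
    rw [hinv]
    rw [show (circleMap 0 ρ t) = ρ * exp (t * I) from hc]
    generalize h (ρ * exp (t * I)) = H
    generalize exp (t * I) = E at hne ⊢
    rw [mul_pow, inv_pow, pow_succ (ρ:ℂ) k, pow_succ E k]
    field_simp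
  rw [intervalIntegral.integral_congr (fun t _ => e1 t), intervalIntegral.integral_const_mul] at h2
  have hI : I ≠ 0 := I_ne_zero
  have hk : (k.factorial : ℂ) ≠ 0 := by exact_mod_cast k.factorial_ne_zero
  rw [smul_eq_mul] at h2
  have h3 : (∫ t in (0:ℝ)..(2 * Real.pi), exp (-(t:ℂ) * I) ^ k * h (circleMap 0 ρ t))
      = (I * ((ρ:ℂ) ^ k)⁻¹)⁻¹ * ((2 * Real.pi * I / k.factorial) * iteratedDeriv k h 0) := by
    rw [← h2, ← mul_assoc, inv_mul_cancel₀ (mul_ne_zero hI (inv_ne_zero (pow_ne_zero _ hρ))),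
      one_mul]
  rw [h3]
  field_simp

theorem mean_anti (h : ℂ → ℂ) (hh : DifferentiableOn ℂ h (Metric.ball 0 1)) (ρ : ℝ)
    (h0 : 0 < ρ) (h1 : ρ < 1) (k : ℕ) (hk : 1 ≤ k) :
    ∫ t in (0:ℝ)..(2 * Real.pi), exp ((t:ℂ) * I) ^ k * h (circleMap 0 ρ t) = 0 := by
  have hg : DifferentiableOn ℂ (fun z => z ^ k * h z) (Metric.ball 0 1) :=
    (differentiableOn_id.pow k).mul hh
  have h2 := mean_coeff (fun z => z ^ k * h z) hg ρ h0 h1 0
  have hρ : (ρ:ℂ) ≠ 0 := by exact_mod_cast h0.ne'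
  simp only [pow_zero, one_mul, iteratedDeriv_zero, zero_pow (show k ≠ 0 by omega), zero_mul,
    zero_div, mul_zero] at h2
  have e1 : ∀ t : ℝ, circleMap 0 ρ t ^ k * h (circleMap 0 ρ t)
      = (ρ:ℂ) ^ k * (exp ((t:ℂ) * I) ^ k * h (circleMap 0 ρ t)) := by
    intro t
    have hc : circleMap 0 ρ t = ρ * exp (t * I) := by simp [circleMap]
    nth_rewrite 1 [hc]
    rw [mul_pow]
    ring
  rw [intervalIntegral.integral_congr (fun t _ => e1 t), intervalIntegral.integral_const_mul] at h2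
  exact (mul_eq_zero.mp h2).resolve_left (pow_ne_zero _ hρ)

theorem moments (h : ℂ → ℂ) (hh : DifferentiableOn ℂ h (Metric.ball 0 1)) (hh0 : h 0 = 1)
    (ρ : ℝ) (h0 : 0 < ρ) (h1 : ρ < 1) (k : ℕ) :
    ∫ t in (0:ℝ)..(2 * Real.pi), exp (-(t:ℂ) * I) ^ k *
        (((h (circleMap 0 ρ t)).re / (2 * Real.pi) : ℝ) : ℂ)
      = if k = 0 then 1 else (ρ:ℂ) ^ k * (iteratedDeriv k h 0 / (k.factorial : ℂ)) / 2 := by
  have hpi : (Real.pi : ℂ) ≠ 0 := by exact_mod_cast Real.pi_ne_zero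
  have hcont : Continuous (fun t : ℝ => h (circleMap 0 ρ t)) := by
    have : ContinuousOn h (Metric.ball 0 1) := hh.continuousOn
    refine this.comp_continuous (continuous_circleMap 0 ρ) ?_
    intro t
    rw [Metric.mem_ball, dist_zero_right]
    simp [circleMap, abs_of_pos h0, h1]
  have e1 : ∀ t : ℝ, exp (-(t:ℂ) * I) ^ k *
        (((h (circleMap 0 ρ t)).re / (2 * Real.pi) : ℝ) : ℂ)
      = (1 / (4 * Real.pi)) * (exp (-(t:ℂ) * I) ^ k * h (circleMap 0 ρ t))
        + (1 / (4 * Real.pi)) *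
          starRingEnd ℂ (exp ((t:ℂ) * I) ^ k * h (circleMap 0 ρ t)) := by
    intro t
    have e2 : starRingEnd ℂ (exp ((t:ℂ) * I)) = exp (-(t:ℂ) * I) := by
      rw [← Complex.exp_conj]
      simp
    rw [map_mul, map_pow, e2]
    have e3 : (((h (circleMap 0 ρ t)).re / (2 * Real.pi) : ℝ) : ℂ)
        = (h (circleMap 0 ρ t) + starRingEnd ℂ (h (circleMap 0 ρ t))) / (4 * Real.pi) := by
      rw [Complex.add_conj]
      push_cast
      field_simp
      ring
    rw [e3]
    field_simp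
  have hconj : ∫ t in (0:ℝ)..(2 * Real.pi),
      starRingEnd ℂ (exp ((t:ℂ) * I) ^ k * h (circleMap 0 ρ t))
      = starRingEnd ℂ (∫ t in (0:ℝ)..(2 * Real.pi), exp ((t:ℂ) * I) ^ k * h (circleMap 0 ρ t)) := by
    rw [intervalIntegral.integral_of_le (by positivity),
      intervalIntegral.integral_of_le (by positivity)]
    exact integral_conj
  rw [intervalIntegral.integral_congr (fun t _ => e1 t), intervalIntegral.integral_add,
    intervalIntegral.integral_const_mul, intervalIntegral.integral_const_mul, hconj,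
    mean_coeff h hh ρ h0 h1 k]
  · rcases Nat.eq_zero_or_pos k with rfl | hk
    · have h3 := mean_coeff h hh ρ h0 h1 0
      simp only [pow_zero, one_mul, iteratedDeriv_zero, Nat.factorial_zero, Nat.cast_one, div_one,
        mul_one, hh0] at h3
      simp only [pow_zero, one_mul, iteratedDeriv_zero, Nat.factorial_zero, Nat.cast_one, div_one,
        mul_one, hh0, if_true]
      rw [h3]
      simp only [map_mul, map_ofNat, Complex.conj_ofReal]
      field_simp
      ring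
    · rw [mean_anti h hh ρ h0 h1 k hk, map_zero, mul_zero, add_zero, if_neg (by omega)]
      field_simp
      ring
  · exact ((continuous_const.mul ((by fun_prop : Continuous fun t : ℝ =>
      exp (-(t:ℂ) * I) ^ k).mul hcont))).intervalIntegrable _ _
  · exact (continuous_const.mul (Complex.continuous_conj.comp ((by fun_prop :
      Continuous fun t : ℝ => exp ((t:ℂ) * I) ^ k).mul hcont))).intervalIntegrable _ _

/-! ### Taylor series -/

/-- The Taylor series of a function at `0`. -/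
noncomputable def T (φ : ℂ → ℂ) : PowerSeries ℂ :=
  PowerSeries.mk fun k => iteratedDeriv k φ 0 / (k.factorial : ℂ)

theorem T_coeff (φ : ℂ → ℂ) (k : ℕ) :
    PowerSeries.coeff k (T φ) = iteratedDeriv k φ 0 / (k.factorial : ℂ) := by
  rw [T, PowerSeries.coeff_mk]

theorem T_congr {φ ψ : ℂ → ℂ} (h : φ =ᶠ[nhds 0] ψ) : T φ = T ψ := by
  ext k
  rw [T_coeff, T_coeff, h.iteratedDeriv_eq k]

theorem T_mul {φ ψ : ℂ → ℂ} (hφ : AnalyticAt ℂ φ 0) (hψ : AnalyticAt ℂ ψ 0) :
    T (fun z => φ z * ψ z) = T φ * T ψ := by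
  ext n
  rw [T_coeff, PowerSeries.coeff_mul]
  have h1 := iteratedDeriv_fun_mul (n := n) (hφ.contDiffAt) (hψ.contDiffAt)
  rw [h1, Finset.Nat.sum_antidiagonal_eq_sum_range_succ
    (fun i j => PowerSeries.coeff i (T φ) * PowerSeries.coeff j (T ψ)) n, Finset.sum_div]
  apply Finset.sum_congr rfl
  intro i hi
  have hi' : i ≤ n := by
    have := Finset.mem_range.mp hi
    omega
  rw [T_coeff, T_coeff]
  have h2 : (n.choose i : ℂ) = n.factorial / (i.factorial * (n - i).factorial) := by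
    rw [Nat.cast_choose ℂ hi']
  rw [h2]
  have h3 : (n.factorial : ℂ) ≠ 0 := by exact_mod_cast n.factorial_ne_zero
  have h4 : (i.factorial : ℂ) ≠ 0 := by exact_mod_cast i.factorial_ne_zero
  have h5 : ((n - i).factorial : ℂ) ≠ 0 := by exact_mod_cast (n - i).factorial_ne_zero
  field_simp

theorem T_deriv (φ : ℂ → ℂ) : T (deriv φ) = PowerSeries.derivative ℂ (T φ) := by
  ext n
  rw [PowerSeries.coeff_derivative, T_coeff, T_coeff, iteratedDeriv_succ', Nat.factorial_succ]
  have h3 : (n.factorial : ℂ) ≠ 0 := by exact_mod_cast n.factorial_ne_zero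
  have h4 : (n : ℂ) + 1 ≠ 0 := by exact_mod_cast Nat.succ_ne_zero n
  push_cast
  field_simp

theorem T_id : T (fun z => z) = PowerSeries.X := by
  ext n
  rw [T_coeff, iteratedDeriv_fun_id_zero, PowerSeries.coeff_X]
  by_cases h : n = 1
  · subst h
    simp
  · simp [h]

end partL1

section partM4

open Complex MeasureTheory Finset

/-! ### Averaging over the parameter -/

/-- the weight `x^(-θ) (1-x)^(θ-1)`, written as a sum of two integrable terms -/
noncomputable def LL (θ x : ℝ) : ℝ :=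
  x ^ (1 - θ) * (1 - x) ^ (θ - 1) + x ^ (((0 : ℕ) : ℝ) - θ) * (1 - x) ^ θ

theorem K_int (θ : ℝ) (h0 : 0 < θ) (h1 : θ < 1) :
    IntervalIntegrable (fun x : ℝ => x ^ (1 - θ) * (1 - x) ^ (θ - 1)) volume 0 1 := by
  have e1 : IntervalIntegrable (fun x : ℝ => (1 - x) ^ (θ - 1)) volume 0 1 := by
    have e2 : IntervalIntegrable (fun x : ℝ => x ^ (θ - 1)) volume 1 0 :=
      intervalIntegral.intervalIntegrable_rpow' (by linarith)
    have e3 := e2.comp_sub_left 1
    simpa using e3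
  have e2 : (fun x : ℝ => x ^ (1 - θ) * (1 - x) ^ (θ - 1))
      = fun x : ℝ => (1 - x) ^ (θ - 1) * x ^ (1 - θ) := by
    funext x
    ring
  rw [e2]
  apply IntervalIntegrable.mul_continuousOn e1
  apply Continuous.continuousOn
  exact continuous_id.rpow_const (fun _ => Or.inr (by linarith))

theorem K_val (θ : ℝ) (h0 : 0 < θ) (h1 : θ < 1) :
    θ * ∫ x in (0:ℝ)..1, x ^ (1 - θ) * (1 - x) ^ (θ - 1) = (1 - θ) * J θ 0 := by
  have hint : IntervalIntegrable (fun x : ℝ => (1 - θ) * (x ^ (((0 : ℕ) : ℝ) - θ) * (1 - x) ^ θ)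
      - θ * (x ^ (1 - θ) * (1 - x) ^ (θ - 1))) volume 0 1 :=
    ((J_int θ h0 h1 0).const_mul _).sub ((K_int θ h0 h1).const_mul _)
  have h2 := intervalIntegral.integral_eq_sub_of_hasDerivAt_of_le
    (f := fun x : ℝ => x ^ (1 - θ) * (1 - x) ^ θ)
    (show (0:ℝ) ≤ 1 by norm_num) ?_ ?_ hint
  · rw [intervalIntegral.integral_sub ((J_int θ h0 h1 0).const_mul _)
      ((K_int θ h0 h1).const_mul _), intervalIntegral.integral_const_mul,
      intervalIntegral.integral_const_mul] at h2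
    have h3 : (0:ℝ) ^ (1 - θ) = 0 := Real.zero_rpow (by linarith)
    have h4 : (1 - 1 : ℝ) ^ θ = 0 := by
      rw [sub_self]
      exact Real.zero_rpow (by linarith)
    simp only [h3, h4] at h2
    unfold J
    linarith
  · apply Continuous.continuousOn
    exact (continuous_id.rpow_const (fun _ => Or.inr (by linarith))).mul
      ((continuous_const.sub continuous_id).rpow_const (fun _ => Or.inr (by linarith)))
  · intro x hx
    have hx0 : x ≠ 0 := hx.1.ne'
    have hx1 : 1 - x ≠ 0 := by linarith [hx.2]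
    have d1 : HasDerivAt (fun x : ℝ => x ^ (1 - θ)) ((1 - θ) * x ^ (1 - θ - 1)) x :=
      Real.hasDerivAt_rpow_const (Or.inl hx0)
    have d2 : HasDerivAt (fun x : ℝ => (1 - x) ^ θ) ((-1) * θ * (1 - x) ^ (θ - 1)) x := by
      have := (((hasDerivAt_id x).const_sub 1).rpow_const (p := θ) (Or.inl hx1))
      simpa using this
    have d3 := d1.mul d2
    convert! d3 using 1
    have e1 : x ^ (1 - θ - 1) = x ^ (((0 : ℕ) : ℝ) - θ) := by
      congr 1
      push_cast
      ring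
    rw [e1]
    ring

theorem LL_int (θ : ℝ) (h0 : 0 < θ) (h1 : θ < 1) :
    IntervalIntegrable (LL θ) volume 0 1 := (K_int θ h0 h1).add (J_int θ h0 h1 0)

theorem LL_val (θ : ℝ) (h0 : 0 < θ) (h1 : θ < 1) :
    ∫ x in (0:ℝ)..1, LL θ x = J θ 0 / θ := by
  have h2 := K_val θ h0 h1
  unfold LL
  rw [intervalIntegral.integral_add (K_int θ h0 h1) (J_int θ h0 h1 0)]
  have h3 : (∫ x in (0:ℝ)..1, x ^ (((0 : ℕ) : ℝ) - θ) * (1 - x) ^ θ) = J θ 0 := rfl
  rw [h3]
  have h4 : ∫ x in (0:ℝ)..1, x ^ (1 - θ) * (1 - x) ^ (θ - 1) = (1 - θ) * J θ 0 / θ := by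
    rw [eq_div_iff h0.ne']
    linarith
  rw [h4]
  field_simp
  ring

theorem LL_eq (θ x : ℝ) (hx0 : 0 < x) (hx1 : x < 1) :
    LL θ x = x ^ (-θ) * (1 - x) ^ (θ - 1) := by
  have h1 : x ^ (1 - θ) = x * x ^ (-θ) := by
    rw [show 1 - θ = 1 + -θ by ring, Real.rpow_add hx0, Real.rpow_one]
  have h2 : (1 - x) ^ θ = (1 - x) * (1 - x) ^ (θ - 1) := by
    have h3 : (1 - x) ^ (1 + (θ - 1)) = (1 - x) ^ (1:ℝ) * (1 - x) ^ (θ - 1) :=
      Real.rpow_add (by linarith) _ _
    rw [Real.rpow_one] at h3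
    rw [← h3]
    congr 1
    ring
  have h3 : x ^ (((0 : ℕ) : ℝ) - θ) = x ^ (-θ) := by
    congr 1
    push_cast
    ring
  rw [LL, h1, h2, h3]
  ring

/-- the averaged expression -/
noncomputable def SS (θ : ℝ) (Y : PowerSeries ℂ) (m : ℕ) : ℂ :=
  ((J θ 0 / θ : ℝ) : ℂ) * PowerSeries.coeff (m + 1) Y +
    ∑ j ∈ range m, ((-1) ^ j / ((j : ℂ) + 2) * (J θ j : ℂ)) *
      PowerSeries.coeff (m + 1) (Y ^ (j + 2))

/-- the integrand -/
noncomputable def gg (θ : ℝ) (Y : PowerSeries ℂ) (m : ℕ) (x : ℝ) : ℂ :=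
  PowerSeries.coeff (m + 1) Y * ((LL θ x : ℝ) : ℂ) +
    ∑ j ∈ range m, ((-1) ^ j / ((j : ℂ) + 2) * PowerSeries.coeff (m + 1) (Y ^ (j + 2))) *
      ((x ^ ((j:ℝ) - θ) * (1 - x) ^ θ : ℝ) : ℂ)

theorem gg_int1 (θ : ℝ) (h0 : 0 < θ) (h1 : θ < 1) (c : ℂ) :
    IntervalIntegrable (fun x => c * ((LL θ x : ℝ) : ℂ)) volume 0 1 := by
  have hi : IntervalIntegrable (fun x : ℝ => ((LL θ x : ℝ) : ℂ)) volume 0 1 :=
    ⟨(LL_int θ h0 h1).1.ofReal, (LL_int θ h0 h1).2.ofReal⟩
  exact hi.const_mul _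

theorem gg_int2 (θ : ℝ) (h0 : 0 < θ) (h1 : θ < 1) (c : ℂ) (j : ℕ) :
    IntervalIntegrable (fun x : ℝ => c * ((x ^ ((j:ℝ) - θ) * (1 - x) ^ θ : ℝ) : ℂ)) volume 0 1 := by
  have hi : IntervalIntegrable
      (fun x : ℝ => ((x ^ ((j:ℝ) - θ) * (1 - x) ^ θ : ℝ) : ℂ)) volume 0 1 :=
    ⟨(J_int θ h0 h1 j).1.ofReal, (J_int θ h0 h1 j).2.ofReal⟩
  exact hi.const_mul _

theorem gg_int (θ : ℝ) (h0 : 0 < θ) (h1 : θ < 1) (Y : PowerSeries ℂ) (m : ℕ) :
    IntervalIntegrable (gg θ Y m) volume 0 1 := by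
  refine (gg_int1 θ h0 h1 _).add ?_
  have := IntervalIntegrable.sum (μ := volume) (a := 0) (b := 1) (range m)
    (f := fun j => fun x : ℝ => ((-1) ^ j / ((j : ℂ) + 2) *
      PowerSeries.coeff (m + 1) (Y ^ (j + 2))) * ((x ^ ((j:ℝ) - θ) * (1 - x) ^ θ : ℝ) : ℂ))
    (fun j _ => gg_int2 θ h0 h1 _ j)
  convert! this using 1
  funext x
  rw [Finset.sum_apply]

theorem gg_val (θ : ℝ) (h0 : 0 < θ) (h1 : θ < 1) (Y : PowerSeries ℂ) (m : ℕ) :
    ∫ x in (0:ℝ)..1, gg θ Y m x = SS θ Y m := by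
  unfold gg
  rw [intervalIntegral.integral_add, intervalIntegral.integral_finsetSum,
    intervalIntegral.integral_const_mul, intervalIntegral.integral_ofReal, LL_val θ h0 h1, SS]
  · congr 1
    · ring
    · apply Finset.sum_congr rfl
      intro j _
      rw [intervalIntegral.integral_const_mul, intervalIntegral.integral_ofReal, J]
      ring
  · intro j _
    exact gg_int2 θ h0 h1 _ j
  · exact gg_int1 θ h0 h1 _
  · have := IntervalIntegrable.sum (μ := volume) (a := 0) (b := 1) (range m)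
      (f := fun j => fun x : ℝ => ((-1) ^ j / ((j : ℂ) + 2) *
        PowerSeries.coeff (m + 1) (Y ^ (j + 2))) * ((x ^ ((j:ℝ) - θ) * (1 - x) ^ θ : ℝ) : ℂ))
      (fun j _ => gg_int2 θ h0 h1 _ j)
    convert! this using 1
    funext x
    rw [Finset.sum_apply]

theorem gg_eq (θ : ℝ) (Y : PowerSeries ℂ) (m : ℕ) (x : ℝ) (hx0 : 0 < x) (hx1 : x < 1) :
    gg θ Y m x = ((x ^ (-1 - θ) * (1 - x) ^ (θ - 1) : ℝ) : ℂ) * ee x Y m := by
  rw [gg, ee, mul_add, LL_eq θ x hx0 hx1, Finset.mul_sum, Finset.mul_sum]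
  have h1 : x ^ (-θ) = x * x ^ (-1 - θ) := by
    have h3 : x ^ (1 + (-1 - θ)) = x ^ (1:ℝ) * x ^ (-1 - θ) := Real.rpow_add hx0 _ _
    rw [Real.rpow_one] at h3
    rw [← h3]
    congr 1
    ring
  have h2 : (1 - x) ^ θ = (1 - x) * (1 - x) ^ (θ - 1) := by
    have h3 : (1 - x) ^ (1 + (θ - 1)) = (1 - x) ^ (1:ℝ) * (1 - x) ^ (θ - 1) :=
      Real.rpow_add (by linarith) _ _
    rw [Real.rpow_one] at h3
    rw [← h3]
    congr 1
    ring
  congr 1
  · rw [h1]
    push_cast
    ring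
  · apply Finset.sum_congr rfl
    intro j _
    have h4 : x ^ ((j:ℝ) - θ) = x ^ (j + 1) * x ^ (-1 - θ) := by
      have h3 : x ^ (((j + 1 : ℕ) : ℝ) + (-1 - θ)) = x ^ (((j + 1 : ℕ) : ℝ)) * x ^ (-1 - θ) :=
        Real.rpow_add hx0 _ _
      rw [Real.rpow_natCast] at h3
      rw [← h3]
      congr 1
      push_cast
      ring
    rw [h4, h2]
    push_cast
    ring

theorem average (θ : ℝ) (h0 : 0 < θ) (h1 : θ < 1) (m : ℕ) (Y Y0 : PowerSeries ℂ)
    (hdom : ∀ p : ℝ, 0 < p → p < 1 → ‖ee p Y m‖ ≤ (ee p Y0 m).re) :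
    ‖SS θ Y m‖ ≤ (SS θ Y0 m).re := by
  have hre : (SS θ Y0 m).re = ∫ x in (0:ℝ)..1, (gg θ Y0 m x).re := by
    rw [← gg_val θ h0 h1 Y0 m]
    have := (Complex.reCLM.intervalIntegral_comp_comm
      (μ := volume) (a := 0) (b := 1) (f := gg θ Y0 m) (gg_int θ h0 h1 Y0 m))
    simpa using this.symm
  have hint : IntervalIntegrable (fun x => (gg θ Y0 m x).re) volume 0 1 :=
    ⟨(gg_int θ h0 h1 Y0 m).1.re, (gg_int θ h0 h1 Y0 m).2.re⟩
  rw [hre, ← gg_val θ h0 h1 Y m]
  apply intervalIntegral.norm_integral_le_of_norm_le (by norm_num) _ hint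
  have hne : ∀ᵐ t : ℝ ∂volume, t ≠ 1 := by
    simp [ae_iff, measure_singleton]
  filter_upwards [hne] with t ht1 ht
  have ht0 : 0 < t := ht.1
  have ht2 : t < 1 := lt_of_le_of_ne ht.2 ht1
  rw [gg_eq θ Y m t ht0 ht2, gg_eq θ Y0 m t ht0 ht2, Complex.re_ofReal_mul, norm_mul,
    Complex.norm_real]
  have hpos : 0 ≤ t ^ (-1 - θ) * (1 - t) ^ (θ - 1) :=
    mul_nonneg (Real.rpow_nonneg ht0.le _) (Real.rpow_nonneg (by linarith) _)
  rw [Real.norm_of_nonneg hpos]
  exact mul_le_mul_of_nonneg_left (hdom t ht0 ht2) hpos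

/-- expansion of the power `1 + θ` -/
theorem coeff_power (θ : ℝ) (h0 : 0 < θ) (h1 : θ < 1) (P Q : PowerSeries ℂ)
    (hP : PowerSeries.coeff 0 P = 1) (hQ : PowerSeries.coeff 0 Q = 1)
    (hPQ : P * PowerSeries.derivative ℂ Q
      = PowerSeries.C (1 + θ : ℂ) * PowerSeries.derivative ℂ P * Q) (m : ℕ) :
    PowerSeries.coeff (m + 1) Q = (((1 + θ) * θ / J θ 0 : ℝ) : ℂ) * SS θ (P - 1) m := by
  have hJ0 := J_pos θ h0 h1 0
  have hJc : (J θ 0 : ℂ) ≠ 0 := by exact_mod_cast hJ0.ne'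
  have hθc : (θ : ℂ) ≠ 0 := by exact_mod_cast h0.ne'
  set K : ℂ := (((1 + θ) * θ / J θ 0 : ℝ) : ℂ) with hK
  have hKJ : K * (J θ 0 : ℂ) = (1 + θ) * θ := by
    rw [hK]
    push_cast
    field_simp
  set bb : ℕ → ℂ := fun k => if k = 0 then 1 else if k = 1 then 1 + θ else
      K * ((-1) ^ (k - 2) / (((k - 2 : ℕ) : ℂ) + 2) * (J θ (k - 2) : ℂ)) with hbb
  have hb0 : bb 0 = 1 := by simp [hbb]
  have hb1 : bb 1 = 1 + θ := by simp [hbb]
  have hb2 : ∀ j, bb (j + 2) = K * ((-1) ^ j / ((j : ℂ) + 2) * (J θ j : ℂ)) := by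
    intro j
    simp only [hbb]
    rw [if_neg (by omega), if_neg (by omega), Nat.add_sub_cancel]
  have hbrec : ∀ k : ℕ, bb (k + 1) * (k + 1) = bb k * ((1 + θ : ℂ) - k) := by
    intro k
    rcases k with _ | k
    · rw [hb0, zero_add, hb1]
      simp
    rcases k with _ | k
    · rw [show 0 + 1 + 1 = 0 + 2 by rfl, hb2, show 0 + 1 = 1 by rfl, hb1]
      push_cast
      linear_combination hKJ
    · rw [show k + 1 + 1 + 1 = (k + 1) + 2 by rfl, hb2, show k + 1 + 1 = k + 2 by rfl, hb2]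
      have h5 := J_rec θ h0 h1 k
      have h6 : ((k:ℂ) + 2) * (J θ (k + 1) : ℂ) = ((k:ℂ) + 1 - θ) * (J θ k : ℂ) := by
        exact_mod_cast h5
      have e1 : ((k:ℂ) + 2) ≠ 0 := by exact_mod_cast (show k + 2 ≠ 0 by omega)
      have e2 : ((k:ℂ) + 3) ≠ 0 := by exact_mod_cast (show k + 3 ≠ 0 by omega)
      have e3 : (((k + 1 : ℕ) : ℂ) + 2) = (k:ℂ) + 3 := by push_cast; ring
      have e4 : (((k + 2 : ℕ) : ℂ) + 1) = (k:ℂ) + 3 := by push_cast; ring
      rw [e3, e4, pow_succ]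
      push_cast
      field_simp
      linear_combination (-K) * h6
  have hexp := binom_expansion P Q (1 + θ : ℂ) hP hQ hPQ bb hb0 hbrec (m + 1)
  rw [Finset.sum_range_succ', Finset.sum_range_succ', pow_zero, PowerSeries.coeff_one,
    if_neg (by omega), mul_zero, add_zero, zero_add, hb1, pow_one] at hexp
  rw [hexp, SS, mul_add, Finset.mul_sum]
  have e5 : K * (((J θ 0 / θ : ℝ) : ℂ) * PowerSeries.coeff (m + 1) (P - 1))
      = (1 + θ) * PowerSeries.coeff (m + 1) (P - 1) := by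
    push_cast
    rw [← mul_assoc, ← mul_div_assoc, hKJ]
    field_simp
  rw [e5, add_comm]
  congr 1
  apply Finset.sum_congr rfl
  intro j _
  rw [show j + 1 + 1 = j + 2 by rfl, hb2]
  ring

theorem base_dom (θ : ℝ) (h0 : 0 < θ) (h1 : θ < 1) (P Q P0 Q0 : PowerSeries ℂ)
    (hP : PowerSeries.coeff 0 P = 1) (hQ : PowerSeries.coeff 0 Q = 1)
    (hPQ : P * PowerSeries.derivative ℂ Q
      = PowerSeries.C (1 + θ : ℂ) * PowerSeries.derivative ℂ P * Q)
    (hP0 : PowerSeries.coeff 0 P0 = 1) (hQ0 : PowerSeries.coeff 0 Q0 = 1)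
    (hPQ0 : P0 * PowerSeries.derivative ℂ Q0
      = PowerSeries.C (1 + θ : ℂ) * PowerSeries.derivative ℂ P0 * Q0)
    (hdom : ∀ m : ℕ, ∀ p : ℝ, 0 < p → p < 1 → ‖ee p (P - 1) m‖ ≤ (ee p (P0 - 1) m).re) (k : ℕ) :
    ‖PowerSeries.coeff k Q‖ ≤ (PowerSeries.coeff k Q0).re := by
  rcases k with _ | m
  · rw [hQ, hQ0]
    simp
  · rw [coeff_power θ h0 h1 P Q hP hQ hPQ, coeff_power θ h0 h1 P0 Q0 hP0 hQ0 hPQ0,
      Complex.re_ofReal_mul, norm_mul, Complex.norm_real]
    have hJ0 := J_pos θ h0 h1 0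
    have hK : 0 ≤ (1 + θ) * θ / J θ 0 := by positivity
    rw [Real.norm_of_nonneg hK]
    exact mul_le_mul_of_nonneg_left (average θ h0 h1 m _ _ (hdom m)) hK

end partM4

section partM5

open Complex MeasureTheory Finset

/-! ### Representation of finitely many coefficients by finitely many points of the circle -/

theorem isCompact_hull {E : Type} [NormedAddCommGroup E] [NormedSpace ℝ E]
    [FiniteDimensional ℝ E] (K : Set E) (hK : IsCompact K) : IsCompact (convexHull ℝ K) := by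
  rcases K.eq_empty_or_nonempty with rfl | ⟨k0, hk0⟩
  · simp
  set d : ℕ := Module.finrank ℝ E + 1 with hd
  set Φ : (Fin d → ℝ) × (Fin d → E) → E := fun q => ∑ i, q.1 i • q.2 i with hΦ
  have hΦc : Continuous Φ := by
    refine continuous_finsetSum _ fun i _ => ?_
    fun_prop
  have hS : IsCompact (stdSimplex ℝ (Fin d) ×ˢ Set.pi Set.univ (fun _ : Fin d => K)) :=
    (isCompact_stdSimplex ℝ (Fin d)).prod (isCompact_univ_pi fun _ => hK)
  have himg : convexHull ℝ K
      = Φ '' (stdSimplex ℝ (Fin d) ×ˢ Set.pi Set.univ (fun _ : Fin d => K)) := by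
    apply Set.Subset.antisymm
    · intro y hy
      obtain ⟨ι, hι, z, w, hz, haff, hw, hw1, hsum⟩ := eq_pos_convex_span_of_mem_convexHull hy
      have hcard : Fintype.card ι ≤ Fintype.card (Fin d) := by
        rw [Fintype.card_fin, hd]
        refine haff.card_le_finrank_succ.trans ?_
        have := Submodule.finrank_le (vectorSpan ℝ (Set.range z))
        omega
      obtain ⟨f⟩ := Function.Embedding.nonempty_of_card_le hcard
      refine ⟨(Function.extend f w 0, Function.extend f z (fun _ => k0)), ⟨⟨?_, ?_⟩, ?_⟩, ?_⟩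
      · intro j
        show 0 ≤ Function.extend f w 0 j
        by_cases h : ∃ i, f i = j
        · obtain ⟨i, rfl⟩ := h
          rw [f.injective.extend_apply]
          exact (hw i).le
        · rw [Function.extend_apply' _ _ _ h]
          exact le_rfl
      · rw [← hw1]
        symm
        apply Fintype.sum_of_injective f f.injective
        · intro j hj
          show Function.extend f w 0 j = 0
          rw [Function.extend_apply' _ _ _ (by simpa using hj)]
          rfl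
        · intro i
          show w i = Function.extend f w 0 (f i)
          rw [f.injective.extend_apply]
      · intro j _
        by_cases h : ∃ i, f i = j
        · obtain ⟨i, rfl⟩ := h
          show Function.extend f z (fun _ => k0) (f i) ∈ K
          rw [f.injective.extend_apply]
          exact hz ⟨i, rfl⟩
        · show Function.extend f z (fun _ => k0) j ∈ K
          rw [Function.extend_apply' _ _ _ h]
          exact hk0
      · rw [← hsum]
        symm
        apply Fintype.sum_of_injective f f.injective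
        · intro j hj
          show Function.extend f w 0 j • Function.extend f z (fun _ => k0) j = 0
          rw [Function.extend_apply' _ _ _ (by simpa using hj)]
          simp
        · intro i
          show w i • z i = Function.extend f w 0 (f i) • Function.extend f z (fun _ => k0) (f i)
          rw [f.injective.extend_apply, f.injective.extend_apply]
    · rintro y ⟨⟨w, z⟩, ⟨⟨hw0, hw1⟩, hz⟩, rfl⟩
      apply mem_convexHull_of_exists_fintype w z hw0 hw1 _ rfl
      intro i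
      exact hz i (Set.mem_univ i)
  rw [himg]
  exact hS.image hΦc

theorem rep (h : ℂ → ℂ) (hh : DifferentiableOn ℂ h (Metric.ball 0 1)) (hh0 : h 0 = 1)
    (hre : ∀ z ∈ Metric.ball (0:ℂ) 1, 0 < (h z).re) (n : ℕ) :
    ∃ (ι : Type) (_ : Fintype ι) (w : ι → ℝ) (x : ι → ℂ), (∀ i, 0 ≤ w i) ∧ ∑ i, w i = 1 ∧
      (∀ i, ‖x i‖ = 1) ∧ ∀ k : ℕ, 1 ≤ k → k ≤ n →
        iteratedDeriv k h 0 / (k.factorial : ℂ) = 2 * ∑ i, (w i : ℂ) * x i ^ k := by
  set pw : ℂ → Fin (n + 1) → ℂ := fun x k => x ^ (k : ℕ) with hpw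
  have hpwc : Continuous pw := by
    apply continuous_pi
    intro k
    exact continuous_id.pow _
  set K : Set (Fin (n + 1) → ℂ) := pw '' (Metric.sphere (0:ℂ) 1) with hK
  have hKc : IsCompact K := (isCompact_sphere (0:ℂ) 1).image hpwc
  have hHull : IsClosed (convexHull ℝ K) := (isCompact_hull K hKc).isClosed
  set v : ℝ → Fin (n + 1) → ℂ := fun ρ k => if (k : ℕ) = 0 then 1 else
    (ρ:ℂ) ^ (k : ℕ) * (iteratedDeriv k h 0 / ((k : ℕ).factorial : ℂ)) / 2 with hv
  have hmem : ∀ ρ : ℝ, 0 < ρ → ρ < 1 → v ρ ∈ convexHull ℝ K := by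
    intro ρ hρ hρ1
    by_contra hnot
    obtain ⟨f, u, hf1, hf2⟩ :=
      geometric_hahn_banach_closed_point (convex_convexHull ℝ K) hHull hnot
    set w : ℝ → ℝ := fun t => (h (circleMap 0 ρ t)).re / (2 * Real.pi) with hw
    have hball : ∀ t : ℝ, circleMap 0 ρ t ∈ Metric.ball (0:ℂ) 1 := by
      intro t
      rw [Metric.mem_ball, dist_zero_right]
      simp [circleMap, abs_of_pos hρ, hρ1]
    have hcont : Continuous (fun t : ℝ => h (circleMap 0 ρ t)) :=
      hh.continuousOn.comp_continuous (continuous_circleMap 0 ρ) hball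
    have hwc : Continuous w := (Complex.continuous_re.comp hcont).div_const _
    have hw0 : ∀ t, 0 ≤ w t := by
      intro t
      have := hre _ (hball t)
      simp only [hw]
      positivity
    have hmom := moments h hh hh0 ρ hρ hρ1
    have hw1 : ∫ t in (0:ℝ)..(2 * Real.pi), w t = 1 := by
      have h2 := hmom 0
      simp only [pow_zero, one_mul, if_true] at h2
      rw [intervalIntegral.integral_ofReal] at h2
      exact_mod_cast h2
    set F : ℝ → Fin (n + 1) → ℂ := fun t => w t • pw (exp (-(t:ℂ) * I)) with hF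
    have hexpc : Continuous (fun t : ℝ => exp (-(t:ℂ) * I)) := by fun_prop
    have hFc : Continuous F := hwc.smul (hpwc.comp hexpc)
    have hint : ∫ t in (0:ℝ)..(2 * Real.pi), F t = v ρ := by
      funext k
      have h3 := (ContinuousLinearMap.proj (R := ℝ) (φ := fun _ : Fin (n + 1) => ℂ)
        k).intervalIntegral_comp_comm (μ := volume) (a := 0) (b := 2 * Real.pi)
        (hFc.intervalIntegrable _ _)
      simp only [ContinuousLinearMap.proj_apply] at h3
      rw [← h3, hv]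
      simp only
      rw [← hmom k]
      apply intervalIntegral.integral_congr
      intro t _
      simp only [hF, hpw, Pi.smul_apply, Complex.real_smul]
      ring
    have h4 : f (v ρ) = ∫ t in (0:ℝ)..(2 * Real.pi), w t * f (pw (exp (-(t:ℂ) * I))) := by
      rw [← hint, ← f.intervalIntegral_comp_comm (hFc.intervalIntegrable _ _)]
      apply intervalIntegral.integral_congr
      intro t _
      simp only [hF, map_smul, smul_eq_mul]
    have h5 : ∫ t in (0:ℝ)..(2 * Real.pi), w t * f (pw (exp (-(t:ℂ) * I)))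
        ≤ ∫ t in (0:ℝ)..(2 * Real.pi), w t * u := by
      apply intervalIntegral.integral_mono_on (by positivity)
      · exact (hwc.mul (f.continuous.comp (hpwc.comp hexpc))).intervalIntegrable _ _
      · exact (hwc.mul continuous_const).intervalIntegrable _ _
      · intro t _
        apply mul_le_mul_of_nonneg_left _ (hw0 t)
        apply (hf1 _ _).le
        apply subset_convexHull
        refine ⟨exp (-(t:ℂ) * I), ?_, rfl⟩
        rw [mem_sphere_zero_iff_norm, Complex.norm_exp]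
        simp
    rw [← h4, intervalIntegral.integral_mul_const, hw1, one_mul] at h5
    linarith
  have hlim : v 1 ∈ convexHull ℝ K := by
    have hvc : Continuous v := by
      apply continuous_pi
      intro k
      simp only [hv]
      split_ifs
      · exact continuous_const
      · fun_prop
    have h1 : Filter.Tendsto v (nhdsWithin 1 (Set.Iio 1)) (nhds (v 1)) :=
      (hvc.tendsto 1).mono_left nhdsWithin_le_nhds
    apply hHull.mem_of_tendsto h1
    filter_upwards [Ioo_mem_nhdsLT (show (0:ℝ) < 1 by norm_num)] with ρ hρ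
    exact hmem ρ hρ.1 hρ.2
  obtain ⟨ι, hι, w, z, hw0, hw1, hz, hsum⟩ := mem_convexHull_iff_exists_fintype.mp hlim
  choose x hx1 hx2 using hz
  refine ⟨ι, hι, w, x, hw0, hw1, fun i => mem_sphere_zero_iff_norm.mp (hx1 i), ?_⟩
  intro k hk1 hkn
  have h1 := congrFun hsum (⟨k, by omega⟩ : Fin (n + 1))
  rw [Finset.sum_apply] at h1
  simp only [hv] at h1
  rw [if_neg (by omega)] at h1
  have h2 : ∀ i ∈ (Finset.univ : Finset ι), (w i • z i) (⟨k, by omega⟩ : Fin (n + 1))
      = (w i : ℂ) * x i ^ k := by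
    intro i _
    rw [Pi.smul_apply, ← hx2 i, Complex.real_smul]
  rw [Finset.sum_congr rfl h2] at h1
  rw [h1]
  push_cast
  ring

end partM5

section partM6

open Complex MeasureTheory Finset

/-! ### Domination of power series -/

/-- coefficientwise domination by a series with real coefficients -/
def Dom (A A0 : PowerSeries ℂ) : Prop :=
  ∀ k, ‖PowerSeries.coeff k A‖ ≤ (PowerSeries.coeff k A0).re ∧ (PowerSeries.coeff k A0).im = 0

theorem im_of_norm_le (z : ℂ) (h : ‖z‖ ≤ z.re) : z.im = 0 := by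
  have h1 : ‖z‖ ^ 2 = z.re ^ 2 + z.im ^ 2 := by
    rw [← Complex.normSq_eq_norm_sq, Complex.normSq_apply]
    ring
  have h2 : ‖z‖ ^ 2 ≤ z.re ^ 2 := pow_le_pow_left₀ (norm_nonneg _) h 2
  have h3 : z.im ^ 2 ≤ 0 := by linarith
  exact pow_eq_zero_iff (two_ne_zero) |>.mp (le_antisymm h3 (sq_nonneg _))

theorem Dom_mul {A A0 B B0 : PowerSeries ℂ} (hA : Dom A A0) (hB : Dom B B0) :
    Dom (A * B) (A0 * B0) := by
  intro k
  rw [PowerSeries.coeff_mul, PowerSeries.coeff_mul, Complex.re_sum, Complex.im_sum]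
  constructor
  · refine (norm_sum_le _ _).trans (Finset.sum_le_sum ?_)
    intro p _
    rw [norm_mul, Complex.mul_re, (hA p.1).2, (hB p.2).2, mul_zero, sub_zero]
    exact mul_le_mul (hA p.1).1 (hB p.2).1 (norm_nonneg _)
      ((norm_nonneg _).trans (hA p.1).1)
  · apply Finset.sum_eq_zero
    intro p _
    rw [Complex.mul_im, (hA p.1).2, (hB p.2).2]
    ring

theorem coeff_pow_congr (A B : PowerSeries ℂ) (n : ℕ)
    (h : ∀ k ≤ n, PowerSeries.coeff k A = PowerSeries.coeff k B) (j : ℕ) :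
    ∀ k ≤ n, PowerSeries.coeff k (A ^ j) = PowerSeries.coeff k (B ^ j) := by
  induction j with
  | zero =>
    intro k _
    rw [pow_zero, pow_zero]
  | succ j ih =>
    intro k hk
    rw [pow_succ, pow_succ, PowerSeries.coeff_mul, PowerSeries.coeff_mul]
    apply Finset.sum_congr rfl
    intro p hp
    have hp' : p.1 + p.2 = k := by simpa using hp
    rw [ih p.1 (by omega), h p.2 (by omega)]

theorem ee_congr (p : ℝ) (A B : PowerSeries ℂ) (m : ℕ)
    (h : ∀ k ≤ m + 1, PowerSeries.coeff k A = PowerSeries.coeff k B) :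
    ee p A m = ee p B m := by
  rw [ee, ee, h (m + 1) le_rfl]
  congr 2
  apply Finset.sum_congr rfl
  intro j _
  rw [coeff_pow_congr A B (m + 1) h (j + 2) (m + 1) le_rfl]

/-! ### Functions -/

/-- the series of the power `(f(z)/z)^(γ α)`, `f(z) = z exp (g z)` -/
noncomputable def PG (α γ : ℝ) (g : ℂ → ℂ) : PowerSeries ℂ :=
  T (fun z => exp ((γ : ℂ) * ((α : ℂ) * g z)))

section fn

variable (α : ℝ) (f g h : ℂ → ℂ)

theorem T_const (c : ℂ) : T (fun _ : ℂ => c) = PowerSeries.C c := by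
  ext k
  rw [T_coeff, PowerSeries.coeff_C, iteratedDeriv_const]
  split_ifs with h0
  · subst h0
    simp
  · simp

theorem T_sub' {φ ψ : ℂ → ℂ} (hφ : AnalyticAt ℂ φ 0) (hψ : AnalyticAt ℂ ψ 0) :
    T (fun z => φ z - ψ z) = T φ - T ψ := by
  ext k
  rw [map_sub, T_coeff, T_coeff, T_coeff, ← sub_div]
  congr 1
  exact iteratedDeriv_fun_sub hφ.contDiffAt hψ.contDiffAt

theorem T_add' {φ ψ : ℂ → ℂ} (hφ : AnalyticAt ℂ φ 0) (hψ : AnalyticAt ℂ ψ 0) :
    T (fun z => φ z + ψ z) = T φ + T ψ := by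
  ext k
  rw [map_add, T_coeff, T_coeff, T_coeff, ← add_div]
  congr 1
  exact iteratedDeriv_fun_add hφ.contDiffAt hψ.contDiffAt

theorem PG_zero_coeff (γ : ℝ) (hg0 : g 0 = 0) : PowerSeries.coeff 0 (PG α γ g) = 1 := by
  rw [PG, T_coeff]
  simp [hg0]

theorem PG_zero : PG α 0 g = 1 := by
  have h1 : (fun z => exp (((0 : ℝ) : ℂ) * ((α : ℂ) * g z))) = fun _ => (1:ℂ) := by
    funext z
    simp
  rw [PG, h1, T_const]
  simp

theorem PG_ode (γ : ℝ) (hg : DifferentiableOn ℂ g (Metric.ball 0 1)) :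
    PG α 1 g * PowerSeries.derivative ℂ (PG α γ g)
      = PowerSeries.C (γ : ℂ) * PowerSeries.derivative ℂ (PG α 1 g) * PG α γ g := by
  have hball : Metric.ball (0:ℂ) 1 ∈ nhds (0:ℂ) := Metric.ball_mem_nhds _ one_pos
  have hgA : AnalyticAt ℂ g 0 := hg.analyticAt hball
  have hA : ∀ δ : ℝ, AnalyticAt ℂ (fun z => exp ((δ : ℂ) * ((α : ℂ) * g z))) 0 := fun δ =>
    (analyticAt_const.mul (analyticAt_const.mul hgA)).cexp
  have hd : ∀ δ : ℝ, ∀ z ∈ Metric.ball (0:ℂ) 1,
      deriv (fun z => exp ((δ : ℂ) * ((α : ℂ) * g z))) z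
        = exp ((δ : ℂ) * ((α : ℂ) * g z)) * ((δ : ℂ) * ((α : ℂ) * deriv g z)) := by
    intro δ z hz
    have h1 : HasDerivAt g (deriv g z) z :=
      (hg.differentiableAt (Metric.isOpen_ball.mem_nhds hz)).hasDerivAt
    exact ((h1.const_mul (α:ℂ)).const_mul (δ:ℂ)).cexp.deriv
  have hcA : AnalyticAt ℂ (fun _ : ℂ => (γ : ℂ)) 0 := analyticAt_const
  have h1A := hA 1
  have hγA := hA γ
  have hd1 := h1A.deriv
  have hdγ := hγA.deriv
  have hcd : AnalyticAt ℂ (fun z => (γ : ℂ) *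
      deriv (fun z => exp (((1 : ℝ) : ℂ) * ((α : ℂ) * g z))) z) 0 := hcA.mul hd1
  rw [PG, PG, ← T_deriv, ← T_deriv, ← T_const, ← T_mul h1A hdγ, ← T_mul hcA hd1,
    ← T_mul hcd hγA]
  apply T_congr
  filter_upwards [hball] with z hz
  rw [hd 1 z hz, hd γ z hz]
  push_cast
  ring

theorem PG_rec (hα : 0 < α) (γ : ℝ) (hg : DifferentiableOn ℂ g (Metric.ball 0 1))
    (hfg : ∀ z ∈ Metric.ball (0:ℂ) 1, f z = z * exp (g z))
    (hh : ∀ z ∈ Metric.ball (0:ℂ) 1, h z = exp (((α:ℂ) - 1) * g z) * deriv f z)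
    (hhA : AnalyticAt ℂ h 0) (k : ℕ) :
    ((k : ℂ) + α * (γ + 1)) * PowerSeries.coeff k (PG α (γ + 1) g)
      = (α * (γ + 1)) * PowerSeries.coeff k (T h * PG α γ g) := by
  have hball : Metric.ball (0:ℂ) 1 ∈ nhds (0:ℂ) := Metric.ball_mem_nhds _ one_pos
  have hgA : AnalyticAt ℂ g 0 := hg.analyticAt hball
  have hA : ∀ δ : ℝ, AnalyticAt ℂ (fun z => exp ((δ : ℂ) * ((α : ℂ) * g z))) 0 := fun δ =>
    (analyticAt_const.mul (analyticAt_const.mul hgA)).cexp
  have hgd : ∀ z ∈ Metric.ball (0:ℂ) 1, HasDerivAt g (deriv g z) z := by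
    intro z hz
    exact (hg.differentiableAt (Metric.isOpen_ball.mem_nhds hz)).hasDerivAt
  have hd : ∀ δ : ℝ, ∀ z ∈ Metric.ball (0:ℂ) 1,
      deriv (fun z => exp ((δ : ℂ) * ((α : ℂ) * g z))) z
        = exp ((δ : ℂ) * ((α : ℂ) * g z)) * ((δ : ℂ) * ((α : ℂ) * deriv g z)) := by
    intro δ z hz
    exact (((hgd z hz).const_mul (α:ℂ)).const_mul (δ:ℂ)).cexp.deriv
  have hfder : ∀ z ∈ Metric.ball (0:ℂ) 1, deriv f z = exp (g z) * (1 + z * deriv g z) := by
    intro z hz
    have e1 : f =ᶠ[nhds z] fun z => z * exp (g z) := by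
      filter_upwards [Metric.isOpen_ball.mem_nhds hz] with y hy
      exact hfg y hy
    rw [e1.deriv_eq]
    have := ((hasDerivAt_id z).mul (hgd z hz).cexp).deriv
    rw [show (fun z => z * exp (g z)) = (id * fun z => exp (g z)) from rfl, this]
    simp only [id]
    ring
  have hzA : AnalyticAt ℂ (fun z : ℂ => z) 0 := analyticAt_id
  have h1A := hA (γ + 1)
  have hγA := hA γ
  have hcA : AnalyticAt ℂ (fun _ : ℂ => ((α : ℂ) * (γ + 1))) 0 := analyticAt_const
  have hd1 := h1A.deriv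
  have hprod : AnalyticAt ℂ (fun z => h z * exp ((γ : ℂ) * ((α : ℂ) * g z))) 0 := hhA.mul hγA
  have hdiff : AnalyticAt ℂ (fun z => h z * exp ((γ : ℂ) * ((α : ℂ) * g z))
      - exp (((γ + 1 : ℝ) : ℂ) * ((α : ℂ) * g z))) 0 := hprod.sub h1A
  have key : PowerSeries.X * PowerSeries.derivative ℂ (PG α (γ + 1) g)
      = PowerSeries.C ((α : ℂ) * (γ + 1)) * (T h * PG α γ g - PG α (γ + 1) g) := by
    rw [PG, PG, ← T_deriv, ← T_id, ← T_const, ← T_mul hhA hγA, ← T_mul hzA hd1,
      ← T_sub' hprod h1A, ← T_mul hcA hdiff]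
    apply T_congr
    filter_upwards [hball] with z hz
    rw [hd (γ + 1) z hz, hh z hz, hfder z hz]
    have e1 : exp (((γ + 1 : ℝ) : ℂ) * ((α : ℂ) * g z))
        = exp (((α:ℂ) - 1) * g z) * exp (g z) * exp ((γ : ℂ) * ((α : ℂ) * g z)) := by
      rw [← Complex.exp_add, ← Complex.exp_add]
      congr 1
      push_cast
      ring
    rw [e1]
    push_cast
    ring
  have h2 := congrArg (PowerSeries.coeff k) key
  rw [coeff_X_deriv, PowerSeries.coeff_C_mul, map_sub] at h2
  linear_combination h2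

theorem coeff_f (hα : 0 < α) (hg : DifferentiableOn ℂ g (Metric.ball 0 1))
    (hfg : ∀ z ∈ Metric.ball (0:ℂ) 1, f z = z * exp (g z)) (N : ℕ) :
    iteratedDeriv (N + 1) f 0 / ((N + 1).factorial : ℂ)
      = PowerSeries.coeff N (PG α (1 / α) g) := by
  have hball : Metric.ball (0:ℂ) 1 ∈ nhds (0:ℂ) := Metric.ball_mem_nhds _ one_pos
  have hgA : AnalyticAt ℂ g 0 := hg.analyticAt hball
  have hidA : AnalyticAt ℂ (fun z : ℂ => z) 0 := analyticAt_id
  have huA : AnalyticAt ℂ (fun z => exp (g z)) 0 := hgA.cexp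
  have hαc : (α:ℂ) ≠ 0 := by exact_mod_cast hα.ne'
  have h1 : PG α (1 / α) g = T (fun z => exp (g z)) := by
    rw [PG]
    congr 1
    funext z
    congr 1
    push_cast
    field_simp
  have hTf : T f = PowerSeries.X * T (fun z => exp (g z)) := by
    rw [← T_id, ← T_mul hidA huA]
    apply T_congr
    filter_upwards [hball] with z hz
    exact hfg z hz
  rw [← T_coeff, hTf, PowerSeries.coeff_succ_X_mul, h1]

end fn

/-- the series of `(1+z)/(1-z)` -/
theorem coeff_extremal (h : ℂ → ℂ) (hh : ∀ z ∈ Metric.ball (0:ℂ) 1, h z = (1 + z) / (1 - z))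
    (hhA : AnalyticAt ℂ h 0) (k : ℕ) :
    PowerSeries.coeff k (T h) = if k = 0 then 1 else 2 := by
  have hball : Metric.ball (0:ℂ) 1 ∈ nhds (0:ℂ) := Metric.ball_mem_nhds _ one_pos
  have hidA : AnalyticAt ℂ (fun z : ℂ => z) 0 := analyticAt_id
  have h1A : AnalyticAt ℂ (fun _ : ℂ => (1:ℂ)) 0 := analyticAt_const
  have key : (1 - PowerSeries.X) * T h = 1 + PowerSeries.X := by
    have e1 : (1 - PowerSeries.X : PowerSeries ℂ) = T (fun z => 1 - z) := by
      rw [T_sub' h1A hidA, T_const, T_id, map_one]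
    have e2 : (1 + PowerSeries.X : PowerSeries ℂ) = T (fun z => 1 + z) := by
      rw [T_add' h1A hidA, T_const, T_id, map_one]
    have hsA : AnalyticAt ℂ (fun z : ℂ => 1 - z) 0 := h1A.sub hidA
    rw [e1, e2, ← T_mul hsA hhA]
    apply T_congr
    filter_upwards [hball] with z hz
    have hz1 : 1 - z ≠ 0 := by
      intro h0
      have : z = 1 := (sub_eq_zero.mp h0).symm
      rw [this, Metric.mem_ball, dist_zero_right, norm_one] at hz
      exact lt_irrefl _ hz
    rw [hh z hz]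
    field_simp
  have h0 : PowerSeries.coeff 0 (T h) = 1 := by
    rw [T_coeff]
    simp [hh 0 (Metric.mem_ball_self one_pos)]
  have hs : ∀ k, PowerSeries.coeff (k + 1) (T h) = 2 := by
    intro k
    induction k with
    | zero =>
      have h1 := congrArg (PowerSeries.coeff 1) key
      rw [sub_mul, one_mul, map_sub, map_add, PowerSeries.coeff_one,
        show (1:ℕ) = 0 + 1 by rfl, PowerSeries.coeff_succ_X_mul, h0, zero_add,
        PowerSeries.coeff_one_X] at h1
      simp only [one_ne_zero, if_false] at h1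
      rw [zero_add]
      linear_combination h1
    | succ k ih =>
      have h1 := congrArg (PowerSeries.coeff (k + 1 + 1)) key
      rw [sub_mul, one_mul, map_sub, map_add, PowerSeries.coeff_one,
        PowerSeries.coeff_succ_X_mul, ih, PowerSeries.coeff_X, if_neg (by omega),
        if_neg (by omega)] at h1
      linear_combination h1
  rcases k with _ | k
  · rw [if_pos rfl, h0]
  · rw [if_neg (by omega), hs]

end partM6

section partM7

open Complex MeasureTheory Finset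

/-! ### The extremal function exists -/

section extremal

variable (α : ℝ)

/-- coefficients of `(g/z)^α` for the extremal function -/
noncomputable def AA (k : ℕ) : ℂ := if k = 0 then 1 else ((2 * (α / (k + α)) : ℝ) : ℂ)

theorem AA_norm (hα : 0 < α) (k : ℕ) : ‖AA α k‖ ≤ 2 := by
  unfold AA
  split_ifs with h
  · simp
  · have hk : (0:ℝ) ≤ k := Nat.cast_nonneg k
    rw [Complex.norm_real, Real.norm_of_nonneg (by positivity)]
    have : α / (k + α) ≤ 1 := by
      rw [div_le_one (by positivity)]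
      linarith
    linarith

/-- `(g(z)/z)^α` -/
noncomputable def F0 (z : ℂ) : ℂ := ∑' k, AA α k * z ^ k

/-- its derivative -/
noncomputable def F1 (z : ℂ) : ℂ := ∑' k, AA α k * ((k : ℂ) * z ^ (k - 1))

theorem sum_bound (r : ℝ) (hr0 : 0 < r) (hr1 : r < 1) :
    Summable fun k : ℕ => 2 * ((k:ℝ) * r ^ (k - 1)) := by
  have h1 : Summable fun k : ℕ => ((k:ℝ) ^ 1 * r ^ k : ℝ) :=
    summable_pow_mul_geometric_of_norm_lt_one 1 (by rw [Real.norm_of_nonneg hr0.le]; exact hr1)
  have h2 := h1.mul_left (2 / r)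
  refine h2.congr ?_
  intro k
  rcases k with _ | k
  · simp
  · rw [Nat.add_sub_cancel, pow_succ r k]
    field_simp

theorem term_bound (hα : 0 < α) (r : ℝ) (z : ℂ) (hz : ‖z‖ ≤ r) (k : ℕ) :
    ‖AA α k * ((k : ℂ) * z ^ (k - 1))‖ ≤ 2 * ((k:ℝ) * r ^ (k - 1)) := by
  rw [norm_mul, norm_mul, norm_pow, Complex.norm_natCast]
  have h1 := AA_norm α hα k
  have h2 : ‖z‖ ^ (k - 1) ≤ r ^ (k - 1) := pow_le_pow_left₀ (norm_nonneg _) hz _
  have hk : (0:ℝ) ≤ k := Nat.cast_nonneg k
  exact mul_le_mul h1 (mul_le_mul_of_nonneg_left h2 hk) (by positivity) (by norm_num)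

theorem F0_deriv (hα : 0 < α) (z : ℂ) (hz : z ∈ Metric.ball (0:ℂ) 1) :
    HasDerivAt (F0 α) (F1 α z) z := by
  rw [Metric.mem_ball, dist_zero_right] at hz
  obtain ⟨r, hr1, hr2⟩ := exists_between hz
  have hr0 : 0 < r := lt_of_le_of_lt (norm_nonneg z) hr1
  show HasDerivAt (fun z => ∑' k, AA α k * z ^ k)
    (∑' k, AA α k * ((k : ℂ) * z ^ (k - 1))) z
  apply hasDerivAt_tsum_of_isPreconnected (g := fun k z => AA α k * z ^ k)
    (g' := fun k z => AA α k * ((k : ℂ) * z ^ (k - 1)))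
    (sum_bound r hr0 hr2) (Metric.isOpen_ball (x := (0:ℂ))
    (ε := r)) (convex_ball (0:ℂ) r).isPreconnected (y₀ := 0)
  · intro k y _
    exact (hasDerivAt_pow k y).const_mul _
  · intro k y hy
    rw [Metric.mem_ball, dist_zero_right] at hy
    exact term_bound α hα r y hy.le k
  · exact Metric.mem_ball_self hr0
  · apply summable_of_ne_finset_zero (s := {0})
    intro k hk
    rw [Finset.mem_singleton] at hk
    rw [zero_pow hk, mul_zero]
  · rw [Metric.mem_ball, dist_zero_right]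
    exact hr1

theorem F0_zero : F0 α 0 = 1 := by
  rw [F0, tsum_eq_single 0]
  · simp [AA]
  · intro k hk
    rw [zero_pow hk, mul_zero]

theorem F0_ode (hα : 0 < α) (z : ℂ) (hz : z ∈ Metric.ball (0:ℂ) 1) :
    α * F0 α z + z * F1 α z = α * ((1 + z) / (1 - z)) := by
  rw [Metric.mem_ball, dist_zero_right] at hz
  have hz1 : 1 - z ≠ 0 := by
    intro h0
    have : z = 1 := (sub_eq_zero.mp h0).symm
    rw [this, norm_one] at hz
    exact lt_irrefl _ hz
  have hgeo : HasSum (fun k : ℕ => z ^ k) (1 - z)⁻¹ := hasSum_geometric_of_norm_lt_one hz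
  have hS0 : Summable fun k : ℕ => AA α k * z ^ k := by
    apply Summable.of_norm_bounded (g := fun k : ℕ => 2 * ‖z‖ ^ k)
    · exact (summable_geometric_of_lt_one (norm_nonneg _) hz).mul_left 2
    · intro k
      rw [norm_mul, norm_pow]
      exact mul_le_mul_of_nonneg_right (AA_norm α hα k) (by positivity)
  have hS1 : Summable fun k : ℕ => AA α k * ((k : ℂ) * z ^ (k - 1)) := by
    obtain ⟨r, hr1, hr2⟩ := exists_between hz
    have hr0 : 0 < r := lt_of_le_of_lt (norm_nonneg z) hr1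
    exact Summable.of_norm_bounded (sum_bound r hr0 hr2) (fun k => term_bound α hα r z hr1.le k)
  have h1 : HasSum (fun k : ℕ => α * (AA α k * z ^ k) + z * (AA α k * ((k : ℂ) * z ^ (k - 1))))
      (α * F0 α z + z * F1 α z) :=
    (hS0.hasSum.mul_left _).add (hS1.hasSum.mul_left _)
  have h2 : HasSum (fun k : ℕ => 2 * (α : ℂ) * z ^ k - if k = 0 then (α : ℂ) else 0)
      (2 * (α : ℂ) * (1 - z)⁻¹ - α) :=
    (hgeo.mul_left _).sub (hasSum_ite_eq 0 (α : ℂ))
  have h3 : (fun k : ℕ => α * (AA α k * z ^ k) + z * (AA α k * ((k : ℂ) * z ^ (k - 1))))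
      = fun k : ℕ => 2 * (α : ℂ) * z ^ k - if k = 0 then (α : ℂ) else 0 := by
    funext k
    rcases k with _ | k
    · simp [AA]
      ring
    · have hk : ((((k + 1 : ℕ) : ℝ) + α : ℝ) : ℂ) ≠ 0 := by
        have : (0:ℝ) < ((k + 1 : ℕ) : ℝ) + α := by positivity
        exact_mod_cast this.ne'
      rw [AA, if_neg (by omega), if_neg (by omega), Nat.add_sub_cancel, pow_succ]
      push_cast at hk ⊢
      field_simp
      ring
  rw [h3] at h1
  have h4 := h1.unique h2
  rw [h4]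
  field_simp
  ring

theorem re_cayley_pos (z : ℂ) (hz : z ∈ Metric.ball (0:ℂ) 1) : 0 < ((1 + z) / (1 - z)).re := by
  rw [Metric.mem_ball, dist_zero_right] at hz
  have hz1 : 1 - z ≠ 0 := by
    intro h0
    have : z = 1 := (sub_eq_zero.mp h0).symm
    rw [this, norm_one] at hz
    exact lt_irrefl _ hz
  have hn : 0 < Complex.normSq (1 - z) := Complex.normSq_pos.mpr hz1
  rw [Complex.div_re, ← add_div]
  apply div_pos _ hn
  have h1 : ‖z‖ ^ 2 = z.re ^ 2 + z.im ^ 2 := by
    rw [← Complex.normSq_eq_norm_sq, Complex.normSq_apply]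
    ring
  have h2 : ‖z‖ ^ 2 < 1 := by nlinarith [norm_nonneg z]
  simp only [Complex.add_re, Complex.sub_re, Complex.add_im, Complex.sub_im, Complex.one_re,
    Complex.one_im]
  nlinarith

theorem F0_re_pos (hα : 0 < α) (z : ℂ) (hz : z ∈ Metric.ball (0:ℂ) 1) : 0 < (F0 α z).re := by
  rw [Metric.mem_ball, dist_zero_right] at hz
  have hmem : ∀ t : ℝ, 0 ≤ t → t ≤ 1 → (t : ℂ) * z ∈ Metric.ball (0:ℂ) 1 := by
    intro t ht0 ht1
    rw [Metric.mem_ball, dist_zero_right, norm_mul, Complex.norm_real, Real.norm_of_nonneg ht0]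
    nlinarith [norm_nonneg z]
  set φ : ℝ → ℝ := fun t => t ^ α * (F0 α ((t : ℂ) * z)).re with hφ
  have hdF : ∀ t : ℝ, 0 ≤ t → t ≤ 1 →
      HasDerivAt (fun t : ℝ => (F0 α ((t : ℂ) * z)).re) (F1 α ((t : ℂ) * z) * z).re t := by
    intro t ht0 ht1
    have h1 := F0_deriv α hα _ (hmem t ht0 ht1)
    have h2 : HasDerivAt (fun t : ℝ => (t : ℂ) * z) z t := by
      have := (Complex.ofRealCLM.hasDerivAt (x := t)).mul_const z
      simpa using this
    have h3 : HasDerivAt ((F0 α) ∘ (fun t : ℝ => (t : ℂ) * z)) (F1 α ((t : ℂ) * z) * z) t :=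
      HasDerivAt.comp t h1 h2
    exact (Complex.reCLM.hasFDerivAt.comp_hasDerivAt t h3)
  have hcont : ContinuousOn φ (Set.Icc 0 1) := by
    intro t ht
    apply ContinuousAt.continuousWithinAt
    apply ContinuousAt.mul
    · exact Real.continuousAt_rpow_const t α (Or.inr hα.le)
    · exact (hdF t ht.1 ht.2).continuousAt
  have hmono : StrictMonoOn φ (Set.Icc 0 1) := by
    apply strictMonoOn_of_deriv_pos (convex_Icc 0 1) hcont
    intro t ht
    rw [interior_Icc] at ht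
    have h1 : HasDerivAt (fun t : ℝ => t ^ α) (α * t ^ (α - 1)) t :=
      Real.hasDerivAt_rpow_const (Or.inl ht.1.ne')
    have h2 := h1.mul (hdF t ht.1.le ht.2.le)
    have h3 : deriv φ t = α * t ^ (α - 1) * (F0 α ((t : ℂ) * z)).re
        + t ^ α * (F1 α ((t : ℂ) * z) * z).re := h2.deriv
    rw [h3]
    have h4 : t ^ α = t * t ^ (α - 1) := by
      have h5 : t ^ (1 + (α - 1)) = t ^ (1:ℝ) * t ^ (α - 1) := Real.rpow_add ht.1 _ _
      rw [Real.rpow_one] at h5
      rw [← h5]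
      congr 1
      ring
    have h5 := congrArg Complex.re (F0_ode α hα _ (hmem t ht.1.le ht.2.le))
    rw [Complex.add_re, Complex.re_ofReal_mul, Complex.re_ofReal_mul, mul_assoc,
      Complex.re_ofReal_mul] at h5
    have h6 := re_cayley_pos _ (hmem t ht.1.le ht.2.le)
    have h7 : (z * F1 α ((t : ℂ) * z)).re = (F1 α ((t : ℂ) * z) * z).re := by rw [mul_comm]
    rw [h7] at h5
    rw [h4]
    have h8 : α * t ^ (α - 1) * (F0 α ((t : ℂ) * z)).re
        + t * t ^ (α - 1) * (F1 α ((t : ℂ) * z) * z).re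
        = t ^ (α - 1) * (α * (F0 α ((t : ℂ) * z)).re + t * (F1 α ((t : ℂ) * z) * z).re) := by ring
    rw [h8, h5]
    have h9 : 0 < t ^ (α - 1) := Real.rpow_pos_of_pos ht.1 _
    positivity
  have h1 := hmono (Set.left_mem_Icc.mpr zero_le_one) (Set.right_mem_Icc.mpr zero_le_one)
    zero_lt_one
  simp only [hφ] at h1
  rw [Real.zero_rpow hα.ne', zero_mul, Real.one_rpow, one_mul, Complex.ofReal_one, one_mul] at h1
  exact h1

end extremal

/-- The class `B_1(α)` of Bazilevic functions: `f` is analytic in the unit disk, `f(0) = 0`,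
`f'(0) = 1`, `f(z)/z` has no zeros (so that it has an analytic logarithm `g` with `g(0) = 0`), and
`Re ((f(z)/z)^(α-1) f'(z)) > 0`, the power being `exp ((α-1) g(z))`, i.e. the branch equal to `1`
at `z = 0`. -/
def IsBazilevic1 (α : ℝ) (f : ℂ → ℂ) : Prop :=
  DifferentiableOn ℂ f (Metric.ball 0 1) ∧ f 0 = 0 ∧ deriv f 0 = 1 ∧
  ∃ g : ℂ → ℂ, DifferentiableOn ℂ g (Metric.ball 0 1) ∧ g 0 = 0 ∧
    (∀ z ∈ Metric.ball (0:ℂ) 1, f z = z * exp (g z)) ∧
    ∀ z ∈ Metric.ball (0:ℂ) 1, 0 < (exp (((α:ℂ) - 1) * g z) * deriv f z).re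

/-- The function `g_α`: analytic in the unit disk with `g_α(0) = 0`, `g_α'(0) = 1`, `g_α(z)/z`
without zeros, and `(g_α(z)/z)^(α-1) g_α'(z) = (1+z)/(1-z)` on the unit disk (same branch). -/
def IsExtremal (α : ℝ) (f : ℂ → ℂ) : Prop :=
  DifferentiableOn ℂ f (Metric.ball 0 1) ∧ f 0 = 0 ∧ deriv f 0 = 1 ∧
  ∃ g : ℂ → ℂ, DifferentiableOn ℂ g (Metric.ball 0 1) ∧ g 0 = 0 ∧
    (∀ z ∈ Metric.ball (0:ℂ) 1, f z = z * exp (g z)) ∧
    ∀ z ∈ Metric.ball (0:ℂ) 1, exp (((α:ℂ) - 1) * g z) * deriv f z = (1 + z) / (1 - z)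

theorem extremal_exists (α : ℝ) (hα : 0 < α) : ∃ g, IsExtremal α g := by
  have hαc : (α:ℂ) ≠ 0 := by exact_mod_cast hα.ne'
  set ℓ : ℂ → ℂ := fun z => (1 / (α:ℂ)) * log (F0 α z) with hℓ
  have hslit : ∀ z ∈ Metric.ball (0:ℂ) 1, F0 α z ∈ slitPlane := fun z hz =>
    Or.inl (F0_re_pos α hα z hz)
  have hne : ∀ z ∈ Metric.ball (0:ℂ) 1, F0 α z ≠ 0 := fun z hz =>
    slitPlane_ne_zero (hslit z hz)
  have hdℓ : ∀ z ∈ Metric.ball (0:ℂ) 1,
      HasDerivAt ℓ ((1 / (α:ℂ)) * (F1 α z / F0 α z)) z := by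
    intro z hz
    exact ((F0_deriv α hα z hz).clog (hslit z hz)).const_mul _
  have hℓ0 : ℓ 0 = 0 := by
    simp only [hℓ]
    rw [F0_zero, log_one, mul_zero]
  have hdf : ∀ z ∈ Metric.ball (0:ℂ) 1,
      HasDerivAt (fun z => z * exp (ℓ z))
        (exp (ℓ z) * (1 + z * ((1 / (α:ℂ)) * (F1 α z / F0 α z)))) z := by
    intro z hz
    have h1 := (hasDerivAt_id z).mul (hdℓ z hz).cexp
    convert! h1 using 1
    simp only [id]
    ring
  have h0 : (0:ℂ) ∈ Metric.ball (0:ℂ) 1 := Metric.mem_ball_self one_pos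
  refine ⟨fun z => z * exp (ℓ z), ?_, by simp, ?_, ℓ, ?_, hℓ0, fun z _ => rfl, ?_⟩
  · intro z hz
    exact (hdf z hz).differentiableAt.differentiableWithinAt
  · rw [(hdf 0 h0).deriv, hℓ0]
    simp
  · intro z hz
    exact (hdℓ z hz).differentiableAt.differentiableWithinAt
  · intro z hz
    rw [(hdf z hz).deriv, ← mul_assoc, ← Complex.exp_add]
    have e1 : ((α:ℂ) - 1) * ℓ z + ℓ z = log (F0 α z) := by
      simp only [hℓ]
      field_simp
      ring
    rw [e1, exp_log (hne z hz)]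
    have e2 := F0_ode α hα z hz
    have e3 : F0 α z * (1 + z * ((1 / (α:ℂ)) * (F1 α z / F0 α z)))
        = (α * F0 α z + z * F1 α z) / α := by
      have := hne z hz
      field_simp
    rw [e3, e2]
    field_simp

theorem extremal_mem (α : ℝ) (g : ℂ → ℂ) (hg : IsExtremal α g) : IsBazilevic1 α g := by
  obtain ⟨h1, h2, h3, ℓ, h4, h5, h6, h7⟩ := hg
  refine ⟨h1, h2, h3, ℓ, h4, h5, h6, ?_⟩
  intro z hz
  rw [h7 z hz]
  exact re_cayley_pos z hz

end partM7

section partM8

open Complex MeasureTheory Finset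

theorem lift_step (α : ℝ) (hα : 0 < α) (f g h f' g' h' : ℂ → ℂ)
    (hg : DifferentiableOn ℂ g (Metric.ball 0 1))
    (hfg : ∀ z ∈ Metric.ball (0:ℂ) 1, f z = z * exp (g z))
    (hh : ∀ z ∈ Metric.ball (0:ℂ) 1, h z = exp (((α:ℂ) - 1) * g z) * deriv f z)
    (hhA : AnalyticAt ℂ h 0)
    (hg' : DifferentiableOn ℂ g' (Metric.ball 0 1))
    (hfg' : ∀ z ∈ Metric.ball (0:ℂ) 1, f' z = z * exp (g' z))
    (hh' : ∀ z ∈ Metric.ball (0:ℂ) 1, h' z = exp (((α:ℂ) - 1) * g' z) * deriv f' z)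
    (hhA' : AnalyticAt ℂ h' 0)
    (hdom : Dom (T h) (T h')) (γ : ℝ) (hγ : 0 ≤ γ)
    (hP : Dom (PG α γ g) (PG α γ g')) : Dom (PG α (γ + 1) g) (PG α (γ + 1) g') := by
  intro k
  have h1 := PG_rec α f g h hα γ hg hfg hh hhA k
  have h2 := PG_rec α f' g' h' hα γ hg' hfg' hh' hhA' k
  have hk : (0:ℝ) ≤ k := Nat.cast_nonneg k
  have hpos : 0 < (k:ℝ) + α * (γ + 1) := by positivity
  have hpc : ((k : ℂ) + α * (γ + 1)) ≠ 0 := by
    have : (((k:ℝ) + α * (γ + 1) : ℝ) : ℂ) ≠ 0 := by exact_mod_cast hpos.ne'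
    push_cast at this
    exact this
  set c : ℝ := α * (γ + 1) / (k + α * (γ + 1)) with hc
  have hc0 : 0 ≤ c := by positivity
  have e1 : ∀ a b : ℂ, ((k : ℂ) + α * (γ + 1)) * a = (α * (γ + 1)) * b → a = (c : ℂ) * b := by
    intro a b hab
    rw [hc]
    push_cast
    field_simp
    linear_combination hab
  rw [e1 _ _ h1, e1 _ _ h2, norm_mul, Complex.norm_real, Real.norm_of_nonneg hc0,
    Complex.re_ofReal_mul, Complex.im_ofReal_mul]
  have h3 := Dom_mul hdom hP k
  constructor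
  · exact mul_le_mul_of_nonneg_left h3.1 hc0
  · rw [h3.2, mul_zero]

/-- **Theorem.** For every `α ∈ (0,1)` the extremal function `g_α` exists, lies in `B_1(α)`, has
real Taylor coefficients `b_n` (`n ≥ 2`), and `|a_n| ≤ b_n` for every `f = z + ∑ a_n z^n` in
`B_1(α)` and every `n ≥ 2`. -/
theorem result : ∀ α : ℝ, 0 < α → α < 1 →
    (∃ g : ℂ → ℂ, IsExtremal α g) ∧
    ∀ g : ℂ → ℂ, IsExtremal α g → IsBazilevic1 α g ∧
      ∀ f : ℂ → ℂ, IsBazilevic1 α f → ∀ n : ℕ, 2 ≤ n →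
        (iteratedDeriv n g 0 / (n.factorial : ℂ)).im = 0 ∧
        ‖iteratedDeriv n f 0 / (n.factorial : ℂ)‖
          ≤ (iteratedDeriv n g 0 / (n.factorial : ℂ)).re := by
  intro α hα0 hα1
  refine ⟨extremal_exists α hα0, ?_⟩
  intro g' hg'
  refine ⟨extremal_mem α g' hg', ?_⟩
  intro f' hf' n hn
  have hball : Metric.ball (0:ℂ) 1 ∈ nhds (0:ℂ) := Metric.ball_mem_nhds _ one_pos
  -- data of the extremal function
  obtain ⟨hgd, hg0, hg1, ℓ0, hℓ0d, hℓ00, hgℓ, hgh⟩ := hg'
  set h0 : ℂ → ℂ := fun z => exp (((α:ℂ) - 1) * ℓ0 z) * deriv g' z with hh0def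
  have hh0d : DifferentiableOn ℂ h0 (Metric.ball 0 1) := by
    refine DifferentiableOn.mul ?_ (hgd.deriv Metric.isOpen_ball)
    exact (hℓ0d.const_mul _).cexp
  have hh0A : AnalyticAt ℂ h0 0 := hh0d.analyticAt hball
  have hh0eq : ∀ z ∈ Metric.ball (0:ℂ) 1, h0 z = (1 + z) / (1 - z) := hgh
  have hH0 := coeff_extremal h0 hh0eq hh0A
  -- a general member of the class
  have main : ∀ f : ℂ → ℂ, IsBazilevic1 α f → ∀ ℓ : ℂ → ℂ, DifferentiableOn ℂ ℓ (Metric.ball 0 1) →
      ℓ 0 = 0 → (∀ z ∈ Metric.ball (0:ℂ) 1, f z = z * exp (ℓ z)) →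
      (∀ z ∈ Metric.ball (0:ℂ) 1, 0 < (exp (((α:ℂ) - 1) * ℓ z) * deriv f z).re) →
      ∃ h : ℂ → ℂ, (∀ z ∈ Metric.ball (0:ℂ) 1, h z = exp (((α:ℂ) - 1) * ℓ z) * deriv f z) ∧
        AnalyticAt ℂ h 0 ∧
        (∀ k, ‖PowerSeries.coeff k (T h)‖ ≤ (PowerSeries.coeff k (T h0)).re) ∧
        ∀ m : ℕ, ∀ p : ℝ, 0 < p → p < 1 →
          ‖ee p (PG α 1 ℓ - 1) m‖ ≤ (ee p (PG α 1 ℓ0 - 1) m).re := by
    intro f hf ℓ hℓd hℓ0 hfℓ hre
    obtain ⟨hfd, hf0, hf1, -⟩ := hf
    set h : ℂ → ℂ := fun z => exp (((α:ℂ) - 1) * ℓ z) * deriv f z with hhdef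
    have hhd : DifferentiableOn ℂ h (Metric.ball 0 1) := by
      refine DifferentiableOn.mul ?_ (hfd.deriv Metric.isOpen_ball)
      exact (hℓd.const_mul _).cexp
    have hhA : AnalyticAt ℂ h 0 := hhd.analyticAt hball
    have hh0 : h 0 = 1 := by
      simp only [hhdef]
      rw [hℓ0, hf1]
      simp
    refine ⟨h, fun z _ => rfl, hhA, ?_, ?_⟩
    · intro k
      rw [hH0 k]
      rcases Nat.eq_zero_or_pos k with rfl | hk
      · rw [T_coeff]
        simp [hh0]
      · rw [if_neg (by omega)]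
        obtain ⟨ι, _, w, x, hw, hw1, hx, hrep⟩ := rep h hhd hh0 hre k
        rw [T_coeff, hrep k hk le_rfl, norm_mul]
        have h1 : ‖∑ i, (w i : ℂ) * x i ^ k‖ ≤ 1 := by
          refine (norm_sum_le _ _).trans ?_
          rw [← hw1]
          apply le_of_eq
          apply Finset.sum_congr rfl
          intro i _
          rw [norm_mul, norm_pow, hx i, one_pow, mul_one, Complex.norm_real,
            Real.norm_of_nonneg (hw i)]
        have h2 : ‖(2:ℂ)‖ = 2 := by simp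
        rw [h2]
        simp
        linarith
    · intro m p hp0 hp1
      obtain ⟨ι, _, w, x, hw, hw1, hx, hrep⟩ := rep h hhd hh0 hre (m + 1)
      set Y : PowerSeries ℂ := PowerSeries.mk fun k => if k = 0 then 0 else
        ((2 * (α / (k + α)) : ℝ) : ℂ) * ∑ i, (w i : ℂ) * x i ^ k with hY
      have hcoef : ∀ (f : ℂ → ℂ) (ℓ : ℂ → ℂ) (h : ℂ → ℂ),
          DifferentiableOn ℂ ℓ (Metric.ball 0 1) → ℓ 0 = 0 →
          (∀ z ∈ Metric.ball (0:ℂ) 1, f z = z * exp (ℓ z)) →
          (∀ z ∈ Metric.ball (0:ℂ) 1, h z = exp (((α:ℂ) - 1) * ℓ z) * deriv f z) →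
          AnalyticAt ℂ h 0 → ∀ k, PowerSeries.coeff k (PG α 1 ℓ - 1) = if k = 0 then 0 else
            ((α / (k + α) : ℝ) : ℂ) * PowerSeries.coeff k (T h) := by
        intro f ℓ h hℓd hℓ0 hfℓ hh hhA k
        rw [map_sub, PowerSeries.coeff_one]
        split_ifs with hk
        · rw [hk, PG_zero_coeff α ℓ 1 hℓ0, sub_self]
        · have h1 := PG_rec α f ℓ h hα0 0 hℓd hfℓ hh hhA k
          rw [PG_zero, mul_one, zero_add] at h1
          have hk' : (0:ℝ) ≤ k := Nat.cast_nonneg k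
          have hpos : 0 < (k:ℝ) + α := by positivity
          have hpc : ((k : ℂ) + α) ≠ 0 := by
            have : (((k:ℝ) + α : ℝ) : ℂ) ≠ 0 := by exact_mod_cast hpos.ne'
            push_cast at this
            exact this
          push_cast at h1 ⊢
          rw [sub_zero]
          field_simp
          linear_combination h1
      have hY0 : ∀ k, PowerSeries.coeff k (PG α 1 ℓ0 - 1) = if k = 0 then 0 else
          ((2 * (α / (k + α)) : ℝ) : ℂ) := by
        intro k
        rw [hcoef g' ℓ0 h0 hℓ0d hℓ00 hgℓ (fun z _ => rfl) hh0A k]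
        split_ifs with hk
        · rfl
        · rw [hH0, if_neg hk]
          push_cast
          ring
      have hcore := core α hα0 hα1.le w x hw hw1 hx Y
        (fun k => by rw [hY, PowerSeries.coeff_mk]) (PG α 1 ℓ0 - 1) hY0 p hp0 hp1 m
      rw [ee_congr p (PG α 1 ℓ - 1) Y m ?_]
      · exact hcore
      · intro k hk
        rw [hcoef f ℓ h hℓd hℓ0 hfℓ (fun z _ => rfl) hhA k, hY, PowerSeries.coeff_mk]
        split_ifs with hk0
        · rfl
        · rw [T_coeff, hrep k (by omega) hk]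
          push_cast
          ring
  -- apply to both functions
  obtain ⟨hf'd, hf'0, hf'1, ℓ, hℓd, hℓ0, hfℓ, hfre⟩ := hf'
  obtain ⟨h, hh, hhA, hHdom, hEdom⟩ := main f' ⟨hf'd, hf'0, hf'1, ℓ, hℓd, hℓ0, hfℓ, hfre⟩ ℓ hℓd hℓ0
    hfℓ hfre
  have hgre : ∀ z ∈ Metric.ball (0:ℂ) 1, 0 < (exp (((α:ℂ) - 1) * ℓ0 z) * deriv g' z).re := by
    intro z hz
    rw [hgh z hz]
    exact re_cayley_pos z hz
  obtain ⟨h', hh', hhA', hHdom', hEdom'⟩ := main g'
    ⟨hgd, hg0, hg1, ℓ0, hℓ0d, hℓ00, hgℓ, hgre⟩ ℓ0 hℓ0d hℓ00 hgℓ hgre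
  have hDomH : Dom (T h) (T h0) := by
    intro k
    refine ⟨hHdom k, ?_⟩
    rw [hH0 k]
    split_ifs <;> simp
  have hstep := fun γ hγ hP => lift_step α hα0 f' ℓ h g' ℓ0 h0 hℓd hfℓ hh hhA hℓ0d hgℓ
    (fun z _ => rfl) hh0A hDomH γ hγ hP
  have hlift : ∀ γ : ℝ, 0 ≤ γ → Dom (PG α γ ℓ) (PG α γ ℓ0) → ∀ j : ℕ,
      Dom (PG α (γ + j) ℓ) (PG α (γ + j) ℓ0) := by
    intro γ hγ hbase j
    induction j with
    | zero => simpa using hbase
    | succ j ih =>
      have := hstep (γ + j) (by positivity) ih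
      rw [show γ + ((j + 1 : ℕ) : ℝ) = γ + j + 1 by push_cast; ring]
      exact this
  have hfinal : Dom (PG α (1 / α) ℓ) (PG α (1 / α) ℓ0) := by
    have hβ : 1 < 1 / α := by
      rw [lt_div_iff₀ hα0]
      linarith
    set β : ℝ := 1 / α with hβdef
    have hfl : ((⌊β⌋₊ : ℕ) : ℝ) ≤ β := Nat.floor_le (by linarith)
    have hfl2 : β < ((⌊β⌋₊ : ℕ) : ℝ) + 1 := Nat.lt_floor_add_one β
    have hfl1 : 1 ≤ ⌊β⌋₊ := Nat.one_le_floor_iff β |>.mpr hβ.le
    set θ : ℝ := β - (⌊β⌋₊ : ℕ) with hθ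
    rcases eq_or_lt_of_le hfl with heq | hlt
    · -- integer exponent
      have h1 := hlift 0 le_rfl (by
        rw [PG_zero, PG_zero]
        intro k
        rw [PowerSeries.coeff_one]
        split_ifs <;> simp) ⌊β⌋₊
      rw [zero_add, heq] at h1
      exact h1
    · have hθ0 : 0 < θ := by
        rw [hθ]
        linarith
      have hθ1 : θ < 1 := by
        rw [hθ]
        linarith
      have hode : ∀ L : ℂ → ℂ, DifferentiableOn ℂ L (Metric.ball 0 1) →
          PG α 1 L * PowerSeries.derivative ℂ (PG α (1 + θ) L)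
          = PowerSeries.C (1 + θ : ℂ) * PowerSeries.derivative ℂ (PG α 1 L) * PG α (1 + θ) L := by
        intro L hL
        have := PG_ode α L (1 + θ) hL
        push_cast at this
        exact this
      have hb1 := base_dom θ hθ0 hθ1 (PG α 1 ℓ) (PG α (1 + θ) ℓ) (PG α 1 ℓ0) (PG α (1 + θ) ℓ0)
        (PG_zero_coeff α ℓ 1 hℓ0) (PG_zero_coeff α ℓ (1 + θ) hℓ0) (hode ℓ hℓd)
        (PG_zero_coeff α ℓ0 1 hℓ00) (PG_zero_coeff α ℓ0 (1 + θ) hℓ00) (hode ℓ0 hℓ0d) hEdom
      have hb2 := base_dom θ hθ0 hθ1 (PG α 1 ℓ0) (PG α (1 + θ) ℓ0) (PG α 1 ℓ0) (PG α (1 + θ) ℓ0)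
        (PG_zero_coeff α ℓ0 1 hℓ00) (PG_zero_coeff α ℓ0 (1 + θ) hℓ00) (hode ℓ0 hℓ0d)
        (PG_zero_coeff α ℓ0 1 hℓ00) (PG_zero_coeff α ℓ0 (1 + θ) hℓ00) (hode ℓ0 hℓ0d) hEdom'
      have h1 := hlift (1 + θ) (by linarith)
        (fun k => ⟨hb1 k, im_of_norm_le _ (hb2 k)⟩) (⌊β⌋₊ - 1)
      have h2 : 1 + θ + ((⌊β⌋₊ - 1 : ℕ) : ℝ) = β := by
        rw [Nat.cast_sub hfl1, hθ]
        push_cast
        ring
      rw [h2] at h1
      exact h1
  obtain ⟨N, rfl⟩ : ∃ N, n = N + 1 := ⟨n - 1, by omega⟩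
  rw [coeff_f α f' ℓ hα0 hℓd hfℓ N, coeff_f α g' ℓ0 hα0 hℓ0d hgℓ N]
  exact ⟨(hfinal N).2, (hfinal N).1⟩

end partM8

end Pool.Agent.Results.MP_0e1b7e_an.FullRange
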